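import Pool.Agent.Lib.MP_8d4425_gt.PB.Iface

set_option autoImplicit false

/-!
# p-biharmonic hypersurfaces, row COD: the traced Codazzi equation
-/

namespace MP8d4425

open scoped ContDiff

namespace Cod

variable {m : ℕ}

theorem hasF {F : Type} [NormedAddCommGroup F] [NormedSpace ℝ F] {U : Set (X m)} {g : X m → F}
    (hU : IsOpen U) (hg : ContDiffOn ℝ ∞ g U) {x : X m} (hx : x ∈ U) :
    HasFDerivAt g (fderiv ℝ g x) x :=
  ((hg.contDiffAt (hU.mem_nhds hx)).differentiableAt (by simp)).hasFDerivAt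

theorem hasF2 {F : Type} [NormedAddCommGroup F] [NormedSpace ℝ F] {U : Set (X m)} {g : X m → F}
    (hU : IsOpen U) (hg : ContDiffOn ℝ ∞ g U) {x : X m} (hx : x ∈ U) :
    HasFDerivAt (fderiv ℝ g) (fderiv ℝ (fderiv ℝ g) x) x := by
  have h1 : ContDiffAt ℝ ∞ g x := hg.contDiffAt (hU.mem_nhds hx)
  have h2 : ContDiffAt ℝ 1 (fderiv ℝ g) x := h1.fderiv_right (m := 1) (by norm_cast)
  exact (h2.differentiableAt (by simp)).hasFDerivAt

/-- the derivative of `y ↦ Dg_y v` -/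
theorem hasFv {F : Type} [NormedAddCommGroup F] [NormedSpace ℝ F] {U : Set (X m)} {g : X m → F}
    (hU : IsOpen U) (hg : ContDiffOn ℝ ∞ g U) {x : X m} (hx : x ∈ U) (v : X m) :
    HasFDerivAt (fun y => fderiv ℝ g y v)
      ((ContinuousLinearMap.apply ℝ F v).comp (fderiv ℝ (fderiv ℝ g) x)) x :=
  (ContinuousLinearMap.apply ℝ F v).hasFDerivAt.comp x (hasF2 hU hg hx)

/-- Two functions which agree on an open set have the same derivative. -/
theorem eq_of_eqOn {F : Type} [NormedAddCommGroup F] [NormedSpace ℝ F] {U : Set (X m)}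
    {g g' : X m → F} (hU : IsOpen U) {x : X m} (hx : x ∈ U) (h : ∀ y ∈ U, g y = g' y)
    {A A' : X m →L[ℝ] F} (hA : HasFDerivAt g A x) (hA' : HasFDerivAt g' A' x) : A = A' := by
  have h1 : g =ᶠ[nhds x] g' := by
    filter_upwards [hU.mem_nhds hx] with y hy using h y hy
  exact (hA.congr_of_eventuallyEq h1.symm).unique hA'

/-- Codazzi. -/
theorem codazzi (hB : BasStatement) {U : Set (X m)} {φ N : X m → X (m + 1)}
    {P : X m → (X (m + 1) →L[ℝ] X m)} (h : Imm m U φ N P) {x : X m} (hx : x ∈ U) (z v w : X m) :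
    (inner ℝ (D2 N x z v) (fderiv ℝ φ x w) : ℝ) + inner ℝ (fderiv ℝ N x v) (D2 φ x z w) =
      inner ℝ (D2 N x z w) (fderiv ℝ φ x v) + inner ℝ (fderiv ℝ N x w) (D2 φ x z v) := by
  have h1 := (hasFv h.op h.sN hx v).inner ℝ (hasFv h.op h.sφ hx w)
  have h2 := (hasFv h.op h.sN hx w).inner ℝ (hasFv h.op h.sφ hx v)
  have h3 := eq_of_eqOn h.op hx (fun y hy => (hB m U φ N P h y hy).2.2.2.2.1 v w) h1 h2
  have h4 := congrArg (fun L : X m →L[ℝ] ℝ => L z) h3
  simp only [ContinuousLinearMap.comp_apply, ContinuousLinearMap.prod_apply,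
    fderivInnerCLM_apply, ContinuousLinearMap.apply_apply] at h4
  unfold D2
  linarith

/-- The trace with a frame. -/
theorem tr_frame (hO : OfrStatement) {U : Set (X m)} {φ N : X m → X (m + 1)}
    {P : X m → (X (m + 1) →L[ℝ] X m)} (h : Imm m U φ N P) {x : X m} (hx : x ∈ U)
    {ε : Fin m → X m} (hε : OF φ x ε) (L : X m →L[ℝ] X m) :
    ∑ i, (L (cv i)) i = ∑ a, (inner ℝ (fderiv ℝ φ x (ε a)) (fderiv ℝ φ x (L (ε a))) : ℝ) := by
  have h1 := ((hO m U φ N P h x hx).2 ε hε).1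
  have h2 : ∀ v : X m, v = ∑ i, v i • (cv i : X m) := by
    intro v
    ext j
    simp [cv, Pi.single_apply]
  have h3 : ∀ i, (L (cv i)) i =
      ∑ a, (inner ℝ (fderiv ℝ φ x (ε a)) (fderiv ℝ φ x (cv i)) : ℝ) * (L (ε a)) i := by
    intro i
    conv_lhs => rw [h1 (cv i)]
    rw [map_sum]
    simp
  have h4 : ∀ a, (inner ℝ (fderiv ℝ φ x (ε a)) (fderiv ℝ φ x (L (ε a))) : ℝ) =
      ∑ i, (inner ℝ (fderiv ℝ φ x (ε a)) (fderiv ℝ φ x (cv i)) : ℝ) * (L (ε a)) i := by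
    intro a
    conv_lhs => rw [h2 (L (ε a))]
    rw [map_sum, inner_sum]
    refine Finset.sum_congr rfl fun i _ => ?_
    rw [map_smul, real_inner_smul_right, mul_comm]
  rw [Finset.sum_congr rfl fun i _ => h3 i, Finset.sum_comm, Finset.sum_congr rfl fun a _ => h4 a]

end Cod

theorem cod_proof (hB : BasStatement) (hO : OfrStatement) : CodStatement := by
  intro m U φ N P f h sf hf x hx ε hε u
  have hb := hB m U φ N P h x hx
  obtain ⟨hb1, hb2, hb3, hb4, hb5, hb6, hb7, hb8⟩ := hb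
  have ho := (hO m U φ N P h x hx).2 ε hε
  have hNp : ∀ v, (inner ℝ (fderiv ℝ φ x v) (N x) : ℝ) = 0 := by
    intro v
    rw [real_inner_comm]
    exact h.perp x hx v
  -- `⟪Dφ v, Dφ (P w)⟫ = ⟪Dφ v, w⟫`
  have hP : ∀ v w, (inner ℝ (fderiv ℝ φ x v) (fderiv ℝ φ x (P x w)) : ℝ) =
      inner ℝ (fderiv ℝ φ x v) w := by
    intro v w
    rw [h.right x hx w, inner_sub_right, real_inner_smul_right, hNp v, mul_zero, sub_zero]
  -- `m f` is a trace
  have htr : ∀ y ∈ U, (m : ℝ) * f y = -∑ i, (P y (fderiv ℝ N y (cv i))) i := by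
    intro y hy
    obtain ⟨ε', hε'⟩ := (hO m U φ N P h y hy).1
    have hby := hB m U φ N P h y hy
    rw [hf y hy ε' hε']
    have := Cod.tr_frame hO h hy hε' ((P y).comp (fderiv ℝ N y))
    simp only [ContinuousLinearMap.comp_apply] at this
    rw [this]
    congr 1
    refine Finset.sum_congr rfl fun a _ => ?_
    rw [hby.2.2.2.2.2.1 _ (hby.1 (ε' a)), real_inner_comm]
  -- its derivative
  have hPx : HasFDerivAt P (fderiv ℝ P x) x := Cod.hasF h.op h.sP hx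
  have hd1 : HasFDerivAt (fun y => (m : ℝ) * f y) ((m : ℝ) • fderiv ℝ f x) x :=
    (Cod.hasF h.op sf hx).const_mul (m : ℝ)
  have hd2 : HasFDerivAt (fun y => -∑ i, (P y (fderiv ℝ N y (cv i))) i)
      (-∑ i, (EuclideanSpace.proj (𝕜 := ℝ) i : X m →L[ℝ] ℝ).comp
        ((P x).comp ((ContinuousLinearMap.apply ℝ (X (m + 1)) (cv i)).comp
          (fderiv ℝ (fderiv ℝ N) x)) + (fderiv ℝ P x).flip (fderiv ℝ N x (cv i)))) x := by
    refine HasFDerivAt.neg (HasFDerivAt.fun_sum fun i _ => ?_)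
    exact (EuclideanSpace.proj (𝕜 := ℝ) i : X m →L[ℝ] ℝ).hasFDerivAt.comp x
      (hPx.clm_apply (Cod.hasFv h.op h.sN hx (cv i)))
  have hd3 := Cod.eq_of_eqOn h.op hx htr hd1 hd2
  have hd4 := congrArg (fun L : X m →L[ℝ] ℝ => L u) hd3
  set L : X m →L[ℝ] X m := (P x).comp (fderiv ℝ (fderiv ℝ N) x u) +
    (fderiv ℝ P x u).comp (fderiv ℝ N x) with hL
  have hd5 : (m : ℝ) * fderiv ℝ f x u = -∑ i, (L (cv i)) i := by
    rw [hL]
    simpa using hd4
  -- `DP(u) (Dφ v) = - P (D²φ(u, v))`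
  have hDP : ∀ v, fderiv ℝ P x u (fderiv ℝ φ x v) = -(P x (D2 φ x u v)) := by
    intro v
    have h1 : HasFDerivAt (fun y => P y (fderiv ℝ φ y v))
        ((P x).comp ((ContinuousLinearMap.apply ℝ (X (m + 1)) v).comp
          (fderiv ℝ (fderiv ℝ φ) x)) + (fderiv ℝ P x).flip (fderiv ℝ φ x v)) x :=
      hPx.clm_apply (Cod.hasFv h.op h.sφ hx v)
    have h2 := Cod.eq_of_eqOn h.op hx (fun y hy => h.left y hy v) h1 (hasFDerivAt_const v x)
    have h3 := congrArg (fun L : X m →L[ℝ] X m => L u) h2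
    have h4 : P x (D2 φ x u v) + fderiv ℝ P x u (fderiv ℝ φ x v) = 0 := by
      unfold D2
      simpa using h3
    exact eq_neg_of_add_eq_zero_right h4
  set B : Fin m → X m := fun a => P x (fderiv ℝ N x (ε a)) with hBdef
  have hDN : ∀ a, fderiv ℝ φ x (B a) = fderiv ℝ N x (ε a) := fun a => hb6 _ (hb1 (ε a))
  have hLa : ∀ a, (inner ℝ (fderiv ℝ φ x (ε a)) (fderiv ℝ φ x (L (ε a))) : ℝ) =
      inner ℝ (fderiv ℝ φ x (ε a)) (D2 N x u (ε a)) -
        inner ℝ (fderiv ℝ φ x (ε a)) (D2 φ x u (B a)) := by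
    intro a
    have e1 : L (ε a) = P x (D2 N x u (ε a)) - P x (D2 φ x u (B a)) := by
      rw [hL, _root_.add_apply, ContinuousLinearMap.comp_apply,
        ContinuousLinearMap.comp_apply, ← hDN a, hDP (B a)]
      rfl
    rw [e1, map_sub, inner_sub_right, hP, hP]
  have hBa : ∀ a, B a = ∑ b, (inner ℝ (fderiv ℝ φ x (ε b)) (fderiv ℝ N x (ε a)) : ℝ) • ε b := by
    intro a
    have := ho.1 (B a)
    rw [hDN a] at this
    exact this
  have hs1 : ∀ a, (inner ℝ (fderiv ℝ φ x (ε a)) (D2 φ x u (B a)) : ℝ) =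
      ∑ b, (inner ℝ (fderiv ℝ φ x (ε b)) (fderiv ℝ N x (ε a)) : ℝ) *
        inner ℝ (fderiv ℝ φ x (ε a)) (D2 φ x u (ε b)) := by
    intro a
    have e1 : D2 φ x u (B a) = ∑ b, (inner ℝ (fderiv ℝ φ x (ε b)) (fderiv ℝ N x (ε a)) : ℝ) •
        D2 φ x u (ε b) := by
      unfold D2
      conv_lhs => rw [hBa a]
      rw [map_sum]
      refine Finset.sum_congr rfl fun b _ => ?_
      rw [map_smul]
    rw [e1, inner_sum]
    refine Finset.sum_congr rfl fun b _ => ?_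
    rw [real_inner_smul_right]
  have hs2 : ∀ a, (inner ℝ (fderiv ℝ N x (ε a)) (D2 φ x (ε a) u) : ℝ) =
      ∑ b, (inner ℝ (fderiv ℝ φ x (ε b)) (fderiv ℝ N x (ε a)) : ℝ) *
        inner ℝ (fderiv ℝ φ x (ε b)) (D2 φ x (ε a) u) := by
    intro a
    have e1 := ho.2 _ (hb1 (ε a))
    conv_lhs => rw [e1]
    rw [sum_inner]
    refine Finset.sum_congr rfl fun b _ => ?_
    rw [real_inner_smul_left]
  have hs3 : ∑ a, (inner ℝ (fderiv ℝ φ x (ε a)) (D2 φ x u (B a)) : ℝ) =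
      ∑ a, (inner ℝ (fderiv ℝ N x (ε a)) (D2 φ x (ε a) u) : ℝ) := by
    rw [Finset.sum_congr rfl fun a _ => hs1 a, Finset.sum_congr rfl fun a _ => hs2 a,
      Finset.sum_comm]
    refine Finset.sum_congr rfl fun a _ => Finset.sum_congr rfl fun b _ => ?_
    rw [hb3 u (ε a), real_inner_comm (fderiv ℝ N x (ε b)) (fderiv ℝ φ x (ε a)), hb5 (ε b) (ε a),
      real_inner_comm (fderiv ℝ φ x (ε b)) (fderiv ℝ N x (ε a))]
  -- Codazzi
  have hc : ∀ a, (inner ℝ (D2 N x (ε a) (ε a) - fderiv ℝ N x (P x (D2 φ x (ε a) (ε a))))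
      (fderiv ℝ φ x u) : ℝ) = inner ℝ (fderiv ℝ φ x (ε a)) (D2 N x u (ε a)) -
        inner ℝ (fderiv ℝ N x (ε a)) (D2 φ x (ε a) u) := by
    intro a
    have e1 := Cod.codazzi hB h hx (ε a) (ε a) u
    have e2 : (inner ℝ (fderiv ℝ N x (P x (D2 φ x (ε a) (ε a)))) (fderiv ℝ φ x u) : ℝ) =
        inner ℝ (fderiv ℝ N x u) (D2 φ x (ε a) (ε a)) := by
      rw [hb5, h.right x hx, inner_sub_right, real_inner_smul_right,
        real_inner_comm (N x) (fderiv ℝ N x u), hb1 u, mul_zero, sub_zero]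
    rw [inner_sub_left, e2]
    have e3 : (inner ℝ (D2 N x (ε a) u) (fderiv ℝ φ x (ε a)) : ℝ) =
        inner ℝ (fderiv ℝ φ x (ε a)) (D2 N x u (ε a)) := by
      rw [real_inner_comm, hb4]
    rw [← e3]
    linarith
  unfold lap
  rw [sum_inner, Finset.sum_congr rfl fun a _ => hc a, hd5, Cod.tr_frame hO h hx hε L,
    Finset.sum_congr rfl fun a _ => hLa a, Finset.sum_sub_distrib, Finset.sum_sub_distrib, hs3,
    neg_neg]

end MP8d4425
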