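import Mathlib

set_option autoImplicit false

/-!
# p-biharmonic hypersurfaces: interface of the ODE part

Paper: finding 4568 on MP_8d4425_gt (helper81), sections (2) - (5).
-/

namespace MP8d4425

/-! ## The scalar system -/

/-- `κ` from the principal curvatures `k i`. -/
noncomputable def kap {n : ℕ} (μ : ℝ) (k : Fin n → ℝ) : ℝ := -(μ * ∑ i, k i)

/-- `κ'`. -/
noncomputable def kap1 {n : ℕ} (μ : ℝ) (k b : Fin n → ℝ) : ℝ :=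
  -(μ * ∑ i, (kap μ k - k i) * b i)

/-- `κ''` as given by equation (G). -/
noncomputable def kap2 {n : ℕ} (μ ν : ℝ) (k b : Fin n → ℝ) : ℝ :=
  kap μ k * ((1 + ν) * kap μ k ^ 2 + ∑ i, k i ^ 2) - (∑ i, b i) * kap1 μ k b

/-- `κ''` as it follows from the ODE. -/
noncomputable def kdd {n : ℕ} (μ : ℝ) (k b : Fin n → ℝ) : ℝ :=
  -(μ * ∑ i, ((kap1 μ k b - (kap μ k - k i) * b i) * b i +
    (kap μ k - k i) * (-(b i) ^ 2 - kap μ k * k i)))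

/-- A local solution of the system with equation (G), `κ < 0` and `κ' < 0` at the start. -/
structure Loc (n : ℕ) (μ ν ε : ℝ) (k b : Fin n → ℝ → ℝ) : Prop where
  pos : 0 < ε
  dk : ∀ s ∈ Set.Ioo (-ε) ε, ∀ i,
    HasDerivAt (k i) ((kap μ (fun j => k j s) - k i s) * b i s) s
  db : ∀ s ∈ Set.Ioo (-ε) ε, ∀ i,
    HasDerivAt (b i) (-(b i s) ^ 2 - kap μ (fun j => k j s) * k i s) s
  neg : kap μ (fun j => k j 0) < 0
  neg1 : kap1 μ (fun j => k j 0) (fun j => b j 0) < 0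
  eq : ∀ s ∈ Set.Ioo (-ε) ε,
    HasDerivAt (fun t => kap1 μ (fun j => k j t) (fun j => b j t))
      (kap2 μ ν (fun j => k j s) (fun j => b j s)) s

/-- The ODE theorem (assembly of all the rows below). -/
def OdeStatement : Prop :=
  ∀ (n : ℕ) (μ ν ε : ℝ) (k b : Fin n → ℝ → ℝ), 0 < μ → 0 ≤ ν → ¬ Loc n μ ν ε k b

/-- Row ALG: a polynomial relation which holds along a local solution `x` of a polynomial ODE
holds along any other (time changed) solution `y` with the same initial value.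
[All Lie derivatives `D^j G` vanish at `x 0`; by Hilbert's basis theorem `D^K G` is in the ideal
generated by the `D^j G`, `j < K`; uniqueness for the linear ODE of `(D^j G (y t))_{j<K}`.] -/
def AlgStatement : Prop :=
  ∀ (ι : Type) [Fintype ι] (V : ι → MvPolynomial ι ℝ) (G : MvPolynomial ι ℝ) (ε a T : ℝ)
    (x y : ℝ → ι → ℝ) (w : ℝ → ℝ), 0 < ε → a < 0 → 0 < T → Continuous w →
    (∀ s ∈ Set.Ioo (-ε) ε, ∀ i,
      HasDerivAt (fun s => x s i) (MvPolynomial.eval (x s) (V i)) s) →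
    (∀ s ∈ Set.Ioo (-ε) ε, MvPolynomial.eval (x s) G = 0) →
    y 0 = x 0 →
    (∀ t ∈ Set.Ioo a T, ∀ i,
      HasDerivAt (fun t => y t i) (w t * MvPolynomial.eval (y t) (V i)) t) →
    ∀ t ∈ Set.Ioo a T, MvPolynomial.eval (y t) G = 0

/-- Row PER (from ALG): equation (G) persists. -/
def PerStatement : Prop :=
  ∀ (n : ℕ) (μ ν ε a T : ℝ) (k b K B : Fin n → ℝ → ℝ) (w : ℝ → ℝ), Loc n μ ν ε k b →
    a < 0 → 0 < T → Continuous w → (∀ i, K i 0 = k i 0) → (∀ i, B i 0 = b i 0) →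
    (∀ t ∈ Set.Ioo a T, ∀ i,
      HasDerivAt (K i) (w t * ((kap μ (fun j => K j t) - K i t) * B i t)) t) →
    (∀ t ∈ Set.Ioo a T, ∀ i,
      HasDerivAt (B i) (w t * (-(B i t) ^ 2 - kap μ (fun j => K j t) * K i t)) t) →
    ∀ t ∈ Set.Ioo a T,
      kdd μ (fun j => K j t) (fun j => B j t) = kap2 μ ν (fun j => K j t) (fun j => B j t)

/-- Row GLOB: a bounded C¹ vector field has global integral curves.  [On `[-T,T]` by
Picard-Lindelöf on the ball of radius `L * T`, where the field is Lipschitz (compact convex);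
gluing by uniqueness.] -/
def GlobStatement : Prop :=
  ∀ (E : Type) [NormedAddCommGroup E] [NormedSpace ℝ E] [FiniteDimensional ℝ E] (F : E → E)
    (L : ℝ), ContDiff ℝ 1 F → (∀ x, ‖F x‖ ≤ L) → ∀ x₀,
    ∃ γ : ℝ → E, γ 0 = x₀ ∧ ∀ t, HasDerivAt γ (F (γ t)) t

/-! ## The planar model -/

/-- `⟨c, z⟩` in the plane. -/
noncomputable def ip (c z : ℂ) : ℝ := (starRingEnd ℂ c * z).re

/-- The affine function `1 + ⟨c, z⟩`. -/
noncomputable def rho (c z : ℂ) : ℝ := 1 + ip c z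

/-- The unit tangent of angle `θ`. -/
noncomputable def tv (θ : ℝ) : ℂ := Complex.exp (θ * Complex.I)

/-- The unit normal of angle `θ`. -/
noncomputable def nv (θ : ℝ) : ℂ := Complex.I * tv θ

/-- The product of the affine functions. -/
noncomputable def prho {n : ℕ} (c : Fin n → ℂ) (z : ℂ) : ℝ := ∏ i, rho (c i) z

/-- The angular velocity. -/
noncomputable def ang {n : ℕ} (μ : ℝ) (c : Fin n → ℂ) (z : ℂ) (θ : ℝ) : ℝ :=
  μ * ∑ i, ip (c i) (nv θ) * ∏ j ∈ Finset.univ.erase i, rho (c j) z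

/-- `k i` in the planar model. -/
noncomputable def Kf (c z : ℂ) (θ : ℝ) : ℝ := -(ip c (nv θ) / rho c z)

/-- `b i` in the planar model. -/
noncomputable def Bf (c z : ℂ) (θ : ℝ) : ℝ := ip c (tv θ) / rho c z

/-- `q = -κ` in the planar model. -/
noncomputable def qf {n : ℕ} (μ : ℝ) (c : Fin n → ℂ) (z : ℂ) (θ : ℝ) : ℝ :=
  -(μ * ∑ i, ip (c i) (nv θ) / rho (c i) z)

/-- Row FLOW (from GLOB): the planar ODE, solved as long as `‖z‖ ≤ R` (multiply the polynomial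
field by a bump function of `z`). -/
def FlowStatement : Prop :=
  ∀ (n : ℕ) (μ R : ℝ) (c : Fin n → ℂ), 0 < R → ∃ (z : ℝ → ℂ) (θ : ℝ → ℝ),
    z 0 = 0 ∧ θ 0 = 0 ∧ Continuous z ∧ Continuous θ ∧
    ∀ t, ‖z t‖ ≤ R → HasDerivAt z ((prho c (z t) : ℂ) * tv (θ t)) t ∧
      HasDerivAt θ (ang μ c (z t) (θ t)) t

/-- Row MOD: derivatives in the planar model. -/
def ModStatement : Prop :=
  (∀ (c : ℂ) (θ : ℝ), ip c (tv θ) ^ 2 + ip c (nv θ) ^ 2 = ‖c‖ ^ 2 ∧ ‖tv θ‖ = 1 ∧ ‖nv θ‖ = 1) ∧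
  ∀ (n : ℕ) (μ : ℝ) (c : Fin n → ℂ) (z : ℝ → ℂ) (θ : ℝ → ℝ) (t : ℝ),
    HasDerivAt z ((prho c (z t) : ℂ) * tv (θ t)) t → HasDerivAt θ (ang μ c (z t) (θ t)) t →
    (∀ i, HasDerivAt (fun t => rho (c i) (z t)) (prho c (z t) * ip (c i) (tv (θ t))) t) ∧
    (∀ a : ℂ, HasDerivAt (fun t => ip a (tv (θ t))) (ang μ c (z t) (θ t) * ip a (nv (θ t))) t) ∧
    (∀ a : ℂ,
      HasDerivAt (fun t => ip a (nv (θ t))) (-(ang μ c (z t) (θ t) * ip a (tv (θ t)))) t) ∧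
    (HasDerivAt (fun t => nv (θ t)) (-((ang μ c (z t) (θ t) : ℂ) * tv (θ t))) t) ∧
    ((∀ i, rho (c i) (z t) ≠ 0) →
      qf μ c (z t) (θ t) = -kap μ (fun i => Kf (c i) (z t) (θ t)) ∧
      ang μ c (z t) (θ t) = -(prho c (z t) * qf μ c (z t) (θ t)) ∧
      ∀ i,
        HasDerivAt (fun t => Kf (c i) (z t) (θ t)) (prho c (z t) *
          ((kap μ (fun j => Kf (c j) (z t) (θ t)) - Kf (c i) (z t) (θ t)) *
            Bf (c i) (z t) (θ t))) t ∧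
        HasDerivAt (fun t => Bf (c i) (z t) (θ t)) (prho c (z t) *
          (-(Bf (c i) (z t) (θ t)) ^ 2 -
            kap μ (fun j => Kf (c j) (z t) (θ t)) * Kf (c i) (z t) (θ t))) t)

/-- Row POSI (from MOD): the affine functions stay positive as long as the ODE holds (also for a
short time backwards). -/
def PosiStatement : Prop :=
  ∀ (n : ℕ) (μ R : ℝ) (c : Fin n → ℂ) (z : ℝ → ℂ) (θ : ℝ → ℝ), 0 < R → z 0 = 0 →
    Continuous z → Continuous θ →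
    (∀ t, ‖z t‖ ≤ R → HasDerivAt z ((prho c (z t) : ℂ) * tv (θ t)) t ∧
      HasDerivAt θ (ang μ c (z t) (θ t)) t) →
    ∃ a < 0, ∀ T, 0 ≤ T → (∀ t ∈ Set.Icc 0 T, ‖z t‖ < R) →
      ∃ T' > T, ∀ t ∈ Set.Ioo a T', ‖z t‖ ≤ R ∧ ∀ i, 0 < rho (c i) (z t)

/-- Row MONO: the scalar comparison.  `q = -κ`, `W = w κ'`: as long as (G) holds, `W` is
non-increasing, `q` increases with `q_t = -W`. -/
def MonoStatement : Prop :=
  ∀ (n : ℕ) (μ ν T : ℝ) (K B : Fin n → ℝ → ℝ) (w : ℝ → ℝ), 0 ≤ ν → 0 ≤ T →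
    (∀ t ∈ Set.Icc 0 T, 0 < w t) →
    (∀ t ∈ Set.Icc 0 T, ∀ i,
      HasDerivAt (K i) (w t * ((kap μ (fun j => K j t) - K i t) * B i t)) t) →
    (∀ t ∈ Set.Icc 0 T, ∀ i,
      HasDerivAt (B i) (w t * (-(B i t) ^ 2 - kap μ (fun j => K j t) * K i t)) t) →
    (∀ t ∈ Set.Icc 0 T, HasDerivAt w (w t * (w t * ∑ i, B i t)) t) →
    (∀ t ∈ Set.Icc 0 T,
      kdd μ (fun j => K j t) (fun j => B j t) = kap2 μ ν (fun j => K j t) (fun j => B j t)) →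
    kap μ (fun j => K j 0) < 0 → kap1 μ (fun j => K j 0) (fun j => B j 0) < 0 →
    ∀ t ∈ Set.Icc 0 T,
      HasDerivAt (fun t => -kap μ (fun j => K j t))
        (-(w t * kap1 μ (fun j => K j t) (fun j => B j t))) t ∧
      -(w 0 * kap1 μ (fun j => K j 0) (fun j => B j 0)) ≤
        -(w t * kap1 μ (fun j => K j t) (fun j => B j t)) ∧
      kap μ (fun j => K j t) < 0

/-- Row CEN: the centre of curvature estimate. -/
def CenStatement : Prop :=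
  ∀ (t₁ t₂ : ℝ) (z : ℝ → ℂ) (θ P q q1 : ℝ → ℝ), t₁ ≤ t₂ →
    (∀ t ∈ Set.Icc t₁ t₂, HasDerivAt z ((P t : ℂ) * tv (θ t)) t) →
    (∀ t ∈ Set.Icc t₁ t₂, HasDerivAt θ (-(P t * q t)) t) →
    (∀ t ∈ Set.Icc t₁ t₂, HasDerivAt q (q1 t) t) →
    (∀ t ∈ Set.Icc t₁ t₂, 0 ≤ q1 t) → (∀ t ∈ Set.Icc t₁ t₂, 0 < q t) →
    ‖z t₂ - z t₁‖ ≤ 2 / q t₁

/-- The global planar data, for all times `t ≥ 0`. -/
structure Geo (n : ℕ) (μ : ℝ) (c : Fin n → ℂ) (z : ℝ → ℂ) (θ q q1 : ℝ → ℝ) (w0 : ℝ) :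
    Prop where
  μpos : 0 < μ
  wpos : 0 < w0
  z0 : z 0 = 0
  dz : ∀ t, 0 ≤ t → HasDerivAt z ((prho c (z t) : ℂ) * tv (θ t)) t
  dθ : ∀ t, 0 ≤ t → HasDerivAt θ (-(prho c (z t) * q t)) t
  rpos : ∀ t, 0 ≤ t → ∀ i, 0 < rho (c i) (z t)
  qeq : ∀ t, 0 ≤ t → q t = qf μ c (z t) (θ t)
  dq : ∀ t, 0 ≤ t → HasDerivAt q (q1 t) t
  q1ge : ∀ t, 0 ≤ t → w0 ≤ q1 t
  qpos : ∀ t, 0 ≤ t → 0 < q t

/-- Row BND (from FLOW, MOD, POSI, MONO, CEN, PER): the global planar data, from a local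
solution.  `c i = b i 0 - k i 0 * I`, `R = 2 / q 0 + 1`; continuity argument: `‖z t‖ < R` for all
`t ≥ 0`. -/
def BndStatement : Prop :=
  ∀ (n : ℕ) (μ ν ε : ℝ) (k b : Fin n → ℝ → ℝ), 0 < μ → 0 ≤ ν → Loc n μ ν ε k b →
    ∃ (c : Fin n → ℂ) (z : ℝ → ℂ) (θ q q1 : ℝ → ℝ) (w0 : ℝ), Geo n μ c z θ q q1 w0

/-- Row LIM (from CEN): growth of `q`, limit of `z`. -/
def LimStatement : Prop :=
  ∀ (n : ℕ) (μ : ℝ) (c : Fin n → ℂ) (z : ℝ → ℂ) (θ q q1 : ℝ → ℝ) (w0 : ℝ),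
    Geo n μ c z θ q q1 w0 → (∀ t, 0 ≤ t → q 0 + w0 * t ≤ q t) ∧
      (∀ s t, 0 ≤ s → s ≤ t → q s ≤ q t) ∧
      ∃ x : ℂ, (∀ t, 0 ≤ t → ‖z t - x‖ ≤ 2 / q t) ∧
        Filter.Tendsto z Filter.atTop (nhds x) ∧ ∀ i, 0 ≤ rho (c i) x

/-- `Geo` with the facts of LIM. -/
structure Geo2 (n : ℕ) (μ : ℝ) (c : Fin n → ℂ) (z : ℝ → ℂ) (θ q q1 : ℝ → ℝ) (w0 : ℝ) (x : ℂ) :
    Prop where
  geo : Geo n μ c z θ q q1 w0
  grow : ∀ t, 0 ≤ t → q 0 + w0 * t ≤ q t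
  qmono : ∀ s t, 0 ≤ s → s ≤ t → q s ≤ q t
  zx : ∀ t, 0 ≤ t → ‖z t - x‖ ≤ 2 / q t
  lim : Filter.Tendsto z Filter.atTop (nhds x)
  rx : ∀ i, 0 ≤ rho (c i) x

/-- Row VNE: some affine function vanishes at the limit point. -/
def VneStatement : Prop :=
  ∀ (n : ℕ) (μ : ℝ) (c : Fin n → ℂ) (z : ℝ → ℂ) (θ q q1 : ℝ → ℝ) (w0 : ℝ) (x : ℂ),
    Geo2 n μ c z θ q q1 w0 x → ∃ i, rho (c i) x = 0

/-- Row CI: the angle is bounded below. -/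
def CiStatement : Prop :=
  ∀ (n : ℕ) (μ : ℝ) (c : Fin n → ℂ) (z : ℝ → ℂ) (θ q q1 : ℝ → ℝ) (w0 : ℝ) (x : ℂ),
    Geo2 n μ c z θ q q1 w0 x → (∃ i, rho (c i) x = 0) → ∃ θ₁ : ℝ, ∀ t, 0 ≤ t → θ₁ ≤ θ t

/-- Row TURN: the length left `l`. -/
def TurnStatement : Prop :=
  ∀ (n : ℕ) (μ : ℝ) (c : Fin n → ℂ) (z : ℝ → ℂ) (θ q q1 : ℝ → ℝ) (w0 : ℝ) (x : ℂ) (θ₁ : ℝ),
    Geo2 n μ c z θ q q1 w0 x → (∀ t, 0 ≤ t → θ₁ ≤ θ t) →
    ∃ l : ℝ → ℝ, (∀ t, 0 ≤ t → HasDerivAt l (-prho c (z t)) t) ∧ (∀ t, 0 ≤ t → 0 < l t) ∧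
      (∀ t, 0 ≤ t → ‖z t - x‖ ≤ l t) ∧
      Filter.Tendsto (fun t => q t * l t) Filter.atTop (nhds 0)

/-- Row CIIA: two affine functions vanish at the limit point. -/
def CiiaStatement : Prop :=
  ∀ (n : ℕ) (μ : ℝ) (c : Fin n → ℂ) (z : ℝ → ℂ) (θ q q1 l : ℝ → ℝ) (w0 : ℝ) (x : ℂ),
    Geo2 n μ c z θ q q1 w0 x → (∀ t, 0 ≤ t → HasDerivAt l (-prho c (z t)) t) →
    (∀ t, 0 ≤ t → 0 < l t) → (∀ t, 0 ≤ t → ‖z t - x‖ ≤ l t) →
    Filter.Tendsto (fun t => q t * l t) Filter.atTop (nhds 0) →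
    ∀ i j, i ≠ j → rho (c i) x = 0 → rho (c j) x = 0 → False

/-- Row CIIB: exactly one affine function vanishes at the limit point. -/
def CiibStatement : Prop :=
  ∀ (n : ℕ) (μ : ℝ) (c : Fin n → ℂ) (z : ℝ → ℂ) (θ q q1 l : ℝ → ℝ) (w0 : ℝ) (x : ℂ),
    Geo2 n μ c z θ q q1 w0 x → (∀ t, 0 ≤ t → HasDerivAt l (-prho c (z t)) t) →
    (∀ t, 0 ≤ t → 0 < l t) → (∀ t, 0 ≤ t → ‖z t - x‖ ≤ l t) →
    Filter.Tendsto (fun t => q t * l t) Filter.atTop (nhds 0) →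
    ∀ i, rho (c i) x = 0 → (∀ j, j ≠ i → 0 < rho (c j) x) → False

end MP8d4425
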