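import Mathlib
import Pool.Agent.Lib.MP_8d4425_gt.PB.Ode

set_option autoImplicit false

/-!
# p-biharmonic hypersurfaces of Euclidean space are minimal: interface

Paper: finding 4568 on MP_8d4425_gt (helper81).  `X m` is the parameter domain, `X (m+1)` the
ambient space, `φ` an immersion, `N` a unit normal field, `P x` the left inverse of `Dφ x` which
kills `N x`.
-/

namespace MP8d4425

open scoped ContDiff

/-- Euclidean space. -/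
abbrev X (m : ℕ) : Type := EuclideanSpace ℝ (Fin m)

/-- The coordinate vectors. -/
noncomputable def cv {m : ℕ} (i : Fin m) : X m := EuclideanSpace.single i (1 : ℝ)

/-- The induced metric in coordinates. -/
noncomputable def gram {m n : ℕ} (φ : X m → X n) (x : X m) : Matrix (Fin m) (Fin m) ℝ :=
  Matrix.of fun i j => inner ℝ (fderiv ℝ φ x (cv i)) (fderiv ℝ φ x (cv j))

/-- The divergence, with respect to the metric induced by `φ`, of the vector valued 1-form with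
components `θ x j`. -/
noncomputable def dvg {m n : ℕ} (φ : X m → X n) {F : Type} [NormedAddCommGroup F]
    [NormedSpace ℝ F] (θ : X m → Fin m → F) (x : X m) : F :=
  (Real.sqrt (gram φ x).det)⁻¹ •
    ∑ i, fderiv ℝ (fun y => Real.sqrt (gram φ y).det • ∑ j, (gram φ y)⁻¹ i j • θ y j) x (cv i)

/-- The inner product of `dY` and `dφ` with respect to the metric induced by `φ`. -/
noncomputable def prd {m n : ℕ} (φ Y : X m → X n) (x : X m) : ℝ :=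
  ∑ k, ∑ l, (gram φ x)⁻¹ k l * inner ℝ (fderiv ℝ Y x (cv k)) (fderiv ℝ φ x (cv l))

/-- The p-tension field `div (|dφ|^(p-2) dφ)`. -/
noncomputable def tens {m n : ℕ} (p : ℝ) (φ : X m → X n) (x : X m) : X n :=
  dvg φ (fun y j => (prd φ φ y) ^ ((p - 2) / 2) • fderiv ℝ φ y (cv j)) x

/-- The p-bitension field
`div (|dφ|^(p-2) dτ + (p-2) |dφ|^(p-4) <dτ, dφ> dφ)`, `τ` the p-tension field (up to sign). -/
noncomputable def biten {m n : ℕ} (p : ℝ) (φ : X m → X n) (x : X m) : X n :=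
  dvg φ (fun y j => (prd φ φ y) ^ ((p - 2) / 2) • fderiv ℝ (tens p φ) y (cv j) +
    ((p - 2) * (prd φ φ y) ^ ((p - 4) / 2) * prd φ (tens p φ) y) • fderiv ℝ φ y (cv j)) x

/-- The theorem. -/
def MainStatement : Prop :=
  ∀ (m : ℕ) (p : ℝ), 2 ≤ p → ∀ (U : Set (X m)) (φ : X m → X (m + 1)), IsOpen U →
    ContDiffOn ℝ ∞ φ U → (∀ x ∈ U, Function.Injective (fderiv ℝ φ x)) →
    (∀ x ∈ U, biten p φ x = 0) → ∀ x ∈ U, tens p φ x = 0

/-! ## Immersed hypersurfaces -/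

/-- An immersed hypersurface with unit normal `N` and left inverse `P` of `Dφ`. -/
structure Imm (m : ℕ) (U : Set (X m)) (φ N : X m → X (m + 1))
    (P : X m → (X (m + 1) →L[ℝ] X m)) : Prop where
  op : IsOpen U
  sφ : ContDiffOn ℝ ∞ φ U
  sN : ContDiffOn ℝ ∞ N U
  sP : ContDiffOn ℝ ∞ P U
  unit : ∀ x ∈ U, ‖N x‖ = 1
  perp : ∀ x ∈ U, ∀ v, inner ℝ (N x) (fderiv ℝ φ x v) = 0
  left : ∀ x ∈ U, ∀ v, P x (fderiv ℝ φ x v) = v
  right : ∀ x ∈ U, ∀ w, fderiv ℝ φ x (P x w) = w - (inner ℝ (N x) w : ℝ) • N x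

/-- `ε` is an orthonormal frame at `x` for the induced metric. -/
def OF {m : ℕ} (φ : X m → X (m + 1)) (x : X m) (ε : Fin m → X m) : Prop :=
  ∀ i j, inner ℝ (fderiv ℝ φ x (ε i)) (fderiv ℝ φ x (ε j)) = if i = j then (1 : ℝ) else 0

/-- Second derivative. -/
noncomputable def D2 {m : ℕ} {F : Type} [NormedAddCommGroup F] [NormedSpace ℝ F] (u : X m → F)
    (x v w : X m) : F := fderiv ℝ (fderiv ℝ u) x v w

/-- The frame trace of the Hessian of `u` with respect to the induced metric. -/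
noncomputable def lap {m : ℕ} {F : Type} [NormedAddCommGroup F] [NormedSpace ℝ F]
    (φ : X m → X (m + 1)) (P : X m → (X (m + 1) →L[ℝ] X m)) (u : X m → F) (x : X m)
    (ε : Fin m → X m) : F :=
  ∑ a, (D2 u x (ε a) (ε a) - fderiv ℝ u x (P x (D2 φ x (ε a) (ε a))))

/-- A hypersurface with `f` = mean curvature, which satisfies the two equations. -/
structure Hyp (m : ℕ) (p : ℝ) (U : Set (X m)) (φ N : X m → X (m + 1))
    (P : X m → (X (m + 1) →L[ℝ] X m)) (f : X m → ℝ) : Prop where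
  imm : Imm m U φ N P
  sf : ContDiffOn ℝ ∞ f U
  mean : ∀ x ∈ U, ∀ ε, OF φ x ε →
    (m : ℝ) * f x = - ∑ i, inner ℝ (fderiv ℝ N x (ε i)) (fderiv ℝ φ x (ε i))
  tang : ∀ x ∈ U, ∀ G, (∀ v, inner ℝ (fderiv ℝ φ x G) (fderiv ℝ φ x v) = fderiv ℝ f x v) →
    fderiv ℝ N x G = ((p - 2 + m / 2) * f x) • fderiv ℝ φ x G
  norm : ∀ x ∈ U, ∀ ε, OF φ x ε →
    lap φ P f x ε = f x * ((∑ i, ‖fderiv ℝ N x (ε i)‖ ^ 2) + m * (p - 2) * (f x) ^ 2)

/-! ### Rows V: from the vector equation to `Hyp` -/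

/-- Row PINV: smooth left inverse (`g⁻¹ Dφᵀ`). -/
def PinvStatement : Prop :=
  ∀ (m n : ℕ) (U : Set (X m)) (φ : X m → X n), IsOpen U → ContDiffOn ℝ ∞ φ U →
    (∀ x ∈ U, Function.Injective (fderiv ℝ φ x)) →
    ∃ P : X m → (X n →L[ℝ] X m), ContDiffOn ℝ ∞ P U ∧ ∀ x ∈ U,
      (∀ v, P x (fderiv ℝ φ x v) = v) ∧
      ∀ w v, inner ℝ (w - fderiv ℝ φ x (P x w)) (fderiv ℝ φ x v) = (0 : ℝ)

/-- Row NOR (from PINV): local unit normal.  `N = M / ‖M‖`, `M y = N₀ - Dφ(P y N₀)`. -/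
def NorStatement : Prop :=
  ∀ (m : ℕ) (U : Set (X m)) (φ : X m → X (m + 1)), IsOpen U → ContDiffOn ℝ ∞ φ U →
    (∀ x ∈ U, Function.Injective (fderiv ℝ φ x)) → ∀ x₀ ∈ U,
    ∃ (U' : Set (X m)) (N : X m → X (m + 1)) (P : X m → (X (m + 1) →L[ℝ] X m)),
      U' ⊆ U ∧ x₀ ∈ U' ∧ Imm m U' φ N P

/-- Row BAS: first facts. -/
def BasStatement : Prop :=
  ∀ (m : ℕ) (U : Set (X m)) (φ N : X m → X (m + 1)) (P : X m → (X (m + 1) →L[ℝ] X m)),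
    Imm m U φ N P → ∀ x ∈ U,
      (∀ v, inner ℝ (N x) (fderiv ℝ N x v) = (0 : ℝ)) ∧
      (∀ v w, inner ℝ (fderiv ℝ N x v) (fderiv ℝ φ x w) = -(inner ℝ (N x) (D2 φ x v w) : ℝ)) ∧
      (∀ v w, D2 φ x v w = D2 φ x w v) ∧ (∀ v w, D2 N x v w = D2 N x w v) ∧
      (∀ v w, inner ℝ (fderiv ℝ N x v) (fderiv ℝ φ x w) =
        inner ℝ (fderiv ℝ N x w) (fderiv ℝ φ x v)) ∧
      (∀ w, inner ℝ (N x) w = (0 : ℝ) → fderiv ℝ φ x (P x w) = w) ∧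
      P x (N x) = 0 ∧
      (∀ v w, inner ℝ (N x) (D2 N x v w) =
        -(inner ℝ (fderiv ℝ N x v) (fderiv ℝ N x w) : ℝ))

/-- Row OFR: orthonormal frames. -/
def OfrStatement : Prop :=
  ∀ (m : ℕ) (U : Set (X m)) (φ N : X m → X (m + 1)) (P : X m → (X (m + 1) →L[ℝ] X m)),
    Imm m U φ N P → ∀ x ∈ U, (∃ ε, OF φ x ε) ∧ ∀ ε, OF φ x ε →
      (∀ v, v = ∑ a, (inner ℝ (fderiv ℝ φ x (ε a)) (fderiv ℝ φ x v) : ℝ) • ε a) ∧
      (∀ w, inner ℝ (N x) w = (0 : ℝ) →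
        w = ∑ a, (inner ℝ (fderiv ℝ φ x (ε a)) w : ℝ) • fderiv ℝ φ x (ε a))

/-- Row TRC (from OFR): the trace with the inverse Gram matrix is the frame trace, and the Gram
determinant is positive. -/
def TrcStatement : Prop :=
  ∀ (m : ℕ) (U : Set (X m)) (φ N : X m → X (m + 1)) (P : X m → (X (m + 1) →L[ℝ] X m)),
    Imm m U φ N P → ∀ x ∈ U, 0 < (gram φ x).det ∧ ∀ ε, OF φ x ε →
      ∀ (F : Type) [NormedAddCommGroup F] [NormedSpace ℝ F] (b : X m →L[ℝ] X m →L[ℝ] F),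
        ∑ k, ∑ l, (gram φ x)⁻¹ k l • b (cv k) (cv l) = ∑ a, b (ε a) (ε a)

/-- Row JAC (Jacobi formula): derivative of `√det g · g⁻¹` summed, in coordinates. -/
def JacStatement : Prop :=
  ∀ (m : ℕ) (U : Set (X m)) (φ N : X m → X (m + 1)) (P : X m → (X (m + 1) →L[ℝ] X m)),
    Imm m U φ N P → ∀ x ∈ U, ∀ j,
      ∑ i, fderiv ℝ (fun y => Real.sqrt (gram φ y).det * (gram φ y)⁻¹ i j) x (cv i) =
        - (Real.sqrt (gram φ x).det * ∑ k, ∑ l, ∑ r, (gram φ x)⁻¹ k l * (gram φ x)⁻¹ j r *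
          inner ℝ (D2 φ x (cv k) (cv l)) (fderiv ℝ φ x (cv r)))

/-- Row DVG (from TRC, JAC, BAS): the divergence with frames. -/
def DvgStatement : Prop :=
  ∀ (m : ℕ) (U : Set (X m)) (φ N : X m → X (m + 1)) (P : X m → (X (m + 1) →L[ℝ] X m)),
    Imm m U φ N P → ∀ (F : Type) [NormedAddCommGroup F] [NormedSpace ℝ F]
      (θ : X m → (X m →L[ℝ] F)), ∀ x ∈ U, DifferentiableAt ℝ θ x → ∀ ε, OF φ x ε →
      dvg φ (fun y j => θ y (cv j)) x =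
        ∑ a, (fderiv ℝ θ x (ε a) (ε a) - θ x (P x (D2 φ x (ε a) (ε a))))

/-- Row TEN (from BAS, OFR, TRC, DVG): the mean curvature function and the p-tension field. -/
def TenStatement : Prop :=
  ∀ (m : ℕ) (U : Set (X m)) (φ N : X m → X (m + 1)) (P : X m → (X (m + 1) →L[ℝ] X m)), 0 < m →
    Imm m U φ N P → ∃ f : X m → ℝ, ContDiffOn ℝ ∞ f U ∧
      (∀ x ∈ U, ∀ ε, OF φ x ε →
        (m : ℝ) * f x = - ∑ i, inner ℝ (fderiv ℝ N x (ε i)) (fderiv ℝ φ x (ε i))) ∧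
      (∀ x ∈ U, prd φ φ x = m) ∧
      ∀ (p : ℝ), ∀ x ∈ U, tens p φ x = ((m : ℝ) ^ ((p - 2) / 2) * (m * f x)) • N x

/-- Row EQV (from BAS, OFR, TRC, DVG): the vector equation for `Y = f N`. -/
def EqvStatement : Prop :=
  ∀ (m : ℕ) (p : ℝ) (U : Set (X m)) (φ N : X m → X (m + 1))
    (P : X m → (X (m + 1) →L[ℝ] X m)) (f : X m → ℝ), 0 < m → Imm m U φ N P →
    ContDiffOn ℝ ∞ f U →
    (∀ x ∈ U, ∀ ε, OF φ x ε →
      (m : ℝ) * f x = - ∑ i, inner ℝ (fderiv ℝ N x (ε i)) (fderiv ℝ φ x (ε i))) →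
    (∀ x ∈ U, prd φ φ x = m) →
    (∀ x ∈ U, tens p φ x = ((m : ℝ) ^ ((p - 2) / 2) * (m * f x)) • N x) →
    (∀ x ∈ U, biten p φ x = 0) → ∀ x ∈ U, ∀ ε, OF φ x ε →
      lap φ P (fun y => f y • N y) x ε =
        (p - 2) • (∑ a, (2 * f x * fderiv ℝ f x (ε a)) • fderiv ℝ φ x (ε a) +
          (m * (f x) ^ 3) • N x)

/-- Row COD (from BAS, OFR): the traced Codazzi equation. -/
def CodStatement : Prop :=
  ∀ (m : ℕ) (U : Set (X m)) (φ N : X m → X (m + 1)) (P : X m → (X (m + 1) →L[ℝ] X m))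
    (f : X m → ℝ), Imm m U φ N P → ContDiffOn ℝ ∞ f U →
    (∀ x ∈ U, ∀ ε, OF φ x ε →
      (m : ℝ) * f x = - ∑ i, inner ℝ (fderiv ℝ N x (ε i)) (fderiv ℝ φ x (ε i))) →
    ∀ x ∈ U, ∀ ε, OF φ x ε → ∀ u,
      inner ℝ (lap φ P N x ε) (fderiv ℝ φ x u) = -(m * fderiv ℝ f x u)

/-- Row HYP (from BAS, OFR, COD): split the vector equation. -/
def HypStatement : Prop :=
  ∀ (m : ℕ) (p : ℝ) (U : Set (X m)) (φ N : X m → X (m + 1))
    (P : X m → (X (m + 1) →L[ℝ] X m)) (f : X m → ℝ), 0 < m → Imm m U φ N P →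
    ContDiffOn ℝ ∞ f U →
    (∀ x ∈ U, ∀ ε, OF φ x ε →
      (m : ℝ) * f x = - ∑ i, inner ℝ (fderiv ℝ N x (ε i)) (fderiv ℝ φ x (ε i))) →
    (∀ x ∈ U, ∀ ε, OF φ x ε → lap φ P (fun y => f y • N y) x ε =
        (p - 2) • (∑ a, (2 * f x * fderiv ℝ f x (ε a)) • fderiv ℝ φ x (ε a) +
          (m * (f x) ^ 3) • N x)) →
    Hyp m p U φ N P f

/-! ### Rows G: from `Hyp` to the ODE along one curve -/

/-- Row NONV (from BAS, OFR): a nonempty open set where `f > 0` and `Df ≠ 0`. -/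
def NonvStatement : Prop :=
  ∀ (m : ℕ) (p : ℝ) (U : Set (X m)) (φ N : X m → X (m + 1))
    (P : X m → (X (m + 1) →L[ℝ] X m)) (f : X m → ℝ), 2 ≤ p → 0 < m → Hyp m p U φ N P f →
    (∃ x ∈ U, f x ≠ 0) → ∃ (U' : Set (X m)) (N' : X m → X (m + 1)) (f' : X m → ℝ),
      U'.Nonempty ∧ Hyp m p U' φ N' P f' ∧ ∀ x ∈ U', 0 < f' x ∧ fderiv ℝ f' x ≠ 0

/-- The unit field `e = grad f / |grad f|` and `lam = |grad f|`. -/
structure Frm (m : ℕ) (p : ℝ) (U : Set (X m)) (φ N : X m → X (m + 1)) (f : X m → ℝ)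
    (e : X m → X m) (lam : X m → ℝ) : Prop where
  se : ContDiffOn ℝ ∞ e U
  sl : ContDiffOn ℝ ∞ lam U
  lpos : ∀ x ∈ U, 0 < lam x
  one : ∀ x ∈ U, ‖fderiv ℝ φ x (e x)‖ = 1
  df : ∀ x ∈ U, ∀ v, fderiv ℝ f x v = lam x * inner ℝ (fderiv ℝ φ x (e x)) (fderiv ℝ φ x v)
  dN : ∀ x ∈ U, fderiv ℝ N x (e x) = ((p - 2 + m / 2) * f x) • fderiv ℝ φ x (e x)

/-- The unit tangent field `T = Dφ(e)`. -/
noncomputable def tf {m : ℕ} (φ : X m → X (m + 1)) (e : X m → X m) (x : X m) : X (m + 1) :=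
  fderiv ℝ φ x (e x)

/-- Row FRM (from BAS): `e = G / ‖Dφ G‖`, `G = ∑ Df(cv i) g^{ij} cv j = P (Dφ ..)`. -/
def FrmStatement : Prop :=
  ∀ (m : ℕ) (p : ℝ) (U : Set (X m)) (φ N : X m → X (m + 1))
    (P : X m → (X (m + 1) →L[ℝ] X m)) (f : X m → ℝ), Hyp m p U φ N P f →
    (∀ x ∈ U, fderiv ℝ f x ≠ 0) → ∃ (e : X m → X m) (lam : X m → ℝ), Frm m p U φ N f e lam

/-- Row TNK (from BAS): `DT(e) = κ N`. -/
def TnkStatement : Prop :=
  ∀ (m : ℕ) (p : ℝ) (U : Set (X m)) (φ N : X m → X (m + 1))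
    (P : X m → (X (m + 1) →L[ℝ] X m)) (f : X m → ℝ) (e : X m → X m) (lam : X m → ℝ),
    2 ≤ p → 0 < m → Hyp m p U φ N P f → Frm m p U φ N f e lam →
    ∀ x ∈ U, fderiv ℝ (tf φ e) x (e x) = (-((p - 2 + m / 2) * f x)) • N x

/-- Row CUR: an integral curve. -/
def CurStatement : Prop :=
  ∀ (m : ℕ) (U : Set (X m)) (e : X m → X m), IsOpen U → ContDiffOn ℝ ∞ e U → ∀ x₀ ∈ U,
    ∃ (δ : ℝ) (c : ℝ → X m), 0 < δ ∧ c 0 = x₀ ∧
      ∀ s ∈ Set.Ioo (-δ) δ, c s ∈ U ∧ HasDerivAt c (e (c s)) s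

/-- A curve as in row CUR together with an orthonormal family `w` orthogonal to `T` and `N` at
the start (`n = m - 1` vectors), and the identity of row TNK. -/
structure Crv (m : ℕ) (p : ℝ) (U : Set (X m)) (φ N : X m → X (m + 1))
    (P : X m → (X (m + 1) →L[ℝ] X m)) (f : X m → ℝ) (e : X m → X m) (lam : X m → ℝ)
    (n : ℕ) (δ : ℝ) (c : ℝ → X m) (w : Fin n → X (m + 1)) : Prop where
  hyp : Hyp m p U φ N P f
  frm : Frm m p U φ N f e lam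
  tnk : ∀ x ∈ U, fderiv ℝ (tf φ e) x (e x) = (-((p - 2 + m / 2) * f x)) • N x
  dim : n + 1 = m
  δpos : 0 < δ
  cur : ∀ s ∈ Set.Ioo (-δ) δ, c s ∈ U ∧ HasDerivAt c (e (c s)) s
  orth : Orthonormal ℝ w
  wN : ∀ i, inner ℝ (N (c 0)) (w i) = (0 : ℝ)
  wT : ∀ i, inner ℝ (tf φ e (c 0)) (w i) = (0 : ℝ)

/-- `κ` along the curve. -/
noncomputable def kc (m : ℕ) (p : ℝ) (f : X m → ℝ) (c : ℝ → X m) (s : ℝ) : ℝ :=
  -((p - 2 + m / 2) * f (c s))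

/-- The shape operator on the orthogonal complement of `T, N`. -/
noncomputable def mA {m n : ℕ} (N : X m → X (m + 1)) (P : X m → (X (m + 1) →L[ℝ] X m))
    (c : ℝ → X m) (w : Fin n → X (m + 1)) (s : ℝ) : Matrix (Fin n) (Fin n) ℝ :=
  Matrix.of fun i j => -(inner ℝ (fderiv ℝ N (c s) (P (c s) (w i))) (w j) : ℝ)

/-- The derivative of `T` on the orthogonal complement of `T, N`. -/
noncomputable def mS {m n : ℕ} (φ : X m → X (m + 1)) (P : X m → (X (m + 1) →L[ℝ] X m))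
    (e : X m → X m) (c : ℝ → X m) (w : Fin n → X (m + 1)) (s : ℝ) : Matrix (Fin n) (Fin n) ℝ :=
  Matrix.of fun i j => (inner ℝ (fderiv ℝ (tf φ e) (c s) (P (c s) (w i))) (w j) : ℝ)

/-- Row PRP (from BAS): `w` stays orthogonal to `N` and `T`; hence `Dφ (P w) = w`, and
`(e, P w 1, .., P w n)` is an orthonormal frame. -/
def PrpStatement : Prop :=
  ∀ (m : ℕ) (p : ℝ) (U : Set (X m)) (φ N : X m → X (m + 1))
    (P : X m → (X (m + 1) →L[ℝ] X m)) (f : X m → ℝ) (e : X m → X m) (lam : X m → ℝ)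
    (n : ℕ) (δ : ℝ) (c : ℝ → X m) (w : Fin n → X (m + 1)), Crv m p U φ N P f e lam n δ c w →
    ∀ s ∈ Set.Ioo (-δ) δ, (∀ i, inner ℝ (N (c s)) (w i) = (0 : ℝ)) ∧
      (∀ i, inner ℝ (tf φ e (c s)) (w i) = (0 : ℝ)) ∧
      (∀ i, fderiv ℝ φ (c s) (P (c s) (w i)) = w i) ∧
      (∀ v : X (m + 1), inner ℝ (N (c s)) v = (0 : ℝ) → inner ℝ (tf φ e (c s)) v = (0 : ℝ) →
        v = ∑ j, (inner ℝ v (w j) : ℝ) • w j) ∧
      (∀ v, inner ℝ (N (c s)) (fderiv ℝ (tf φ e) (c s) v) =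
        -(inner ℝ (tf φ e (c s)) (fderiv ℝ N (c s) v) : ℝ)) ∧
      (∀ v, inner ℝ (tf φ e (c s)) (fderiv ℝ (tf φ e) (c s) v) = (0 : ℝ)) ∧
      (∀ i, inner ℝ (tf φ e (c s)) (fderiv ℝ N (c s) (P (c s) (w i))) = (0 : ℝ)) ∧
      ∃ ε : Fin m → X m, OF φ (c s) ε ∧
        ∀ g : X m → ℝ, ∑ a, g (ε a) = g (e (c s)) + ∑ i, g (P (c s) (w i))

/-- Row WEX: completion to an orthonormal basis. -/
def WexStatement : Prop :=
  ∀ (m n : ℕ), n + 1 = m → ∀ (N T : X (m + 1)), ‖N‖ = 1 → ‖T‖ = 1 → inner ℝ N T = (0 : ℝ) →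
    ∃ w : Fin n → X (m + 1), Orthonormal ℝ w ∧ (∀ i, inner ℝ N (w i) = (0 : ℝ)) ∧
      ∀ i, inner ℝ T (w i) = (0 : ℝ)

/-- Row SYA (from BAS, PRP): symmetry of the two matrices. -/
def SyaStatement : Prop :=
  ∀ (m : ℕ) (p : ℝ) (U : Set (X m)) (φ N : X m → X (m + 1))
    (P : X m → (X (m + 1) →L[ℝ] X m)) (f : X m → ℝ) (e : X m → X m) (lam : X m → ℝ)
    (n : ℕ) (δ : ℝ) (c : ℝ → X m) (w : Fin n → X (m + 1)), Crv m p U φ N P f e lam n δ c w →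
    ∀ s ∈ Set.Ioo (-δ) δ, ∀ i j, mA N P c w s i j = mA N P c w s j i ∧
      mS φ P e c w s i j = mS φ P e c w s j i

/-- Row VDT (from BAS, PRP): the derivative of `v = P w i` along the curve, and
`Dφ(DT..)`: `DT(P w i) = ∑ S i j w j`, `DN(P w i) = - ∑ A i j w j`. -/
def VdtStatement : Prop :=
  ∀ (m : ℕ) (p : ℝ) (U : Set (X m)) (φ N : X m → X (m + 1))
    (P : X m → (X (m + 1) →L[ℝ] X m)) (f : X m → ℝ) (e : X m → X m) (lam : X m → ℝ)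
    (n : ℕ) (δ : ℝ) (c : ℝ → X m) (w : Fin n → X (m + 1)), Crv m p U φ N P f e lam n δ c w →
    ∀ s ∈ Set.Ioo (-δ) δ, ∀ i,
      fderiv ℝ N (c s) (P (c s) (w i)) = -∑ j, mA N P c w s i j • w j ∧
      fderiv ℝ (tf φ e) (c s) (P (c s) (w i)) = ∑ j, mS φ P e c w s i j • w j ∧
      HasDerivAt (fun s => P (c s) (w i)) (fderiv ℝ e (c s) (P (c s) (w i)) -
        ∑ j, mS φ P e c w s i j • P (c s) (w j)) s

/-- Row DA (from BAS, PRP, VDT): `A' = κ S - S A`. -/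
def DaStatement : Prop :=
  ∀ (m : ℕ) (p : ℝ) (U : Set (X m)) (φ N : X m → X (m + 1))
    (P : X m → (X (m + 1) →L[ℝ] X m)) (f : X m → ℝ) (e : X m → X m) (lam : X m → ℝ)
    (n : ℕ) (δ : ℝ) (c : ℝ → X m) (w : Fin n → X (m + 1)), Crv m p U φ N P f e lam n δ c w →
    ∀ s ∈ Set.Ioo (-δ) δ, ∀ i j, HasDerivAt (fun s => mA N P c w s i j)
      (kc m p f c s * mS φ P e c w s i j - (mS φ P e c w s * mA N P c w s) i j) s

/-- Row DS (from BAS, PRP, VDT): `S' = -κ A - S S`. -/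
def DsStatement : Prop :=
  ∀ (m : ℕ) (p : ℝ) (U : Set (X m)) (φ N : X m → X (m + 1))
    (P : X m → (X (m + 1) →L[ℝ] X m)) (f : X m → ℝ) (e : X m → X m) (lam : X m → ℝ)
    (n : ℕ) (δ : ℝ) (c : ℝ → X m) (w : Fin n → X (m + 1)), Crv m p U φ N P f e lam n δ c w →
    ∀ s ∈ Set.Ioo (-δ) δ, ∀ i j, HasDerivAt (fun s => mS φ P e c w s i j)
      (-(kc m p f c s * mA N P c w s i j) - (mS φ P e c w s * mS φ P e c w s) i j) s

/-- Row TRA (from BAS, PRP, SYA, VDT): traces. -/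
def TraStatement : Prop :=
  ∀ (m : ℕ) (p : ℝ) (U : Set (X m)) (φ N : X m → X (m + 1))
    (P : X m → (X (m + 1) →L[ℝ] X m)) (f : X m → ℝ) (e : X m → X m) (lam : X m → ℝ)
    (n : ℕ) (δ : ℝ) (c : ℝ → X m) (w : Fin n → X (m + 1)), Crv m p U φ N P f e lam n δ c w →
    ∀ s ∈ Set.Ioo (-δ) δ, (mA N P c w s).trace + kc m p f c s = m * f (c s) ∧
      ∀ ε : Fin m → X m, OF φ (c s) ε →
        (∀ g : X m → ℝ, ∑ a, g (ε a) = g (e (c s)) + ∑ i, g (P (c s) (w i))) →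
        (∑ a, ‖fderiv ℝ N (c s) (ε a)‖ ^ 2) =
          (kc m p f c s) ^ 2 + (mA N P c w s * mA N P c w s).trace

/-- Row NRM (from BAS, OFR, PRP, TRA): the derivatives of `f` and `lam` along the curve. -/
def NrmStatement : Prop :=
  ∀ (m : ℕ) (p : ℝ) (U : Set (X m)) (φ N : X m → X (m + 1))
    (P : X m → (X (m + 1) →L[ℝ] X m)) (f : X m → ℝ) (e : X m → X m) (lam : X m → ℝ)
    (n : ℕ) (δ : ℝ) (c : ℝ → X m) (w : Fin n → X (m + 1)), Crv m p U φ N P f e lam n δ c w →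
    ∀ s ∈ Set.Ioo (-δ) δ, HasDerivAt (fun s => f (c s)) (lam (c s)) s ∧
      HasDerivAt (fun s => lam (c s))
        (f (c s) * ((kc m p f c s) ^ 2 + (mA N P c w s * mA N P c w s).trace +
          m * (p - 2) * (f (c s)) ^ 2) - (mS φ P e c w s).trace * lam (c s)) s

/-- Row DIAG: simultaneous diagonalisation of the matrix system. -/
def DiagStatement : Prop :=
  ∀ (n : ℕ) (μ δ : ℝ) (A S : ℝ → Matrix (Fin n) (Fin n) ℝ), 0 < δ →
    (∀ s ∈ Set.Ioo (-δ) δ, ∀ i j, A s i j = A s j i ∧ S s i j = S s j i) →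
    (∀ s ∈ Set.Ioo (-δ) δ, ∀ i j, HasDerivAt (fun s => A s i j)
      (-(μ * (A s).trace) * S s i j - (S s * A s) i j) s) →
    (∀ s ∈ Set.Ioo (-δ) δ, ∀ i j, HasDerivAt (fun s => S s i j)
      (-(-(μ * (A s).trace) * A s i j) - (S s * S s) i j) s) →
    ∃ ε : ℝ, 0 < ε ∧ ε ≤ δ ∧ ∃ k b : Fin n → ℝ → ℝ,
      (∀ s ∈ Set.Ioo (-ε) ε, ∀ i,
        HasDerivAt (k i) ((kap μ (fun j => k j s) - k i s) * b i s) s) ∧
      (∀ s ∈ Set.Ioo (-ε) ε, ∀ i,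
        HasDerivAt (b i) (-(b i s) ^ 2 - kap μ (fun j => k j s) * k i s) s) ∧
      ∀ s ∈ Set.Ioo (-ε) ε, (A s).trace = ∑ i, k i s ∧ (S s).trace = ∑ i, b i s ∧
        (A s * A s).trace = ∑ i, k i s ^ 2

/-- Row LOC (from SYA, DA, DS, TRA, NRM, DIAG). -/
def LocStatement : Prop :=
  ∀ (m : ℕ) (p : ℝ) (U : Set (X m)) (φ N : X m → X (m + 1))
    (P : X m → (X (m + 1) →L[ℝ] X m)) (f : X m → ℝ) (e : X m → X m) (lam : X m → ℝ)
    (n : ℕ) (δ : ℝ) (c : ℝ → X m) (w : Fin n → X (m + 1)), 2 ≤ p →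
    Crv m p U φ N P f e lam n δ c w → (∀ x ∈ U, 0 < f x) →
    ∃ (μ ν ε : ℝ) (k b : Fin n → ℝ → ℝ), 0 < μ ∧ 0 ≤ ν ∧ Loc n μ ν ε k b

end MP8d4425
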