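import Mathlib
import Pool.Agent.Lib.MP_8d4425_gt.PB.Iface

set_option autoImplicit false

/-!
# Row CUR: an integral curve
-/

namespace MP8d4425

open scoped ContDiff

theorem cur_proof : CurStatement := by
  intro m U e hU he x₀ hx₀
  have hc : ContDiffAt ℝ 1 e x₀ :=
    (he.contDiffAt (hU.mem_nhds hx₀)).of_le (by exact_mod_cast le_top)
  obtain ⟨c, hc0, ε, hε, hd⟩ :=
    hc.exists_forall_mem_closedBall_exists_eq_forall_mem_Ioo_hasDerivAt₀ 0
  have hcont : ContinuousAt c 0 := (hd 0 (by simp [hε])).continuousAt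
  have hnhds : ∀ᶠ s in nhds (0 : ℝ), c s ∈ U := by
    apply hcont.eventually_mem
    rw [hc0]
    exact hU.mem_nhds hx₀
  obtain ⟨δ', hδ', hball⟩ := Metric.eventually_nhds_iff_ball.1 hnhds
  refine ⟨min ε δ', c, lt_min hε hδ', hc0, fun s hs => ⟨?_, ?_⟩⟩
  · apply hball
    rw [Metric.mem_ball, Real.dist_eq, sub_zero, abs_lt]
    exact ⟨lt_of_le_of_lt (neg_le_neg (min_le_right _ _)) hs.1,
      lt_of_lt_of_le hs.2 (min_le_right _ _)⟩
  · apply hd
    constructor
    · have := lt_of_le_of_lt (neg_le_neg (min_le_left ε δ')) hs.1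
      linarith
    · have := lt_of_lt_of_le hs.2 (min_le_left ε δ')
      linarith

end MP8d4425
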