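import Mathlib
import Pool.Agent.Lib.MP_8d4425_gt.PB.Iface

set_option autoImplicit false

/-!
# Row FRM: the unit field in the direction of the gradient of the mean curvature
-/

namespace MP8d4425

open scoped ContDiff

/-- The vector which represents a functional. -/
noncomputable def frmVec {k : ℕ} (a : X k →L[ℝ] ℝ) : X k := ∑ j, a (cv j) • cv j

theorem frmVec_inner {k : ℕ} (a : X k →L[ℝ] ℝ) (w : X k) : inner ℝ (frmVec a) w = a w := by
  have hw : w = ∑ j, w j • cv j := by
    have h := (EuclideanSpace.basisFun (Fin k) ℝ).sum_repr w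
    simp only [EuclideanSpace.basisFun_apply, EuclideanSpace.basisFun_repr] at h
    exact h.symm
  have h1 : inner ℝ (frmVec a) w = ∑ j, a (cv j) * w j := by
    rw [frmVec, sum_inner]
    refine Finset.sum_congr rfl fun j _ => ?_
    rw [inner_smul_left, cv, EuclideanSpace.inner_single_left]
    simp
  have h2 : a w = ∑ j, a (cv j) * w j := by
    conv_lhs => rw [hw]
    rw [map_sum]
    refine Finset.sum_congr rfl fun j _ => ?_
    rw [map_smul, smul_eq_mul, mul_comm]
  rw [h1, h2]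

theorem frm_proof (h : BasStatement) : FrmStatement := by
  intro m p U φ N P f hH hne
  have hI := hH.imm
  have hU := hI.op
  set r : X m → X (m + 1) := fun x => frmVec ((fderiv ℝ f x).comp (P x)) with hr
  have hrw : ∀ x w, inner ℝ (r x) w = fderiv ℝ f x (P x w) := fun x w => by
    rw [hr]
    exact frmVec_inner _ w
  have sdf : ContDiffOn ℝ ∞ (fderiv ℝ f) U := by
    refine hH.sf.fderiv_of_isOpen hU ?_
    simp
  have sr : ContDiffOn ℝ ∞ r U := by
    rw [hr]
    unfold frmVec
    refine ContDiffOn.sum fun j _ => ?_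
    have hj : ContDiffOn ℝ ∞ (fun x => fderiv ℝ f x (P x (cv j))) U :=
      sdf.clm_apply (hI.sP.clm_apply contDiffOn_const)
    exact hj.smul (contDiffOn_const (c := (cv j : X (m + 1))))
  have hDG : ∀ x ∈ U, fderiv ℝ φ x (P x (r x)) = r x := by
    intro x hx
    obtain ⟨-, -, -, -, -, hb, hPN, -⟩ := h m U φ N P hI x hx
    refine hb _ ?_
    rw [real_inner_comm, hrw, hPN, map_zero]
  have hDf : ∀ x ∈ U, ∀ v, inner ℝ (r x) (fderiv ℝ φ x v) = fderiv ℝ f x v := by
    intro x hx v
    rw [hrw, hI.left x hx v]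
  have hr0 : ∀ x ∈ U, r x ≠ 0 := by
    intro x hx h0
    refine hne x hx ?_
    ext v
    rw [← hDf x hx v, h0, inner_zero_left]
    rfl
  have hpos : ∀ x ∈ U, 0 < ‖r x‖ := fun x hx => norm_pos_iff.mpr (hr0 x hx)
  have sl : ContDiffOn ℝ ∞ (fun x => ‖r x‖) U := sr.norm ℝ hr0
  have hDe : ∀ x ∈ U, fderiv ℝ φ x (‖r x‖⁻¹ • P x (r x)) = ‖r x‖⁻¹ • r x := by
    intro x hx
    rw [map_smul, hDG x hx]
  refine ⟨fun x => ‖r x‖⁻¹ • P x (r x), fun x => ‖r x‖, ?_, sl, hpos, ?_, ?_, ?_⟩
  · exact (sl.inv fun x hx => (hpos x hx).ne').smul (hI.sP.clm_apply sr)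
  · intro x hx
    rw [hDe x hx, norm_smul, norm_inv, norm_norm, inv_mul_cancel₀ (hpos x hx).ne']
  · intro x hx v
    rw [hDe x hx, inner_smul_left, hDf x hx v]
    simp only [conj_trivial]
    rw [← mul_assoc, mul_inv_cancel₀ (hpos x hx).ne', one_mul]
  · intro x hx
    have ht := hH.tang x hx (P x (r x)) (fun v => by rw [hDG x hx]; exact hDf x hx v)
    rw [hDe x hx, map_smul, ht, hDG x hx, smul_comm]

end MP8d4425
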