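import Mathlib
import Pool.Agent.Lib.MP_8d4425_gt.PB.Iface

set_option autoImplicit false

/-!
# Row JAC: the Jacobi formula for the metric induced by an immersion
-/

namespace MP8d4425
open scoped ContDiff
namespace Jac

open Matrix Finset
open scoped ContDiff

section mat

variable {E : Type*} [NormedAddCommGroup E] [NormedSpace ℝ E]
variable {ι : Type*} [Fintype ι] [DecidableEq ι]

theorem det_updateCol_expand (G : Matrix ι ι ℝ) (b : ι → ℝ) (c : ι) :
    ∑ σ : Equiv.Perm ι, ((Equiv.Perm.sign σ : ℤ) : ℝ) * ((∏ j ∈ univ.erase c, G (σ j) j) * b (σ c)) =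
      ∑ i, adjugate G c i * b i := by
  have h1 : (G.updateCol c b).det = ∑ i, adjugate G c i * b i := by
    rw [← cramer_apply, cramer_eq_adjugate_mulVec]
    rfl
  rw [← h1, det_apply']
  refine Finset.sum_congr rfl fun σ _ => ?_
  congr 1
  rw [← Finset.mul_prod_erase univ _ (mem_univ c), mul_comm]
  congr 1
  · simp
  · refine Finset.prod_congr rfl fun j hj => ?_
    rw [updateCol_ne (Finset.ne_of_mem_erase hj)]

theorem hasFDerivAt_det {G : E → Matrix ι ι ℝ} {dG : ι → ι → E →L[ℝ] ℝ} {x : E}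
    (h : ∀ i j, HasFDerivAt (fun y => G y i j) (dG i j) x) :
    HasFDerivAt (fun y => (G y).det) (∑ c, ∑ i, (adjugate (G x)) c i • dG i c) x := by
  have h1 : HasFDerivAt (fun y => ∑ σ : Equiv.Perm ι, ((Equiv.Perm.sign σ : ℤ) : ℝ) *
      ∏ i, G y (σ i) i)
      (∑ σ : Equiv.Perm ι, ((Equiv.Perm.sign σ : ℤ) : ℝ) •
        ∑ i, (∏ j ∈ univ.erase i, G x (σ j) j) • dG (σ i) i) x := by
    refine HasFDerivAt.fun_sum fun σ _ => ?_
    refine HasFDerivAt.const_mul ?_ _
    exact HasFDerivAt.finsetProd fun i _ => h (σ i) i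
  have h2 : (fun y => (G y).det) = fun y => ∑ σ : Equiv.Perm ι, ((Equiv.Perm.sign σ : ℤ) : ℝ) *
      ∏ i, G y (σ i) i := by
    funext y
    rw [det_apply']
  rw [h2]
  refine h1.congr_fderiv ?_
  ext v
  simp only [_root_.sum_apply, _root_.smul_apply, smul_eq_mul]
  simp only [Finset.mul_sum]
  rw [Finset.sum_comm]
  refine Finset.sum_congr rfl fun c _ => ?_
  exact det_updateCol_expand (G x) (fun i => dG i c v) c

theorem hasFDerivAt_inv {G : E → Matrix ι ι ℝ} {dG : ι → ι → E →L[ℝ] ℝ} {x : E}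
    (h : ∀ i j, HasFDerivAt (fun y => G y i j) (dG i j) x) (hd : (G x).det ≠ 0) (i j : ι) :
    HasFDerivAt (fun y => (G y)⁻¹ i j)
      (-∑ a, ∑ k, ((G x)⁻¹ i a * (G x)⁻¹ k j) • dG a k) x := by
  have hdet := hasFDerivAt_det h
  -- differentiability of the entries of the inverse
  have hdiff : ∀ i j, DifferentiableAt ℝ (fun y => (G y)⁻¹ i j) x := by
    intro i j
    have h3 : DifferentiableAt ℝ (fun y => adjugate (G y) i j) x := by
      have h4 : (fun y => adjugate (G y) i j) =
          fun y => ((G y).updateRow j (Pi.single i 1)).det := by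
        funext y
        rw [adjugate_apply]
      rw [h4]
      have h5 : ∀ a b, HasFDerivAt (fun y => ((G y).updateRow j (Pi.single i 1)) a b)
          (if a = j then 0 else dG a b) x := by
        intro a b
        by_cases hab : a = j
        · subst hab
          simp only [updateRow_self, if_true]
          exact hasFDerivAt_const _ _
        · simp only [updateRow_ne hab, if_neg hab]
          exact h a b
      exact (hasFDerivAt_det h5).differentiableAt
    have h6 : (fun y => (G y)⁻¹ i j) = fun y => ((G y).det)⁻¹ * adjugate (G y) i j := by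
      funext y
      rw [Matrix.inv_def, Ring.inverse_eq_inv', Matrix.smul_apply, smul_eq_mul]
    rw [h6]
    exact (hdet.differentiableAt.inv hd).mul h3
  have hW : ∀ i j, HasFDerivAt (fun y => (G y)⁻¹ i j) (fderiv ℝ (fun y => (G y)⁻¹ i j) x) x :=
    fun i j => (hdiff i j).hasFDerivAt
  have hev : ∀ᶠ y in nhds x, (G y).det ≠ 0 := hdet.continuousAt.eventually_ne hd
  have hone : ∀ a, (∑ k, (G x a k • fderiv ℝ (fun y => (G y)⁻¹ k j) x +
      (G x)⁻¹ k j • dG a k)) = 0 := by
    intro a
    have e1 : HasFDerivAt (fun y => ∑ k, G y a k * (G y)⁻¹ k j)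
        (∑ k, (G x a k • fderiv ℝ (fun y => (G y)⁻¹ k j) x + (G x)⁻¹ k j • dG a k)) x := by
      refine HasFDerivAt.fun_sum fun k _ => ?_
      exact (h a k).mul (hW k j)
    have e2 : (fun y => ∑ k, G y a k * (G y)⁻¹ k j) =ᶠ[nhds x]
        fun _ => (1 : Matrix ι ι ℝ) a j := by
      filter_upwards [hev] with y hy
      have := congrFun (congrFun (mul_nonsing_inv (G y) (isUnit_iff_ne_zero.mpr hy)) a) j
      rw [mul_apply] at this
      exact this
    have e3 := (hasFDerivAt_const (𝕜 := ℝ) ((1 : Matrix ι ι ℝ) a j) x).congr_of_eventuallyEq e2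
    exact e1.unique e3
  have hfin : fderiv ℝ (fun y => (G y)⁻¹ i j) x =
      -∑ a, ∑ k, ((G x)⁻¹ i a * (G x)⁻¹ k j) • dG a k := by
    ext v
    have e4 : ∑ a, (G x)⁻¹ i a * (∑ k, (G x a k * fderiv ℝ (fun y => (G y)⁻¹ k j) x v +
        (G x)⁻¹ k j * dG a k v)) = 0 := by
      refine Finset.sum_eq_zero fun a _ => ?_
      have := congrArg (fun L : E →L[ℝ] ℝ => L v) (hone a)
      simp only [_root_.sum_apply, _root_.add_apply,
        _root_.smul_apply, smul_eq_mul, _root_.zero_apply] at this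
      rw [this, mul_zero]
    have e5 : ∑ a, (G x)⁻¹ i a * (∑ k, G x a k * fderiv ℝ (fun y => (G y)⁻¹ k j) x v) =
        fderiv ℝ (fun y => (G y)⁻¹ i j) x v := by
      have e6 : ∀ k, ∑ a, (G x)⁻¹ i a * G x a k = (1 : Matrix ι ι ℝ) i k := by
        intro k
        have := congrFun (congrFun (nonsing_inv_mul (G x) (isUnit_iff_ne_zero.mpr hd)) i) k
        rw [mul_apply] at this
        exact this
      simp only [Finset.mul_sum]
      rw [Finset.sum_comm]
      have e7 : ∀ k, ∑ a, (G x)⁻¹ i a * (G x a k * fderiv ℝ (fun y => (G y)⁻¹ k j) x v) =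
          (1 : Matrix ι ι ℝ) i k * fderiv ℝ (fun y => (G y)⁻¹ k j) x v := by
        intro k
        rw [← e6 k, Finset.sum_mul]
        exact Finset.sum_congr rfl fun a _ => by ring
      rw [Finset.sum_congr rfl fun k _ => e7 k]
      rw [Finset.sum_eq_single i]
      · rw [one_apply_eq, one_mul]
      · intro b _ hb
        rw [one_apply_ne (Ne.symm hb), zero_mul]
      · intro hi
        exact absurd (mem_univ i) hi
    simp only [_root_.neg_apply, _root_.sum_apply,
      _root_.smul_apply, smul_eq_mul]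
    rw [← e5]
    have e8 : ∑ a, (G x)⁻¹ i a * (∑ k, (G x a k * fderiv ℝ (fun y => (G y)⁻¹ k j) x v +
        (G x)⁻¹ k j * dG a k v)) =
        ∑ a, (G x)⁻¹ i a * (∑ k, G x a k * fderiv ℝ (fun y => (G y)⁻¹ k j) x v) +
        ∑ a, ∑ k, (G x)⁻¹ i a * (G x)⁻¹ k j * dG a k v := by
      rw [← Finset.sum_add_distrib]
      refine Finset.sum_congr rfl fun a _ => ?_
      rw [Finset.sum_add_distrib, mul_add, Finset.mul_sum (f := fun k => (G x)⁻¹ k j * dG a k v)]
      congr 1
      exact Finset.sum_congr rfl fun k _ => by ring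
    rw [e8] at e4
    linarith
  rw [← hfin]
  exact hW i j

end mat

theorem gram_eq {m n : ℕ} (φ : X m → X n) (x : X m) :
    gram φ x = Matrix.gram ℝ (fun i => fderiv ℝ φ x (cv i)) := by
  ext i j
  rfl

theorem cv_li (m : ℕ) : LinearIndependent ℝ (fun i : Fin m => (cv i : X m)) := by
  have h := (EuclideanSpace.basisFun (Fin m) ℝ).toBasis.linearIndependent
  have h2 : (fun i : Fin m => (cv i : X m)) = (EuclideanSpace.basisFun (Fin m) ℝ).toBasis := by
    funext i
    simp [cv]
  rw [h2]
  exact h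

theorem det_pos_of_inj {m n : ℕ} (φ : X m → X n) (x : X m)
    (h : Function.Injective (fderiv ℝ φ x)) : 0 < (gram φ x).det := by
  rw [gram_eq]
  refine (Matrix.posDef_gram_of_linearIndependent ?_).det_pos
  have h1 := (cv_li m).map' (fderiv ℝ φ x).toLinearMap (LinearMap.ker_eq_bot.mpr h)
  exact h1

theorem gram_symm {m n : ℕ} (φ : X m → X n) (x : X m) (i j : Fin m) :
    gram φ x i j = gram φ x j i := by
  simp only [gram, Matrix.of_apply]
  exact real_inner_comm _ _

theorem ginv_symm {m n : ℕ} (φ : X m → X n) (x : X m) (i j : Fin m) :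
    (gram φ x)⁻¹ i j = (gram φ x)⁻¹ j i := by
  have h : (gram φ x)ᵀ = gram φ x := by
    ext a b
    exact gram_symm φ x b a
  have h2 : ((gram φ x)⁻¹)ᵀ = (gram φ x)⁻¹ := by
    rw [Matrix.transpose_nonsing_inv, h]
  exact congrFun (congrFun h2 j) i

section core

variable {m n : ℕ} {φ : X m → X n} {x : X m}

/-- the derivative of the entries of the Gram matrix -/
noncomputable def dg (φ : X m → X n) (x : X m) (i j : Fin m) : X m →L[ℝ] ℝ :=
  fderiv ℝ (fun y => gram φ y i j) x

theorem dg_has (h : DifferentiableAt ℝ (fderiv ℝ φ) x) (i j : Fin m) :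
    HasFDerivAt (fun y => gram φ y i j) (dg φ x i j) x ∧ ∀ v, dg φ x i j v =
      inner ℝ (D2 φ x v (cv i)) (fderiv ℝ φ x (cv j)) +
      inner ℝ (D2 φ x v (cv j)) (fderiv ℝ φ x (cv i)) := by
  have h1 : ∀ i, HasFDerivAt (fun y => fderiv ℝ φ y (cv i))
      ((ContinuousLinearMap.apply ℝ (X n) (cv i : X m)).comp (fderiv ℝ (fderiv ℝ φ) x)) x := by
    intro i
    exact (ContinuousLinearMap.apply ℝ (X n) (cv i : X m)).hasFDerivAt.comp x h.hasFDerivAt
  have h2 := (h1 i).inner ℝ (h1 j)
  have h3 : HasFDerivAt (fun y => gram φ y i j) (dg φ x i j) x := h2.differentiableAt.hasFDerivAt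
  refine ⟨h3, fun v => ?_⟩
  have h4 := congrArg (fun L : X m →L[ℝ] ℝ => L v) (h3.unique h2)
  simp only at h4
  rw [h4]
  simp only [ContinuousLinearMap.comp_apply, ContinuousLinearMap.prod_apply,
    fderivInnerCLM_apply, ContinuousLinearMap.apply_apply, D2]
  rw [add_comm]
  congr 1
  exact real_inner_comm _ _

theorem core (h : DifferentiableAt ℝ (fderiv ℝ φ) x) (hs : ∀ v w, D2 φ x v w = D2 φ x w v)
    (hd : 0 < (gram φ x).det) (j : Fin m) :
      ∑ i, fderiv ℝ (fun y => Real.sqrt (gram φ y).det * (gram φ y)⁻¹ i j) x (cv i) =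
        - (Real.sqrt (gram φ x).det * ∑ k, ∑ l, ∑ r, (gram φ x)⁻¹ k l * (gram φ x)⁻¹ j r *
          inner ℝ (D2 φ x (cv k) (cv l)) (fderiv ℝ φ x (cv r))) := by
  have hG := fun i j => (dg_has h i j).1
  have hGv := fun i j => (dg_has h i j).2
  have hdet := hasFDerivAt_det hG
  have hsq := hdet.sqrt hd.ne'
  have hinv := fun i j => hasFDerivAt_inv hG hd.ne' i j
  set W := (gram φ x)⁻¹ with hW
  set S := Real.sqrt (gram φ x).det with hS
  have hSpos : 0 < S := Real.sqrt_pos.mpr hd
  have hSS : S * S = (gram φ x).det := Real.mul_self_sqrt hd.le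
  set b : Fin m → Fin m → Fin m → ℝ := fun k l r =>
    inner ℝ (D2 φ x (cv k) (cv l)) (fderiv ℝ φ x (cv r)) with hb
  have hbs : ∀ k l r, b k l r = b l k r := by
    intro k l r
    simp only [hb]
    rw [hs]
  have hWs : ∀ k l, W k l = W l k := fun k l => ginv_symm φ x k l
  have hadj : ∀ i k, adjugate (gram φ x) i k = S * S * W i k := by
    intro i k
    rw [hSS, hW, Matrix.inv_def, Ring.inverse_eq_inv', Matrix.smul_apply, smul_eq_mul, ← mul_assoc,
      mul_inv_cancel₀ hd.ne', one_mul]
  have hterm : ∀ i, fderiv ℝ (fun y => Real.sqrt (gram φ y).det * (gram φ y)⁻¹ i j) x (cv i) =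
      S * (∑ k, ∑ l, W i j * W k l * b i k l) -
      S * (∑ k, ∑ l, W i k * W l j * (b i k l + b i l k)) := by
    intro i
    have h1 := (hsq.mul (hinv i j)).fderiv
    have h2 : fderiv ℝ (fun y => Real.sqrt (gram φ y).det * (gram φ y)⁻¹ i j) x = _ := h1
    rw [h2]
    simp only [_root_.add_apply, _root_.smul_apply,
      _root_.neg_apply, _root_.sum_apply, smul_eq_mul, hGv]
    have h3 : ∀ k l, inner ℝ (D2 φ x (cv i) (cv k)) (fderiv ℝ φ x (cv l)) = b i k l :=
      fun k l => rfl
    simp only [h3, hadj]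
    have h4 : ∑ c, ∑ k, S * S * W c k * (b i k c + b i c k) =
        2 * (S * S) * ∑ k, ∑ l, W k l * b i k l := by
      have h5 : ∑ c, ∑ k, S * S * W c k * (b i k c + b i c k) =
          ∑ c, ∑ k, S * S * W c k * b i k c + ∑ c, ∑ k, S * S * W c k * b i c k := by
        rw [← Finset.sum_add_distrib]
        refine Finset.sum_congr rfl fun c _ => ?_
        rw [← Finset.sum_add_distrib]
        exact Finset.sum_congr rfl fun k _ => by ring
      have h6 : ∑ c, ∑ k, S * S * W c k * b i k c = ∑ c, ∑ k, S * S * W c k * b i c k := by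
        rw [Finset.sum_comm]
        refine Finset.sum_congr rfl fun c _ => Finset.sum_congr rfl fun k _ => ?_
        rw [hWs k c]
      rw [h5, h6, Finset.mul_sum, ← Finset.sum_add_distrib]
      refine Finset.sum_congr rfl fun c _ => ?_
      rw [Finset.mul_sum, ← Finset.sum_add_distrib]
      exact Finset.sum_congr rfl fun k _ => by ring
    rw [h4]
    have h7 : ∑ k, ∑ l, W i j * W k l * b i k l = W i j * ∑ k, ∑ l, W k l * b i k l := by
      rw [Finset.mul_sum]
      refine Finset.sum_congr rfl fun k _ => ?_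
      rw [Finset.mul_sum]
      exact Finset.sum_congr rfl fun l _ => by ring
    rw [h7]
    field_simp
    ring
  rw [Finset.sum_congr rfl fun i _ => hterm i, Finset.sum_sub_distrib, ← Finset.mul_sum,
    ← Finset.mul_sum, ← mul_sub, ← mul_neg]
  congr 1
  have h8 : ∑ i, ∑ k, ∑ l, W i k * W l j * (b i k l + b i l k) =
      ∑ i, ∑ k, ∑ l, W i k * W l j * b i k l + ∑ i, ∑ k, ∑ l, W i k * W l j * b i l k := by
    rw [← Finset.sum_add_distrib]
    refine Finset.sum_congr rfl fun i _ => ?_
    rw [← Finset.sum_add_distrib]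
    refine Finset.sum_congr rfl fun k _ => ?_
    rw [← Finset.sum_add_distrib]
    exact Finset.sum_congr rfl fun l _ => by ring
  have h9 : ∑ i, ∑ k, ∑ l, W i j * W k l * b i k l =
      ∑ i, ∑ k, ∑ l, W i k * W l j * b i l k := by
    -- rename i -> l, l -> k, k -> i
    have h10 : ∑ i, ∑ k, ∑ l, W i k * W l j * b i l k =
        ∑ i, ∑ l, ∑ k, W i k * W l j * b l i k := by
      refine Finset.sum_congr rfl fun i _ => ?_
      rw [Finset.sum_comm]
      refine Finset.sum_congr rfl fun l _ => Finset.sum_congr rfl fun k _ => ?_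
      rw [hbs i l k]
    rw [h10, Finset.sum_comm]
    refine Finset.sum_congr rfl fun i _ => Finset.sum_congr rfl fun k _ =>
      Finset.sum_congr rfl fun l _ => ?_
    ring
  rw [h8, h9]
  have h11 : ∑ k, ∑ l, ∑ r, W k l * W j r * b k l r =
      ∑ i, ∑ k, ∑ l, W i k * W l j * b i k l := by
    refine Finset.sum_congr rfl fun i _ => Finset.sum_congr rfl fun k _ =>
      Finset.sum_congr rfl fun l _ => ?_
    rw [hWs j l]
  rw [h11]
  ring

end core

end Jac

theorem jac_proof : JacStatement := by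
  intro m U φ N P h x hx j
  have h1 : ContDiffAt ℝ ∞ φ x := h.sφ.contDiffAt (h.op.mem_nhds hx)
  have h2 : DifferentiableAt ℝ (fderiv ℝ φ) x :=
    (h1.fderiv_right (m := 1) (by norm_cast)).differentiableAt (by norm_num)
  refine Jac.core h2 ?_ (Jac.det_pos_of_inj φ x ?_) j
  · intro v w
    have h3 : IsSymmSndFDerivAt ℝ φ x := h1.isSymmSndFDerivAt (by simp; exact WithTop.coe_le_coe.mpr le_top)
    exact h3 v w
  · intro v w hvw
    have := congrArg (P x) hvw
    rwa [h.left x hx, h.left x hx] at this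

end MP8d4425
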