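import Pool.Agent.Lib.MP_8d4425_gt.PB.Iface

set_option autoImplicit false

/-!
# Row PINV: the smooth left inverse of an injective derivative
-/

namespace MP8d4425

open scoped ContDiff

/-- The adjoint as a real linear map. -/
noncomputable def pinvAdj (m n : ℕ) : (X m →L[ℝ] X n) →ₗ[ℝ] (X n →L[ℝ] X m) where
  toFun L := ContinuousLinearMap.adjoint L
  map_add' L M := map_add _ L M
  map_smul' c L := by simp

theorem pinvAdj_apply (m n : ℕ) (L : X m →L[ℝ] X n) :
    pinvAdj m n L = ContinuousLinearMap.adjoint L := rfl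

theorem pinvAdj_contDiff (m n : ℕ) : ContDiff ℝ ∞ (pinvAdj m n) :=
  (LinearMap.toContinuousLinearMap (pinvAdj m n)).contDiff

theorem pinv_unit (m n : ℕ) (L : X m →L[ℝ] X n) (hL : Function.Injective L) :
    IsUnit ((pinvAdj m n L).comp L) := by
  have hinj : Function.Injective ((pinvAdj m n L).comp L) := by
    rw [injective_iff_map_eq_zero]
    intro v hv
    have h1 : inner ℝ (((pinvAdj m n L).comp L) v) v = (0 : ℝ) := by rw [hv, inner_zero_left]
    rw [ContinuousLinearMap.comp_apply, pinvAdj_apply,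
      ContinuousLinearMap.adjoint_inner_left] at h1
    have h2 : L v = 0 := inner_self_eq_zero.mp h1
    exact hL (by rw [h2, map_zero])
  rw [ContinuousLinearMap.isUnit_iff_bijective]
  refine ⟨hinj, ?_⟩
  exact LinearMap.surjective_of_injective (f := (((pinvAdj m n L).comp L) : X m →ₗ[ℝ] X m)) hinj

/-- Row PINV. -/
theorem pinv_proof : PinvStatement := by
  intro m n U φ hU hφ hinj
  refine ⟨fun x => (Ring.inverse ((pinvAdj m n (fderiv ℝ φ x)).comp (fderiv ℝ φ x))).comp
    (pinvAdj m n (fderiv ℝ φ x)), ?_, ?_⟩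
  · have hD : ContDiffOn ℝ ∞ (fderiv ℝ φ) U := hφ.fderiv_of_isOpen hU (by simp)
    have hA : ContDiffOn ℝ ∞ (fun x => pinvAdj m n (fderiv ℝ φ x)) U :=
      (pinvAdj_contDiff m n).comp_contDiffOn hD
    have hG : ContDiffOn ℝ ∞ (fun x => (pinvAdj m n (fderiv ℝ φ x)).comp (fderiv ℝ φ x)) U :=
      hA.clm_comp hD
    have hR : ContDiffOn ℝ ∞ (fun x => Ring.inverse
        ((pinvAdj m n (fderiv ℝ φ x)).comp (fderiv ℝ φ x))) U := by
      intro x hx
      obtain ⟨u, hu⟩ := pinv_unit m n (fderiv ℝ φ x) (hinj x hx)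
      have h1 : ContDiffAt ℝ ∞ Ring.inverse
          ((pinvAdj m n (fderiv ℝ φ x)).comp (fderiv ℝ φ x)) := by
        rw [← hu]
        exact contDiffAt_ringInverse ℝ u
      exact h1.comp_contDiffWithinAt x (hG x hx)
    exact hR.clm_comp hA
  · intro x hx
    have hu := pinv_unit m n (fderiv ℝ φ x) (hinj x hx)
    refine ⟨?_, ?_⟩
    · intro v
      have h := Ring.inverse_mul_cancel _ hu
      have h2 := congrArg (fun T : X m →L[ℝ] X m => T v) h
      simpa using h2
    · intro w v
      have h := Ring.mul_inverse_cancel _ hu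
      have h2 := congrArg (fun T : X m →L[ℝ] X m =>
        T (pinvAdj m n (fderiv ℝ φ x) w)) h
      have h3 : pinvAdj m n (fderiv ℝ φ x) (fderiv ℝ φ x
          (((Ring.inverse ((pinvAdj m n (fderiv ℝ φ x)).comp (fderiv ℝ φ x))).comp
            (pinvAdj m n (fderiv ℝ φ x))) w)) = pinvAdj m n (fderiv ℝ φ x) w := by
        simpa using h2
      rw [← ContinuousLinearMap.adjoint_inner_left, map_sub, ← pinvAdj_apply, h3, sub_self,
        inner_zero_left]

end MP8d4425
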