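import Mathlib
import Pool.Agent.Lib.MP_8d4425_gt.PB.Iface

set_option autoImplicit false

/-!
# Row PRP of the board for MP_8d4425_gt

Along the integral curve the family `w` stays orthogonal to `N` and `T`; consequences.
-/

namespace MP8d4425

open scoped ContDiff

theorem prp_cda {m : ℕ} {F : Type} [NormedAddCommGroup F] [NormedSpace ℝ F] {U : Set (X m)}
    {u : X m → F} (hU : IsOpen U) (hu : ContDiffOn ℝ ∞ u U) {x : X m} (hx : x ∈ U) :
    ContDiffAt ℝ ∞ u x := hu.contDiffAt (hU.mem_nhds hx)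

theorem prp_fderiv_cda {m : ℕ} {F : Type} [NormedAddCommGroup F] [NormedSpace ℝ F]
    {U : Set (X m)}
    {u : X m → F} (hU : IsOpen U) (hu : ContDiffOn ℝ ∞ u U) {x : X m} (hx : x ∈ U) :
    ContDiffAt ℝ ∞ (fderiv ℝ u) x := (prp_cda hU hu hx).fderiv_right (by norm_num)

theorem prp_hd {m : ℕ} {F : Type} [NormedAddCommGroup F] [NormedSpace ℝ F] {U : Set (X m)}
    {u : X m → F} (hU : IsOpen U) (hu : ContDiffOn ℝ ∞ u U) {x : X m} (hx : x ∈ U) :
    HasFDerivAt u (fderiv ℝ u x) x :=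
  ((prp_cda hU hu hx).differentiableAt (by simp)).hasFDerivAt

theorem prp_hd2 {m : ℕ} {F : Type} [NormedAddCommGroup F] [NormedSpace ℝ F] {U : Set (X m)}
    {u : X m → F} (hU : IsOpen U) (hu : ContDiffOn ℝ ∞ u U) {x : X m} (hx : x ∈ U) :
    HasFDerivAt (fderiv ℝ u) (fderiv ℝ (fderiv ℝ u) x) x :=
  ((prp_fderiv_cda hU hu hx).differentiableAt (by simp)).hasFDerivAt

/-- The derivative of the tangent field. -/
theorem prp_hdT {m : ℕ} {U : Set (X m)} {φ : X m → X (m + 1)} {e : X m → X m} (hU : IsOpen U)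
    (hφ : ContDiffOn ℝ ∞ φ U) (he : ContDiffOn ℝ ∞ e U) {x : X m} (hx : x ∈ U) :
    HasFDerivAt (tf φ e) (fderiv ℝ (tf φ e) x) x := by
  have h := (prp_hd2 hU hφ hx).clm_apply (prp_hd hU he hx)
  exact h.differentiableAt.hasFDerivAt

theorem prp_DT {m : ℕ} {U : Set (X m)} {φ : X m → X (m + 1)} {e : X m → X m} (hU : IsOpen U)
    (hφ : ContDiffOn ℝ ∞ φ U) (he : ContDiffOn ℝ ∞ e U) {x : X m} (hx : x ∈ U) (v : X m) :
    fderiv ℝ (tf φ e) x v = fderiv ℝ φ x (fderiv ℝ e x v) + D2 φ x v (e x) := by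
  have h := (prp_hd2 hU hφ hx).clm_apply (prp_hd hU he hx)
  have h2 : fderiv ℝ (tf φ e) x = _ := h.fderiv
  rw [h2]
  simp [D2]

/-- The tangent field is orthogonal to its derivatives. -/
theorem prp_TDT {m : ℕ} {U : Set (X m)} {φ : X m → X (m + 1)} {e : X m → X m} (hU : IsOpen U)
    (hφ : ContDiffOn ℝ ∞ φ U) (he : ContDiffOn ℝ ∞ e U)
    (h1 : ∀ x ∈ U, ‖fderiv ℝ φ x (e x)‖ = 1) {x : X m} (hx : x ∈ U) (v : X m) :
    inner ℝ (tf φ e x) (fderiv ℝ (tf φ e) x v) = (0 : ℝ) := by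
  have hT := prp_hdT hU hφ he hx
  have h2 := hT.inner ℝ hT
  have h3 : (fun y => (inner ℝ (tf φ e y) (tf φ e y) : ℝ)) =ᶠ[nhds x] fun _ => (1 : ℝ) := by
    filter_upwards [hU.mem_nhds hx] with y hy
    rw [real_inner_self_eq_norm_sq]
    have := h1 y hy
    unfold tf
    rw [this]; norm_num
  have h4 : HasFDerivAt (fun y => (inner ℝ (tf φ e y) (tf φ e y) : ℝ)) (0 : X m →L[ℝ] ℝ) x :=
    (hasFDerivAt_const (1 : ℝ) x).congr_of_eventuallyEq h3
  have h5 := h2.unique h4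
  have h6 := congrArg (fun L : X m →L[ℝ] ℝ => L v) h5
  simp only [ContinuousLinearMap.comp_apply, ContinuousLinearMap.prod_apply,
    fderivInnerCLM_apply, ContinuousLinearMap.zero_apply] at h6
  rw [real_inner_comm (tf φ e x) (fderiv ℝ (tf φ e) x v)] at h6
  linarith

/-- Differentiate `⟪N, T⟫ = 0`. -/
theorem prp_NDT {m : ℕ} {U : Set (X m)} {φ N : X m → X (m + 1)}
    {P : X m → (X (m + 1) →L[ℝ] X m)} {e : X m → X m} (hI : Imm m U φ N P)
    (he : ContDiffOn ℝ ∞ e U) {x : X m} (hx : x ∈ U) (v : X m) :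
    inner ℝ (N x) (fderiv ℝ (tf φ e) x v) =
      -(inner ℝ (tf φ e x) (fderiv ℝ N x v) : ℝ) := by
  have hT := prp_hdT hI.op hI.sφ he hx
  have hN := prp_hd hI.op hI.sN hx
  have h2 := hN.inner ℝ hT
  have h3 : (fun y => (inner ℝ (N y) (tf φ e y) : ℝ)) =ᶠ[nhds x] fun _ => (0 : ℝ) := by
    filter_upwards [hI.op.mem_nhds hx] with y hy
    exact hI.perp y hy (e y)
  have h4 : HasFDerivAt (fun y => (inner ℝ (N y) (tf φ e y) : ℝ)) (0 : X m →L[ℝ] ℝ) x :=
    (hasFDerivAt_const (0 : ℝ) x).congr_of_eventuallyEq h3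
  have h5 := h2.unique h4
  have h6 := congrArg (fun L : X m →L[ℝ] ℝ => L v) h5
  simp only [ContinuousLinearMap.comp_apply, ContinuousLinearMap.prod_apply,
    fderivInnerCLM_apply, ContinuousLinearMap.zero_apply] at h6
  rw [real_inner_comm (tf φ e x) (fderiv ℝ N x v)] at h6
  linarith

theorem prp_zero {δ : ℝ} (u₁ u₂ : ℝ → ℝ) (k : ℝ → ℝ) (hδ : 0 < δ)
    (h1 : ∀ s ∈ Set.Ioo (-δ) δ, HasDerivAt u₁ (k s * u₂ s) s)
    (h2 : ∀ s ∈ Set.Ioo (-δ) δ, HasDerivAt u₂ (-(k s * u₁ s)) s) (h01 : u₁ 0 = 0)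
    (h02 : u₂ 0 = 0) : ∀ s ∈ Set.Ioo (-δ) δ, u₁ s = 0 ∧ u₂ s = 0 := by
  have hd : ∀ s ∈ Set.Ioo (-δ) δ, HasDerivAt (fun s => u₁ s ^ 2 + u₂ s ^ 2) 0 s := by
    intro s hs
    have := ((h1 s hs).pow 2).add ((h2 s hs).pow 2)
    have h0 : (↑2 * u₁ s ^ (2 - 1) * (k s * u₂ s) + ↑2 * u₂ s ^ (2 - 1) * (-(k s * u₁ s)) : ℝ)
        = 0 := by
      ring
    refine (this.congr_deriv ?_)
    simpa using h0
  have hc : ∀ s ∈ Set.Ioo (-δ) δ, u₁ s ^ 2 + u₂ s ^ 2 = u₁ 0 ^ 2 + u₂ 0 ^ 2 := by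
    intro s hs
    have h0 : (0 : ℝ) ∈ Set.Ioo (-δ) δ := ⟨by linarith, hδ⟩
    have hconv : Convex ℝ (Set.Ioo (-δ) δ) := convex_Ioo _ _
    have hdw : ∀ x ∈ Set.Ioo (-δ) δ,
        HasDerivWithinAt (fun s => u₁ s ^ 2 + u₂ s ^ 2) ((fun _ => (0 : ℝ)) x)
          (Set.Ioo (-δ) δ) x := fun x hx => (hd x hx).hasDerivWithinAt
    have hb : ∀ x ∈ Set.Ioo (-δ) δ, ‖((fun _ => (0 : ℝ)) x)‖ ≤ 0 := by
      intro x hx; simp
    have := hconv.norm_image_sub_le_of_norm_hasDerivWithin_le hdw hb h0 hs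
    simp only [zero_mul] at this
    have h3 := norm_le_zero_iff.mp this
    linarith
  intro s hs
  have := hc s hs
  rw [h01, h02] at this
  have h5 : 0 ≤ u₁ s ^ 2 := sq_nonneg _
  have h6 : 0 ≤ u₂ s ^ 2 := sq_nonneg _
  have h7 : u₁ s ^ 2 = 0 := by nlinarith
  have h8 : u₂ s ^ 2 = 0 := by nlinarith
  exact ⟨by simpa using h7, by simpa using h8⟩

/-- Expansion in the orthonormal basis `N, T, w`. -/
theorem prp_expand {n : ℕ} (N T : X (n + 1 + 1)) (w : Fin n → X (n + 1 + 1)) (hN : ‖N‖ = 1)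
    (hT : ‖T‖ = 1) (hNT : inner ℝ N T = (0 : ℝ)) (hw : Orthonormal ℝ w)
    (hNw : ∀ i, inner ℝ N (w i) = (0 : ℝ)) (hTw : ∀ i, inner ℝ T (w i) = (0 : ℝ))
    (v : X (n + 1 + 1)) (h1 : inner ℝ N v = (0 : ℝ)) (h2 : inner ℝ T v = (0 : ℝ)) :
    v = ∑ j, (inner ℝ v (w j) : ℝ) • w j := by
  classical
  let g : Option (Option (Fin n)) → X (n + 1 + 1) := fun o =>
    Option.elim o N (fun o => Option.elim o T w)
  have hg : Orthonormal ℝ g := by
    rw [orthonormal_iff_ite]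
    rintro (_ | _ | i) (_ | _ | j)
    · simp [g, real_inner_self_eq_norm_sq, hN]
    · simpa [g] using hNT
    · simpa [g] using hNw j
    · simp only [g, Option.elim]
      rw [real_inner_comm]; simpa using hNT
    · simp [g, real_inner_self_eq_norm_sq, hT]
    · simpa [g] using hTw j
    · simp only [g, Option.elim]
      rw [real_inner_comm]; simpa using hNw i
    · simp only [g, Option.elim]
      rw [real_inner_comm]; simpa using hTw i
    · have := (orthonormal_iff_ite.mp hw) i j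
      simpa [g] using this
  have hcard : Fintype.card (Option (Option (Fin n))) = Module.finrank ℝ (X (n + 1 + 1)) := by
    simp [X]
  let b := basisOfOrthonormalOfCardEqFinrank hg hcard
  have hb : ⇑b = g := coe_basisOfOrthonormalOfCardEqFinrank hg hcard
  let B : OrthonormalBasis (Option (Option (Fin n))) ℝ (X (n + 1 + 1)) :=
    b.toOrthonormalBasis (by rw [hb]; exact hg)
  have hB : ⇑B = g := by
    rw [Module.Basis.coe_toOrthonormalBasis, hb]
  have hs := B.sum_repr' v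
  rw [hB] at hs
  rw [Fintype.sum_option, Fintype.sum_option] at hs
  simp only [g, Option.elim] at hs
  rw [h1, h2, zero_smul, zero_smul, zero_add, zero_add] at hs
  rw [← hs]
  conv_rhs => rw [hs]
  refine Finset.sum_congr rfl fun j _ => ?_
  rw [real_inner_comm]

theorem prp_proof (hB : BasStatement) : PrpStatement := by
  intro m p U φ N P f e lam n δ c w hC s hs
  have hI := hC.hyp.imm
  have hU := hI.op
  have hF := hC.frm
  obtain ⟨hcU, hcd⟩ := hC.cur s hs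
  set K : ℝ → ℝ := fun s => (p - 2 + m / 2) * f (c s) with hK
  have huv : ∀ i, ∀ t ∈ Set.Ioo (-δ) δ, inner ℝ (N (c t)) (w i) = (0 : ℝ) ∧
      inner ℝ (tf φ e (c t)) (w i) = (0 : ℝ) := by
    intro i
    refine prp_zero (fun t => inner ℝ (N (c t)) (w i)) (fun t => inner ℝ (tf φ e (c t)) (w i)) K
      hC.δpos ?_ ?_ (hC.wN i) (hC.wT i)
    · intro t ht
      obtain ⟨htU, htd⟩ := hC.cur t ht
      have h1 : HasDerivAt (fun t => N (c t)) (fderiv ℝ N (c t) (e (c t))) t :=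
        (prp_hd hU hI.sN htU).comp_hasDerivAt t htd
      have h2 := h1.inner ℝ (hasDerivAt_const t (w i))
      refine h2.congr_deriv ?_
      rw [hF.dN (c t) htU, inner_zero_right, zero_add, inner_smul_left]
      simp [hK, tf]
    · intro t ht
      obtain ⟨htU, htd⟩ := hC.cur t ht
      have h1 : HasDerivAt (fun t => tf φ e (c t)) (fderiv ℝ (tf φ e) (c t) (e (c t))) t :=
        (prp_hdT hU hI.sφ hF.se htU).comp_hasDerivAt t htd
      have h2 := h1.inner ℝ (hasDerivAt_const t (w i))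
      refine h2.congr_deriv ?_
      rw [hC.tnk (c t) htU, inner_zero_right, zero_add, inner_smul_left]
      simp [hK]
  have hNw : ∀ i, inner ℝ (N (c s)) (w i) = (0 : ℝ) := fun i => (huv i s hs).1
  have hTw : ∀ i, inner ℝ (tf φ e (c s)) (w i) = (0 : ℝ) := fun i => (huv i s hs).2
  have hPw : ∀ i, fderiv ℝ φ (c s) (P (c s) (w i)) = w i := by
    intro i
    rw [hI.right (c s) hcU (w i), hNw i, zero_smul, sub_zero]
  have hdim := hC.dim
  subst hdim
  have hNT : inner ℝ (N (c s)) (tf φ e (c s)) = (0 : ℝ) := hI.perp (c s) hcU (e (c s))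
  refine ⟨hNw, hTw, hPw, ?_, ?_, ?_, ?_, ?_⟩
  · intro v h1 h2
    exact prp_expand (N (c s)) (tf φ e (c s)) w (hI.unit _ hcU) (hF.one _ hcU) hNT hC.orth hNw hTw
      v h1 h2
  · intro v
    exact prp_NDT hI hF.se hcU v
  · intro v
    exact prp_TDT hU hI.sφ hF.se hF.one hcU v
  · intro i
    have h5 := (hB _ U φ N P hI (c s) hcU).2.2.2.2.1 (P (c s) (w i)) (e (c s))
    rw [hF.dN (c s) hcU, hPw i, inner_smul_left] at h5
    have h6 : inner ℝ (fderiv ℝ φ (c s) (e (c s))) (w i) = (0 : ℝ) := hTw i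
    rw [h6, mul_zero] at h5
    rw [real_inner_comm]
    exact h5
  · refine ⟨Fin.cons (e (c s)) (fun i => P (c s) (w i)), ?_, ?_⟩
    · intro i j
      refine Fin.cases ?_ (fun i => ?_) i
      · refine Fin.cases ?_ (fun j => ?_) j
        · simp only [Fin.cons_zero, if_true]
          rw [real_inner_self_eq_norm_sq, hF.one _ hcU]; norm_num
        · simp only [Fin.cons_zero, Fin.cons_succ]
          rw [hPw j, if_neg (Fin.succ_ne_zero j).symm]
          exact hTw j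
      · refine Fin.cases ?_ (fun j => ?_) j
        · simp only [Fin.cons_zero, Fin.cons_succ]
          rw [hPw i, if_neg (Fin.succ_ne_zero i), real_inner_comm]
          exact hTw i
        · simp only [Fin.cons_succ]
          rw [hPw i, hPw j]
          have := (orthonormal_iff_ite.mp hC.orth) i j
          rw [this]
          simp [Fin.succ_inj]
    · intro g
      rw [Fin.sum_univ_succ]
      simp

end MP8d4425
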