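import Mathlib
import Pool.Agent.Lib.MP_8d4425_gt.PB.Iface

set_option autoImplicit false

/-! Row TEN: the mean curvature function and the p-tension field. -/

namespace MP8d4425

open scoped ContDiff

/-- `dvg` depends only on the germ of the 1-form. -/
theorem dvg_congr {m n : ℕ} (φ : X m → X n) {F : Type} [NormedAddCommGroup F]
    [NormedSpace ℝ F] (θ θ' : X m → Fin m → F) (x : X m) (h : θ =ᶠ[nhds x] θ') :
    dvg φ θ x = dvg φ θ' x := by
  unfold dvg
  congr 1
  refine Finset.sum_congr rfl fun i _ => ?_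
  have : (fun y => Real.sqrt (gram φ y).det • ∑ j, (gram φ y)⁻¹ i j • θ y j) =ᶠ[nhds x]
      (fun y => Real.sqrt (gram φ y).det • ∑ j, (gram φ y)⁻¹ i j • θ' y j) := by
    filter_upwards [h] with y hy
    rw [hy]
  rw [this.fderiv_eq]

/-- Coordinate expansion. -/
theorem cv_exp {m : ℕ} (v : X m) : v = ∑ k, v k • (cv k : X m) := by
  ext j
  simp [cv, Pi.single_apply]

/-- The trace of an endomorphism, computed in a frame. -/
theorem trace_frame {m : ℕ} (φ : X m → X (m + 1)) (x : X m) (ε : Fin m → X m)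
    (hε : ∀ v, v = ∑ a, (inner ℝ (fderiv ℝ φ x (ε a)) (fderiv ℝ φ x v) : ℝ) • ε a)
    (L : X m →L[ℝ] X m) :
    ∑ k, (L (cv k)) k = ∑ a, (inner ℝ (fderiv ℝ φ x (ε a)) (fderiv ℝ φ x (L (ε a))) : ℝ) := by
  have h1 : ∀ a, (inner ℝ (fderiv ℝ φ x (ε a)) (fderiv ℝ φ x (L (ε a))) : ℝ) =
      ∑ k, (ε a) k * (inner ℝ (fderiv ℝ φ x (ε a)) (fderiv ℝ φ x (L (cv k))) : ℝ) := by
    intro a
    have h2 : L (ε a) = ∑ k, (ε a) k • L (cv k) := by
      conv_lhs => rw [cv_exp (ε a)]
      rw [map_sum]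
      exact Finset.sum_congr rfl fun k _ => map_smul _ _ _
    rw [h2, map_sum, inner_sum]
    refine Finset.sum_congr rfl fun k _ => ?_
    rw [map_smul, real_inner_smul_right]
  have h3 : ∀ k, (L (cv k)) k =
      ∑ a, (inner ℝ (fderiv ℝ φ x (ε a)) (fderiv ℝ φ x (L (cv k))) : ℝ) * (ε a) k := by
    intro k
    have := congrArg (fun v : X m => v k) (hε (L (cv k)))
    simpa using this
  simp only [h1, h3]
  rw [Finset.sum_comm]
  refine Finset.sum_congr rfl fun a _ => Finset.sum_congr rfl fun k _ => ?_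
  ring

theorem ten_proof (hb : BasStatement) (ho : OfrStatement) (ht : TrcStatement)
    (hd : DvgStatement) : TenStatement := by
  intro m U φ N P hm I
  have hU := I.op
  have hm' : (m : ℝ) ≠ 0 := by exact_mod_cast hm.ne'
  -- the function
  set f : X m → ℝ := fun x => -((m : ℝ)⁻¹ * ∑ k, (P x (fderiv ℝ N x (cv k))) k) with hf
  have hsN : ContDiffOn ℝ ∞ (fderiv ℝ N) U := I.sN.fderiv_of_isOpen hU (by simp)
  have hmean : ∀ x ∈ U, ∀ ε, OF φ x ε →
      (m : ℝ) * f x = - ∑ i, inner ℝ (fderiv ℝ N x (ε i)) (fderiv ℝ φ x (ε i)) := by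
    intro x hx ε hε
    obtain ⟨e1, -⟩ := (ho m U φ N P I x hx).2 ε hε
    obtain ⟨b1, -, -, -, -, b6, -, -⟩ := hb m U φ N P I x hx
    have h1 := trace_frame φ x ε e1 ((P x).comp (fderiv ℝ N x))
    simp only [ContinuousLinearMap.comp_apply] at h1
    have h2 : (m : ℝ) * f x = -∑ k, (P x (fderiv ℝ N x (cv k))) k := by
      simp only [hf]
      field_simp
    rw [h2, h1]
    congr 1
    refine Finset.sum_congr rfl fun a _ => ?_
    rw [b6 _ (b1 _), real_inner_comm]
  have hprd : ∀ x ∈ U, prd φ φ x = m := by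
    intro x hx
    obtain ⟨⟨ε, hε⟩, -⟩ := ho m U φ N P I x hx
    obtain ⟨-, h2⟩ := ht m U φ N P I x hx
    have h3 := h2 ε hε ℝ (((innerSL ℝ).bilinearComp (fderiv ℝ φ x) (fderiv ℝ φ x)))
    simp only [ContinuousLinearMap.bilinearComp_apply, smul_eq_mul] at h3
    have h4 : ∀ v w, (innerSL ℝ (fderiv ℝ φ x v)) (fderiv ℝ φ x w) =
        (inner ℝ (fderiv ℝ φ x v) (fderiv ℝ φ x w) : ℝ) := fun v w => rfl
    simp only [h4] at h3
    unfold prd
    rw [h3, Finset.sum_congr rfl fun a _ => hε a a]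
    simp
  refine ⟨f, ?_, hmean, hprd, ?_⟩
  · have h1 : ∀ k, ContDiffOn ℝ ∞ (fun x => (P x (fderiv ℝ N x (cv k))) k) U := by
      intro k
      have h2 : ContDiffOn ℝ ∞ (fun x => fderiv ℝ N x (cv k)) U :=
        hsN.clm_apply contDiffOn_const
      have h3 : ContDiffOn ℝ ∞ (fun x => P x (fderiv ℝ N x (cv k))) U := I.sP.clm_apply h2
      exact (contDiffOn_euclidean.1 h3) k
    exact (contDiffOn_const.mul (ContDiffOn.sum fun k _ => h1 k)).neg
  · intro p x hx
    obtain ⟨⟨ε, hε⟩, hexp⟩ := ho m U φ N P I x hx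
    obtain ⟨b1, b2, -, -, -, b6, -, -⟩ := hb m U φ N P I x hx
    set C : ℝ := (m : ℝ) ^ ((p - 2) / 2) with hC
    have hnh : U ∈ nhds x := hU.mem_nhds hx
    have hsφ : ContDiffOn ℝ ∞ (fderiv ℝ φ) U := I.sφ.fderiv_of_isOpen hU (by simp)
    have hdφ : DifferentiableAt ℝ (fderiv ℝ φ) x :=
      (hsφ.contDiffAt hnh).differentiableAt (by simp)
    have h1 : tens p φ x = dvg φ (fun y j => (C • fderiv ℝ φ y) (cv j)) x := by
      unfold tens
      refine dvg_congr φ _ _ x ?_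
      filter_upwards [hnh] with y hy
      funext j
      rw [hprd y hy]
      rfl
    rw [h1, hd m U φ N P I (X (m + 1)) (fun y => C • fderiv ℝ φ y) x hx
      (hdφ.const_smul C) ε hε]
    have h2 : fderiv ℝ (fun y => C • fderiv ℝ φ y) x = C • fderiv ℝ (fderiv ℝ φ) x :=
      fderiv_const_smul hdφ C
    have h3 : ∀ a, fderiv ℝ (fun y => C • fderiv ℝ φ y) x (ε a) (ε a) -
        (C • fderiv ℝ φ x) (P x (D2 φ x (ε a) (ε a))) =
        (C * (inner ℝ (N x) (D2 φ x (ε a) (ε a)) : ℝ)) • N x := by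
      intro a
      rw [h2]
      have h4 := I.right x hx (D2 φ x (ε a) (ε a))
      simp only [_root_.smul_apply]
      rw [h4]
      unfold D2
      module
    rw [Finset.sum_congr rfl fun a _ => h3 a, ← Finset.sum_smul]
    congr 1
    rw [hmean x hx ε hε, ← Finset.mul_sum]
    congr 1
    rw [← Finset.sum_neg_distrib]
    refine Finset.sum_congr rfl fun a _ => ?_
    rw [b2]
    ring

end MP8d4425
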