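import Mathlib
import Pool.Agent.Lib.MP_8d4425_gt.PB.Iface

set_option autoImplicit false

/-!
# Row TNK: `DT(e) = κ N`
-/

namespace MP8d4425
open scoped ContDiff

namespace Tnk

variable {E F : Type*} [NormedAddCommGroup E] [NormedSpace ℝ E] [NormedAddCommGroup F]
  [NormedSpace ℝ F]

theorem cd_fderiv {U : Set E} (hU : IsOpen U) {u : E → F} (h : ContDiffOn ℝ ∞ u U) :
    ContDiffOn ℝ ∞ (fderiv ℝ u) U :=
  h.fderiv_of_isOpen hU (by simp)

theorem cd_diff {U : Set E} (hU : IsOpen U) {u : E → F} (h : ContDiffOn ℝ ∞ u U) {x : E}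
    (hx : x ∈ U) : DifferentiableAt ℝ u x :=
  (h.contDiffAt (hU.mem_nhds hx)).differentiableAt (by simp)

theorem fderiv_congr {U : Set E} (hU : IsOpen U) {u v : E → F} (h : ∀ y ∈ U, u y = v y) {x : E}
    (hx : x ∈ U) : fderiv ℝ u x = fderiv ℝ v x :=
  Filter.EventuallyEq.fderiv_eq (Filter.eventually_of_mem (hU.mem_nhds hx) h)

/-- derivative of `y ↦ L y (z y)` -/
theorem fderiv_app {U : Set E} (hU : IsOpen U) {G : Type*} [NormedAddCommGroup G] [NormedSpace ℝ G]
    {L : E → (F →L[ℝ] G)} {z : E → F} (hL : ContDiffOn ℝ ∞ L U) (hz : ContDiffOn ℝ ∞ z U) {x : E}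
    (hx : x ∈ U) (v : E) :
    fderiv ℝ (fun y => L y (z y)) x v = fderiv ℝ L x v (z x) + L x (fderiv ℝ z x v) := by
  have h := ((cd_diff hU hL hx).hasFDerivAt.clm_apply (cd_diff hU hz hx).hasFDerivAt).fderiv
  rw [h]
  simp only [_root_.add_apply, ContinuousLinearMap.comp_apply, ContinuousLinearMap.flip_apply]
  rw [add_comm]

theorem fderiv_inn {U : Set E} (hU : IsOpen U) {n : ℕ} {u v : E → X n}
    (hu : ContDiffOn ℝ ∞ u U) (hv : ContDiffOn ℝ ∞ v U) {x : E} (hx : x ∈ U) (w : E) :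
    fderiv ℝ (fun y => (inner ℝ (u y) (v y) : ℝ)) x w =
      inner ℝ (fderiv ℝ u x w) (v x) + inner ℝ (u x) (fderiv ℝ v x w) := by
  rw [fderiv_inner_apply ℝ (cd_diff hU hu hx) (cd_diff hU hv hx)]
  ring

theorem fderiv_sm {U : Set E} (hU : IsOpen U) {c : E → ℝ} {u : E → F}
    (hc : ContDiffOn ℝ ∞ c U) (hu : ContDiffOn ℝ ∞ u U) {x : E} (hx : x ∈ U) (w : E) :
    fderiv ℝ (fun y => c y • u y) x w = (fderiv ℝ c x w) • u x + c x • fderiv ℝ u x w := by
  have h := ((cd_diff hU hc hx).hasFDerivAt.smul (cd_diff hU hu hx).hasFDerivAt).fderiv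
  have h2 : fderiv ℝ (fun y => c y • u y) x = _ := h
  rw [h2]
  simp only [_root_.add_apply, _root_.smul_apply, ContinuousLinearMap.smulRight_apply]
  rw [add_comm]

end Tnk

open Tnk

theorem tnk_proof (hB : BasStatement) : TnkStatement := by
  intro m p U φ N P f e lam hp hm hH hF
  have hI := hH.imm
  have hU := hI.op
  set α : ℝ := p - 2 + m / 2 with hα
  have hαpos : 0 < α := by
    have : (0 : ℝ) < m := by exact_mod_cast hm
    rw [hα]
    linarith [half_pos this]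
  have sDφ := cd_fderiv hU hI.sφ
  have sDN := cd_fderiv hU hI.sN
  have sT : ContDiffOn ℝ ∞ (tf φ e) U := sDφ.clm_apply hF.se
  have sDT := cd_fderiv hU sT
  have sκ : ContDiffOn ℝ ∞ (fun y => α * f y) U := contDiffOn_const.mul hH.sf
  -- derivative of T
  have dT : ∀ y ∈ U, ∀ v, fderiv ℝ (tf φ e) y v =
      D2 φ y v (e y) + fderiv ℝ φ y (fderiv ℝ e y v) := by
    intro y hy v
    exact fderiv_app hU sDφ hF.se hy v
  have dκ : ∀ y ∈ U, ∀ v, fderiv ℝ (fun y => α * f y) y v = α * fderiv ℝ f y v := by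
    intro y hy v
    have h := ((cd_diff hU hH.sf hy).hasFDerivAt.const_mul α).fderiv
    have h2 : fderiv ℝ (fun y => α * f y) y = _ := h
    rw [h2]
    simp
  have dNe : ∀ y ∈ U, fderiv ℝ N y (e y) = (α * f y) • tf φ e y := fun y hy => hF.dN y hy
  -- T is a unit field
  have TT : ∀ y ∈ U, (inner ℝ (tf φ e y) (tf φ e y) : ℝ) = 1 := by
    intro y hy
    rw [real_inner_self_eq_norm_sq]
    have := hF.one y hy
    rw [tf, this]
    norm_num
  have NN : ∀ y ∈ U, (inner ℝ (N y) (N y) : ℝ) = 1 := by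
    intro y hy
    rw [real_inner_self_eq_norm_sq, hI.unit y hy]
    norm_num
  have TdT : ∀ y ∈ U, ∀ v, (inner ℝ (tf φ e y) (fderiv ℝ (tf φ e) y v) : ℝ) = 0 := by
    intro y hy v
    have h1 := fderiv_inn hU sT sT hy v
    have h2 : fderiv ℝ (fun y => (inner ℝ (tf φ e y) (tf φ e y) : ℝ)) y = 0 := by
      rw [fderiv_congr hU (v := fun _ => (1 : ℝ)) TT hy]
      exact fderiv_const_apply _
    rw [h2] at h1
    have h3 := real_inner_comm (tf φ e y) (fderiv ℝ (tf φ e) y v)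
    simp only [_root_.zero_apply] at h1
    linarith
  have NT : ∀ y ∈ U, (inner ℝ (N y) (tf φ e y) : ℝ) = 0 := fun y hy => hI.perp y hy (e y)
  have NdT : ∀ y ∈ U, ∀ v, (inner ℝ (N y) (fderiv ℝ (tf φ e) y v) : ℝ) =
      -(inner ℝ (fderiv ℝ N y v) (tf φ e y) : ℝ) := by
    intro y hy v
    have h1 := fderiv_inn hU hI.sN sT hy v
    have h2 : fderiv ℝ (fun y => (inner ℝ (N y) (tf φ e y) : ℝ)) y = 0 := by
      rw [fderiv_congr hU (v := fun _ => (0 : ℝ)) NT hy]
      exact fderiv_const_apply _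
    rw [h2] at h1
    simp only [_root_.zero_apply] at h1
    linarith
  -- the field w
  set w : X m → X (m + 1) := fun y => fderiv ℝ (tf φ e) y (e y) + (α * f y) • N y with hw
  have sw : ContDiffOn ℝ ∞ w U := (sDT.clm_apply hF.se).add (sκ.smul hI.sN)
  have wN : ∀ y ∈ U, (inner ℝ (N y) (w y) : ℝ) = 0 := by
    intro y hy
    simp only [hw]
    rw [inner_add_right, NdT y hy, dNe y hy, inner_smul_left, inner_smul_right, TT y hy, NN y hy]
    simp
  have wT : ∀ y ∈ U, (inner ℝ (tf φ e y) (w y) : ℝ) = 0 := by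
    intro y hy
    simp only [hw]
    rw [inner_add_right, TdT y hy, inner_smul_right, real_inner_comm, NT y hy]
    simp
  -- the field Z
  set Z : X m → X m := fun y => P y (w y) with hZ
  have sZ : ContDiffOn ℝ ∞ Z U := hI.sP.clm_apply sw
  have φZ : ∀ y ∈ U, fderiv ℝ φ y (Z y) = w y := fun y hy =>
    (hB m U φ N P hI y hy).2.2.2.2.2.1 (w y) (wN y hy)
  -- derivative of f
  have dfe : ∀ y ∈ U, fderiv ℝ f y (e y) = lam y := by
    intro y hy
    rw [hF.df y hy]
    have := TT y hy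
    rw [tf] at this
    rw [this, mul_one]
  have dfv : ∀ y ∈ U, ∀ v, fderiv ℝ f y v = lam y * inner ℝ (tf φ e y) (fderiv ℝ φ y v) :=
    fun y hy v => hF.df y hy v
  -- (ii)
  have ii : ∀ y ∈ U, ∀ v, D2 N y v (e y) + fderiv ℝ N y (fderiv ℝ e y v) =
      (α * fderiv ℝ f y v) • tf φ e y + (α * f y) • fderiv ℝ (tf φ e) y v := by
    intro y hy v
    have h1 := fderiv_app hU sDN hF.se hy v
    have h2 := fderiv_sm hU sκ sT hy v
    rw [fderiv_congr hU dNe hy, h2, dκ y hy] at h1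
    exact h1.symm
  -- step 2
  have s2 : ∀ y ∈ U, ∀ v, (inner ℝ (fderiv ℝ N y v) (w y) : ℝ) =
      (α * f y) * inner ℝ (fderiv ℝ φ y v) (w y) := by
    intro y hy v
    obtain ⟨b1, b2, b3, b4, b5, b6, b7, b8⟩ := hB m U φ N P hI y hy
    -- (i)
    have hi : (inner ℝ (D2 N y (e y) v) (tf φ e y) : ℝ) +
        inner ℝ (fderiv ℝ N y v) (fderiv ℝ (tf φ e) y (e y)) =
        (α * fderiv ℝ f y (e y)) * inner ℝ (tf φ e y) (fderiv ℝ φ y v) +
        (α * f y) * (inner ℝ (fderiv ℝ (tf φ e) y (e y)) (fderiv ℝ φ y v) +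
          inner ℝ (tf φ e y) (D2 φ y (e y) v)) := by
      have sv : ContDiffOn ℝ ∞ (fun _ : X m => v) U := contDiffOn_const
      have sNv : ContDiffOn ℝ ∞ (fun z => fderiv ℝ N z v) U := sDN.clm_apply sv
      have sφv : ContDiffOn ℝ ∞ (fun z => fderiv ℝ φ z v) U := sDφ.clm_apply sv
      have e1 : ∀ z ∈ U, (inner ℝ (fderiv ℝ N z v) (tf φ e z) : ℝ) =
          (α * f z) • inner ℝ (tf φ e z) (fderiv ℝ φ z v) := by
        intro z hz
        have := (hB m U φ N P hI z hz).2.2.2.2.1 v (e z)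
        rw [tf, this, dNe z hz, inner_smul_left]
        rfl
      have e2 := fderiv_inn hU sNv sT hy (e y)
      have e3 := fderiv_sm hU sκ (sT.inner ℝ sφv) hy (e y)
      have e4 := fderiv_inn hU sT sφv hy (e y)
      rw [fderiv_congr hU e1 hy, e3, e4, dκ y hy] at e2
      have e5 : fderiv ℝ (fun z => fderiv ℝ N z v) y (e y) = D2 N y (e y) v := by
        have := fderiv_app hU sDN sv hy (e y)
        rw [this]
        simp [D2]
      have e6 : fderiv ℝ (fun z => fderiv ℝ φ z v) y (e y) = D2 φ y (e y) v := by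
        have := fderiv_app hU sDφ sv hy (e y)
        rw [this]
        simp [D2]
      rw [e5, e6] at e2
      simp only [smul_eq_mul] at e2
      exact e2.symm
    -- (ii) with T
    have h2 := congrArg (fun u => (inner ℝ u (tf φ e y) : ℝ)) (ii y hy v)
    simp only [inner_add_left, inner_smul_left] at h2
    have h3 : (inner ℝ (fderiv ℝ N y (fderiv ℝ e y v)) (tf φ e y) : ℝ) =
        (α * f y) * inner ℝ (tf φ e y) (fderiv ℝ φ y (fderiv ℝ e y v)) := by
      rw [tf, b5, dNe y hy, inner_smul_left]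
      rfl
    have h4 := TdT y hy v
    rw [dT y hy v, inner_add_right] at h4
    have h5 : (inner ℝ (fderiv ℝ (tf φ e) y v) (tf φ e y) : ℝ) = 0 := by
      rw [real_inner_comm]
      exact TdT y hy v
    rw [h3, h5, TT y hy] at h2
    simp only [conj_trivial] at h2
    rw [b4 (e y) v, b3 (e y) v, dfe y hy] at hi
    have h6 := dfv y hy v
    have h7 : (inner ℝ (fderiv ℝ N y v) (w y) : ℝ) =
        inner ℝ (fderiv ℝ N y v) (fderiv ℝ (tf φ e) y (e y)) := by
      simp only [hw]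
      have h7a : (inner ℝ (fderiv ℝ N y v) (N y) : ℝ) = 0 := by
        rw [real_inner_comm]
        exact b1 v
      rw [inner_add_right, inner_smul_right, h7a]
      simp
    have h8 : (inner ℝ (fderiv ℝ φ y v) (w y) : ℝ) =
        inner ℝ (fderiv ℝ (tf φ e) y (e y)) (fderiv ℝ φ y v) := by
      simp only [hw]
      have h8a : (inner ℝ (fderiv ℝ φ y v) (N y) : ℝ) = 0 := by
        rw [real_inner_comm]
        exact hI.perp y hy v
      rw [inner_add_right, inner_smul_right, h8a, real_inner_comm]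
      simp
    rw [h7, h8]
    have h9 : α * fderiv ℝ f y v = α * lam y * inner ℝ (tf φ e y) (fderiv ℝ φ y v) := by
      rw [h6]
      ring
    have h10 : (inner ℝ (tf φ e y) (fderiv ℝ φ y (fderiv ℝ e y v)) : ℝ) =
        -(inner ℝ (tf φ e y) (D2 φ y v (e y)) : ℝ) := by linarith
    rw [h10] at h2
    linear_combination hi - h2 - h9
  -- step 3
  have s3 : ∀ y ∈ U, fderiv ℝ N y (Z y) = (α * f y) • fderiv ℝ φ y (Z y) := by
    intro y hy
    obtain ⟨b1, b2, b3, b4, b5, b6, b7, b8⟩ := hB m U φ N P hI y hy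
    set u := fderiv ℝ N y (Z y) - (α * f y) • fderiv ℝ φ y (Z y) with hu
    have u1 : ∀ v, (inner ℝ u (fderiv ℝ φ y v) : ℝ) = 0 := by
      intro v
      rw [hu, inner_sub_left, inner_smul_left, b5, φZ y hy, s2 y hy v,
        real_inner_comm (w y)]
      simp
    have u2 : (inner ℝ (N y) u : ℝ) = 0 := by
      rw [hu, inner_sub_right, inner_smul_right, b1, hI.perp y hy]
      simp
    have u3 := b6 u u2
    have u4 := u1 (P y u)
    rw [u3] at u4
    have u5 : u = 0 := inner_self_eq_zero.mp u4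
    rw [hu] at u5
    exact sub_eq_zero.mp u5
  -- step 4
  intro x hx
  obtain ⟨b1, b2, b3, b4, b5, b6, b7, b8⟩ := hB m U φ N P hI x hx
  have sφZ : ContDiffOn ℝ ∞ (fun y => fderiv ℝ φ y (Z y)) U := sDφ.clm_apply sZ
  have h1 := fderiv_app hU sDN sZ hx (e x)
  rw [fderiv_congr hU s3 hx, fderiv_sm hU sκ sφZ hx (e x), dκ x hx,
    fderiv_app hU sDφ sZ hx (e x)] at h1
  have h2 := ii x hx (Z x)
  have dfZ : fderiv ℝ f x (Z x) = 0 := by
    rw [dfv x hx, φZ x hx, wT x hx, mul_zero]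
  rw [dfZ, dT x hx (Z x)] at h2
  have h3 : fderiv ℝ N x (fderiv ℝ Z x (e x) - fderiv ℝ e x (Z x)) =
      (α * lam x) • w x + (α * f x) • fderiv ℝ φ x (fderiv ℝ Z x (e x) - fderiv ℝ e x (Z x)) := by
    rw [map_sub, map_sub]
    have h4 : fderiv ℝ (fderiv ℝ N) x (e x) (Z x) = D2 N x (Z x) (e x) := b4 (e x) (Z x)
    have h5 : fderiv ℝ (fderiv ℝ φ) x (e x) (Z x) = D2 φ x (Z x) (e x) := b3 (e x) (Z x)
    rw [h4, h5, dfe x hx, φZ x hx] at h1
    have h6 : fderiv ℝ N x (fderiv ℝ Z x (e x)) =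
        (α * lam x) • w x + (α * f x) • (D2 φ x (Z x) (e x) + fderiv ℝ φ x (fderiv ℝ Z x (e x)))
          - D2 N x (Z x) (e x) := by
      rw [h1]
      abel
    have h7 : fderiv ℝ N x (fderiv ℝ e x (Z x)) =
        (α * f x) • (D2 φ x (Z x) (e x) + fderiv ℝ φ x (fderiv ℝ e x (Z x)))
          - D2 N x (Z x) (e x) := by
      rw [mul_zero, zero_smul, zero_add] at h2
      exact eq_sub_of_add_eq' h2
    rw [h6, h7]
    simp only [smul_add, smul_sub]
    abel
  have h8 := s2 x hx (fderiv ℝ Z x (e x) - fderiv ℝ e x (Z x))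
  rw [h3, inner_add_left, inner_smul_left, inner_smul_left] at h8
  simp only [conj_trivial] at h8
  have h9 : α * lam x * inner ℝ (w x) (w x) = 0 := by linarith
  have h10 : (inner ℝ (w x) (w x) : ℝ) = 0 := by
    rcases mul_eq_zero.mp h9 with h | h
    · exact absurd h (mul_pos hαpos (hF.lpos x hx)).ne'
    · exact h
  have h11 : w x = 0 := inner_self_eq_zero.mp h10
  have h12 : fderiv ℝ (tf φ e) x (e x) + (α * f x) • N x = 0 := h11
  rw [neg_smul]
  exact eq_neg_of_add_eq_zero_left h12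

end MP8d4425
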