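import Pool.Agent.Lib.MP_8d4425_gt.PB.Iface

set_option autoImplicit false

/-!
# Row TRC: the trace with the inverse Gram matrix is the frame trace
-/

namespace MP8d4425

open Matrix

theorem cv_expand {m : ℕ} (v : X m) : v = ∑ k, v k • cv k := by
  ext i
  simp [cv, Finset.sum_apply, Pi.single_apply]

/-- The matrix of a frame. -/
noncomputable def fmat {m : ℕ} (ε : Fin m → X m) : Matrix (Fin m) (Fin m) ℝ :=
  Matrix.of fun a k => ε a k

theorem fmat_gram {m n : ℕ} (φ : X m → X n) (x : X m) (ε : Fin m → X m)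
    (h : ∀ i j, inner ℝ (fderiv ℝ φ x (ε i)) (fderiv ℝ φ x (ε j)) = if i = j then (1 : ℝ) else 0) :
    fmat ε * gram φ x * (fmat ε)ᵀ = 1 := by
  ext a b
  rw [Matrix.mul_apply, Matrix.one_apply, ← h a b]
  conv_rhs => rw [cv_expand (ε a), cv_expand (ε b)]
  simp only [map_sum, map_smul, sum_inner, inner_sum, real_inner_smul_left, real_inner_smul_right,
    Matrix.mul_apply, fmat, gram, Matrix.transpose_apply, Matrix.of_apply, Finset.sum_mul]
  refine Finset.sum_congr rfl fun k _ => Finset.sum_congr rfl fun l _ => ?_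
  ring

theorem gram_inv {m n : ℕ} (φ : X m → X n) (x : X m) (ε : Fin m → X m)
    (h : ∀ i j, inner ℝ (fderiv ℝ φ x (ε i)) (fderiv ℝ φ x (ε j)) = if i = j then (1 : ℝ) else 0) :
    (gram φ x)⁻¹ = (fmat ε)ᵀ * fmat ε := by
  have h1 := fmat_gram φ x ε h
  rw [Matrix.mul_assoc, mul_eq_one_comm, Matrix.mul_assoc] at h1
  exact Matrix.inv_eq_right_inv h1

theorem gram_det_pos {m n : ℕ} (φ : X m → X n) (x : X m) (ε : Fin m → X m)
    (h : ∀ i j, inner ℝ (fderiv ℝ φ x (ε i)) (fderiv ℝ φ x (ε j)) = if i = j then (1 : ℝ) else 0) :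
    0 < (gram φ x).det := by
  have h1 := congrArg Matrix.det (fmat_gram φ x ε h)
  rw [Matrix.det_mul, Matrix.det_mul, Matrix.det_transpose, Matrix.det_one] at h1
  by_contra h2
  push Not at h2
  nlinarith [mul_nonneg (sq_nonneg (fmat ε).det) (neg_nonneg.mpr h2)]

theorem trc_sum {m n : ℕ} (φ : X m → X n) (x : X m) (ε : Fin m → X m)
    (h : ∀ i j, inner ℝ (fderiv ℝ φ x (ε i)) (fderiv ℝ φ x (ε j)) = if i = j then (1 : ℝ) else 0)
    {F : Type*} [NormedAddCommGroup F] [NormedSpace ℝ F] (b : X m →L[ℝ] X m →L[ℝ] F) :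
    ∑ k, ∑ l, (gram φ x)⁻¹ k l • b (cv k) (cv l) = ∑ a, b (ε a) (ε a) := by
  have h2 : ∀ a, b (ε a) (ε a) = ∑ k, ∑ l, (ε a k * ε a l) • b (cv k) (cv l) := by
    intro a
    conv_lhs => rw [cv_expand (ε a)]
    simp only [map_sum, map_smul, _root_.sum_apply, _root_.smul_apply,
      Finset.smul_sum, smul_smul]
    rw [Finset.sum_comm]
    refine Finset.sum_congr rfl fun k _ => Finset.sum_congr rfl fun l _ => ?_
    rw [mul_comm]
  simp only [h2, gram_inv φ x ε h, Matrix.mul_apply, fmat, Matrix.transpose_apply,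
    Matrix.of_apply, Finset.sum_smul]
  rw [Finset.sum_comm]
  conv_rhs =>
    rw [Finset.sum_comm]
    enter [2, k]
    rw [Finset.sum_comm]
  rw [Finset.sum_comm]

theorem trc_proof (h : OfrStatement) : TrcStatement := by
  intro m U φ N P hI x hx
  obtain ⟨⟨ε, hε⟩, -⟩ := h m U φ N P hI x hx
  refine ⟨gram_det_pos φ x ε hε, ?_⟩
  intro ε' hε' F _ _ b
  exact trc_sum φ x ε' hε' b

end MP8d4425
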