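import Mathlib
import Pool.Agent.Lib.MP_8d4425_gt.PB.Iface

set_option autoImplicit false

/-!
# p-biharmonic immersions as critical points of the bienergy: interface

Rows which derive the Euler-Lagrange equation `biten p φ = 0` of `Iface.lean` from the definition
of the problem file: `φ` is a critical point of `E_{2,p}(ψ; D) = 1/2 ∫_D |τ_p(ψ)|² v_g`, `g` the
metric induced by `φ`, for all smooth variations supported in compact sets `D`.
-/

namespace MP8d4425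

open scoped ContDiff

/-- The inner product of `dY` and `dψ` with respect to the metric induced by `φ`. -/
noncomputable def prdv {m n : ℕ} (φ ψ Y : X m → X n) (x : X m) : ℝ :=
  ∑ k, ∑ l, (gram φ x)⁻¹ k l * inner ℝ (fderiv ℝ Y x (cv k)) (fderiv ℝ ψ x (cv l))

/-- The p-tension field of the map `ψ`, with respect to the metric induced by `φ`. -/
noncomputable def tensv {m n : ℕ} (p : ℝ) (φ ψ : X m → X n) (x : X m) : X n :=
  dvg φ (fun y j => (prdv φ ψ ψ y) ^ ((p - 2) / 2) • fderiv ℝ ψ y (cv j)) x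

/-- The p-bienergy of the map `ψ` on `D`, with respect to the metric induced by `φ`. -/
noncomputable def E2 {m n : ℕ} (p : ℝ) (φ ψ : X m → X n) (D : Set (X m)) : ℝ :=
  (1 / 2) * ∫ x in D, ‖tensv p φ ψ x‖ ^ 2 * Real.sqrt (gram φ x).det

/-- The immersion `φ` of `U` with the induced metric is p-biharmonic: a critical point of the
p-bienergy for all smooth variations `Φ` supported in compact sets. -/
def PBiharmonic {m n : ℕ} (p : ℝ) (U : Set (X m)) (φ : X m → X n) : Prop :=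
  ∀ (D : Set (X m)) (Φ : ℝ → X m → X n), IsCompact D → D ⊆ U →
    ContDiffOn ℝ ∞ (Function.uncurry Φ) (Set.univ ×ˢ U) → (∀ x ∈ U, Φ 0 x = φ x) →
    (∀ t, ∀ x ∈ U \ D, Φ t x = φ x) → HasDerivAt (fun t => E2 p φ (Φ t) D) 0 0

/-- The linearised operator: `biten p φ = jcb p φ (tens p φ)` (`rfl`). -/
noncomputable def jcb {m n : ℕ} (p : ℝ) (φ Y : X m → X n) (x : X m) : X n :=
  dvg φ (fun y j => (prd φ φ y) ^ ((p - 2) / 2) • fderiv ℝ Y y (cv j) +
    ((p - 2) * (prd φ φ y) ^ ((p - 4) / 2) * prd φ Y y) • fderiv ℝ φ y (cv j)) x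

/-- An immersion of the open set `U`. -/
def Immn {m n : ℕ} (U : Set (X m)) (φ : X m → X n) : Prop :=
  IsOpen U ∧ ContDiffOn ℝ ∞ φ U ∧ ∀ x ∈ U, Function.Injective (fderiv ℝ φ x)

/-- Row VGD: the Gram matrix. -/
def VgdStatement : Prop :=
  ∀ (m n : ℕ) (U : Set (X m)) (φ : X m → X n), Immn U φ →
    (∀ x ∈ U, 0 < (gram φ x).det ∧ prd φ φ x = m ∧
      ∀ i j, (gram φ x)⁻¹ i j = (gram φ x)⁻¹ j i) ∧
    (∀ i j, ContDiffOn ℝ ∞ (fun x => (gram φ x)⁻¹ i j) U) ∧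
    ContDiffOn ℝ ∞ (fun x => Real.sqrt (gram φ x).det) U

/-- Row VDS (from VGD): smoothness of the divergence. -/
def VdsStatement : Prop :=
  ∀ (m n : ℕ) (U : Set (X m)) (φ : X m → X n), Immn U φ →
    (∀ (Y : X m → X n), ContDiffOn ℝ ∞ Y U → ContDiffOn ℝ ∞ (prd φ Y) U ∧
      ∀ j, ContDiffOn ℝ ∞ (fun x => fderiv ℝ Y x (cv j)) U) ∧
    ∀ (θ : X m → Fin m → X n), (∀ j, ContDiffOn ℝ ∞ (fun x => θ x j) U) →
      ContDiffOn ℝ ∞ (dvg φ θ) U

/-- Row VCM: derivatives in the parameter and in space commute. -/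
def VcmStatement : Prop :=
  ∀ (m : ℕ) (F : Type) [NormedAddCommGroup F] [NormedSpace ℝ F] (Θ : ℝ → X m → F) (δ : ℝ)
    (W : Set (X m)), 0 < δ → IsOpen W →
    ContDiffOn ℝ ∞ (Function.uncurry Θ) (Set.Ioo (-δ) δ ×ˢ W) → ∀ v,
    ContDiffOn ℝ ∞ (fun q : ℝ × X m => fderiv ℝ (Θ q.1) q.2 v) (Set.Ioo (-δ) δ ×ˢ W) ∧
      ∀ θ' : X m → F, (∀ y ∈ W, HasDerivAt (fun t => Θ t y) (θ' y) 0) →
        ∀ x ∈ W, HasDerivAt (fun t => fderiv ℝ (Θ t) x v) (fderiv ℝ θ' x v) 0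

/-- Row VTN (from VGD, VDS, VCM): the first variation of the p-tension field. -/
def VtnStatement : Prop :=
  ∀ (m n : ℕ) (p : ℝ) (U D : Set (X m)) (φ V : X m → X n), 0 < m → Immn U φ →
    ContDiff ℝ ∞ V → IsCompact D → D ⊆ U →
    ∃ (δ : ℝ) (W : Set (X m)), 0 < δ ∧ IsOpen W ∧ D ⊆ W ∧ W ⊆ U ∧
      ContDiffOn ℝ ∞ (fun q : ℝ × X m => tensv p φ (fun y => φ y + q.1 • V y) q.2)
        (Set.Ioo (-δ) δ ×ˢ W) ∧
      ∀ x ∈ W, HasDerivAt (fun t : ℝ => tensv p φ (fun y => φ y + t • V y) x) (jcb p φ V x) 0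

/-- Row VIN: differentiation under the integral sign. -/
def VinStatement : Prop :=
  ∀ (m : ℕ) (F : ℝ → X m → ℝ) (F' : X m → ℝ) (δ : ℝ) (W D : Set (X m)), 0 < δ → IsOpen W →
    IsCompact D → D ⊆ W → ContDiffOn ℝ ∞ (Function.uncurry F) (Set.Ioo (-δ) δ ×ˢ W) →
    (∀ x ∈ W, HasDerivAt (fun t => F t x) (F' x) 0) →
    HasDerivAt (fun t => ∫ x in D, F t x) (∫ x in D, F' x) 0

/-- Row VIB (from VGD): integration by parts. -/
def VibStatement : Prop :=
  ∀ (m n : ℕ) (U D : Set (X m)) (φ Y : X m → X n) (θ : X m → Fin m → X n), Immn U φ →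
    (∀ j, ContDiffOn ℝ ∞ (fun x => θ x j) U) → ContDiffOn ℝ ∞ Y U → IsCompact D → D ⊆ U →
    ((∀ x ∈ U \ D, ∀ j, θ x j = 0) ∨ ∀ x ∈ U \ D, Y x = 0) →
    ∫ x in D, inner ℝ (dvg φ θ x) (Y x) * Real.sqrt (gram φ x).det =
      -∫ x in D, (∑ i, ∑ j, (gram φ x)⁻¹ i j * inner ℝ (θ x j) (fderiv ℝ Y x (cv i))) *
        Real.sqrt (gram φ x).det

/-- Row VSY (from VGD, VDS, VIB): the linearised operator is self-adjoint. -/
def VsyStatement : Prop :=
  ∀ (m n : ℕ) (p : ℝ) (U D : Set (X m)) (φ Y V : X m → X n), Immn U φ →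
    ContDiffOn ℝ ∞ Y U → ContDiff ℝ ∞ V → IsCompact D → D ⊆ U → (∀ x, x ∉ D → V x = 0) →
    0 < m →
    ∫ x in D, inner ℝ (Y x) (jcb p φ V x) * Real.sqrt (gram φ x).det =
      ∫ x in D, inner ℝ (jcb p φ Y x) (V x) * Real.sqrt (gram φ x).det

/-- Row VFL: the fundamental lemma of the calculus of variations. -/
def VflStatement : Prop :=
  ∀ (m n : ℕ) (U : Set (X m)) (b : X m → X n) (r : X m → ℝ), IsOpen U → ContinuousOn b U →
    ContinuousOn r U → (∀ x ∈ U, 0 < r x) →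
    (∀ (D : Set (X m)) (V : X m → X n), IsCompact D → D ⊆ U → ContDiff ℝ ∞ V →
      (∀ x, x ∉ D → V x = 0) → ∫ x in D, inner ℝ (b x) (V x) * r x = 0) →
    ∀ x ∈ U, b x = 0

/-- Row VEL (from VGD, VDS, VTN, VIN, VSY, VFL): the Euler-Lagrange equation. -/
def VelStatement : Prop :=
  ∀ (m n : ℕ) (p : ℝ) (U : Set (X m)) (φ : X m → X n), 0 < m → Immn U φ →
    PBiharmonic p U φ → ∀ x ∈ U, biten p φ x = 0

/-- The theorem with the definition of the problem file. -/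
def FinalStatement : Prop :=
  ∀ (m : ℕ) (p : ℝ), 2 ≤ p → ∀ (U : Set (X m)) (φ : X m → X (m + 1)), Immn U φ →
    PBiharmonic p U φ → ∀ x ∈ U, tens p φ x = 0

theorem biten_eq {m n : ℕ} (p : ℝ) (φ : X m → X n) (x : X m) :
    biten p φ x = jcb p φ (tens p φ) x := rfl

theorem tens_eq {m n : ℕ} (p : ℝ) (φ : X m → X n) (x : X m) :
    tens p φ x = tensv p φ φ x := rfl

theorem final_of (h1 : MainStatement) (h2 : VelStatement) : FinalStatement := by
  intro m p hp U φ hI hB x hx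
  rcases Nat.eq_zero_or_pos m with h | h
  · subst h
    simp [tens, dvg]
  · exact h1 m p hp U φ hI.1 hI.2.1 hI.2.2 (h2 m (m + 1) p U φ h hI hB) x hx

end MP8d4425
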