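import Pool.Agent.Lib.MP_8d4425_gt.PB.Var

set_option autoImplicit false

/-!
# Row VCM: derivatives in the parameter and in space commute
-/

namespace MP8d4425

open scoped ContDiff Topology

theorem vcm_slice {m : ℕ} {F : Type} [NormedAddCommGroup F] [NormedSpace ℝ F]
    {Θ : ℝ → X m → F} {δ : ℝ} {W : Set (X m)} (hW : IsOpen W)
    (h : ContDiffOn ℝ ∞ (Function.uncurry Θ) (Set.Ioo (-δ) δ ×ˢ W)) {t : ℝ} {x : X m}
    (ht : t ∈ Set.Ioo (-δ) δ) (hx : x ∈ W) (v : X m) :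
    fderiv ℝ (Θ t) x v = fderiv ℝ (Function.uncurry Θ) (t, x) ((0 : ℝ), v) := by
  have hS : IsOpen (Set.Ioo (-δ) δ ×ˢ W) := isOpen_Ioo.prod hW
  have h1 : DifferentiableAt ℝ (Function.uncurry Θ) (t, x) :=
    (h.contDiffAt (hS.mem_nhds ⟨ht, hx⟩)).differentiableAt (by simp)
  have h2 : HasFDerivAt (fun y : X m => ((t, y) : ℝ × X m))
      (ContinuousLinearMap.inr ℝ ℝ (X m)) x := by
    have := (hasFDerivAt_const (𝕜 := ℝ) t x).prodMk (hasFDerivAt_id (𝕜 := ℝ) x)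
    exact this
  have h3 := h1.hasFDerivAt.comp x h2
  have h4 : HasFDerivAt (Θ t) ((fderiv ℝ (Function.uncurry Θ) (t, x)).comp
      (ContinuousLinearMap.inr ℝ ℝ (X m))) x := h3
  rw [h4.fderiv]
  rfl

/-- **Row VCM.** -/
theorem vcm_proof : VcmStatement := by
  intro m F _ _ Θ δ W hδ hW h v
  have hS : IsOpen (Set.Ioo (-δ) δ ×ˢ W) := isOpen_Ioo.prod hW
  have hd : ContDiffOn ℝ ∞ (fun q => fderiv ℝ (Function.uncurry Θ) q)
      (Set.Ioo (-δ) δ ×ˢ W) := h.fderiv_of_isOpen hS (by simp)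
  refine ⟨?_, ?_⟩
  · have h1 : ContDiffOn ℝ ∞ (fun q => fderiv ℝ (Function.uncurry Θ) q ((0 : ℝ), v))
        (Set.Ioo (-δ) δ ×ˢ W) := hd.clm_apply contDiffOn_const
    refine h1.congr ?_
    rintro ⟨t, x⟩ ⟨ht, hx⟩
    exact vcm_slice hW h ht hx v
  · intro θ' hθ x hx
    have h0 : (0 : ℝ) ∈ Set.Ioo (-δ) δ := ⟨by linarith, hδ⟩
    -- the time derivative
    have hθ' : ∀ y ∈ W, θ' y = fderiv ℝ (Function.uncurry Θ) ((0 : ℝ), y) ((1 : ℝ), (0 : X m)) := by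
      intro y hy
      have h1 : DifferentiableAt ℝ (Function.uncurry Θ) ((0 : ℝ), y) :=
        (h.contDiffAt (hS.mem_nhds ⟨h0, hy⟩)).differentiableAt (by simp)
      have h2 : HasDerivAt (fun t : ℝ => ((t, y) : ℝ × X m)) ((1 : ℝ), (0 : X m)) 0 :=
        (hasDerivAt_id (0 : ℝ)).prodMk (hasDerivAt_const (0 : ℝ) y)
      have h3 := h1.hasFDerivAt.comp_hasDerivAt (0 : ℝ) h2
      have h4 : HasDerivAt (fun t => Θ t y)
          (fderiv ℝ (Function.uncurry Θ) ((0 : ℝ), y) ((1 : ℝ), (0 : X m))) 0 := h3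
      exact (hθ y hy).unique h4
    have hc : ContDiffAt ℝ ∞ (Function.uncurry Θ) ((0 : ℝ), x) :=
      h.contDiffAt (hS.mem_nhds ⟨h0, hx⟩)
    have hdd : DifferentiableAt ℝ (fun q => fderiv ℝ (Function.uncurry Θ) q) ((0 : ℝ), x) :=
      (hd.contDiffAt (hS.mem_nhds ⟨h0, hx⟩)).differentiableAt (by simp)
    have hsym : IsSymmSndFDerivAt ℝ (Function.uncurry Θ) ((0 : ℝ), x) :=
      hc.isSymmSndFDerivAt (by
        rw [minSmoothness_of_isRCLikeNormedField]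
        exact WithTop.coe_le_coe.2 le_top)
    -- the derivative of `θ'`
    have e1 : fderiv ℝ θ' x v =
        fderiv ℝ (fderiv ℝ (Function.uncurry Θ)) ((0 : ℝ), x) ((0 : ℝ), v)
          ((1 : ℝ), (0 : X m)) := by
      have h2 : HasFDerivAt (fun y : X m => (((0 : ℝ), y) : ℝ × X m))
          (ContinuousLinearMap.inr ℝ ℝ (X m)) x := by
        have := (hasFDerivAt_const (𝕜 := ℝ) (0 : ℝ) x).prodMk (hasFDerivAt_id (𝕜 := ℝ) x)
        exact this
      have h3 := hdd.hasFDerivAt.comp x h2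
      have h4 := h3.clm_apply (hasFDerivAt_const (𝕜 := ℝ) ((1 : ℝ), (0 : X m)) x)
      have h5 : θ' =ᶠ[𝓝 x] fun y =>
          ((fun q => fderiv ℝ (Function.uncurry Θ) q) ∘ fun y : X m => (((0 : ℝ), y) : ℝ × X m)) y
            ((1 : ℝ), (0 : X m)) := by
        filter_upwards [hW.mem_nhds hx] with y hy
        exact hθ' y hy
      have h6 := h4.congr_of_eventuallyEq h5
      rw [h6.fderiv]
      simp
    rw [e1, hsym]
    -- the derivative in `t`
    have h2 : HasDerivAt (fun t : ℝ => ((t, x) : ℝ × X m)) ((1 : ℝ), (0 : X m)) 0 :=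
      (hasDerivAt_id (0 : ℝ)).prodMk (hasDerivAt_const (0 : ℝ) x)
    have h3 := hdd.hasFDerivAt.comp_hasDerivAt (0 : ℝ) h2
    have h4 := h3.clm_apply (hasDerivAt_const (0 : ℝ) ((0 : ℝ), v))
    have h5 : (fun t => fderiv ℝ (Θ t) x v) =ᶠ[𝓝 (0 : ℝ)] fun t =>
        ((fun q => fderiv ℝ (Function.uncurry Θ) q) ∘ fun t : ℝ => ((t, x) : ℝ × X m)) t
          ((0 : ℝ), v) := by
      filter_upwards [isOpen_Ioo.mem_nhds h0] with t ht
      exact vcm_slice hW h ht hx v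
    have h6 := h4.congr_of_eventuallyEq h5
    simpa using h6

end MP8d4425
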