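import Pool.Agent.Lib.MP_8d4425_gt.PB.Var

set_option autoImplicit false

/-!
# Row VDS: smoothness of the divergence
-/

namespace MP8d4425

open scoped ContDiff

theorem vds_fd {m : ℕ} {F : Type} [NormedAddCommGroup F] [NormedSpace ℝ F] {U : Set (X m)}
    (hU : IsOpen U) {Y : X m → F} (hY : ContDiffOn ℝ ∞ Y U) (v : X m) :
    ContDiffOn ℝ ∞ (fun x => fderiv ℝ Y x v) U := by
  have h1 : ContDiffOn ℝ ∞ (fderiv ℝ Y) U := hY.fderiv_of_isOpen hU (by simp)
  exact h1.clm_apply contDiffOn_const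

theorem vds_proof (h : VgdStatement) : VdsStatement := by
  intro m n U φ hI
  obtain ⟨hg, hgi, hs⟩ := h m n U φ hI
  obtain ⟨hU, hφ, -⟩ := hI
  refine ⟨fun Y hY => ⟨?_, fun j => vds_fd hU hY (cv j)⟩, fun θ hθ => ?_⟩
  · have h1 : ContDiffOn ℝ ∞ (fun x => ∑ k, ∑ l, (gram φ x)⁻¹ k l *
        inner ℝ (fderiv ℝ Y x (cv k)) (fderiv ℝ φ x (cv l))) U := by
      refine ContDiffOn.sum fun k _ => ContDiffOn.sum fun l _ => ?_
      exact (hgi k l).mul ((vds_fd hU hY (cv k)).inner ℝ (vds_fd hU hφ (cv l)))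
    exact h1
  · have h1 : ∀ i, ContDiffOn ℝ ∞ (fun y => Real.sqrt (gram φ y).det •
        ∑ j, (gram φ y)⁻¹ i j • θ y j) U := fun i =>
      hs.smul (ContDiffOn.sum fun j _ => (hgi i j).smul (hθ j))
    have h2 : ContDiffOn ℝ ∞ (fun x => (Real.sqrt (gram φ x).det)⁻¹ •
        ∑ i, fderiv ℝ (fun y => Real.sqrt (gram φ y).det •
          ∑ j, (gram φ y)⁻¹ i j • θ y j) x (cv i)) U := by
      have h3 : ContDiffOn ℝ ∞ (fun x => (Real.sqrt (gram φ x).det)⁻¹) U :=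
        hs.inv fun x hx => (Real.sqrt_pos.2 (hg x hx).1).ne'
      exact h3.smul (ContDiffOn.sum fun i _ => vds_fd hU (h1 i) (cv i))
    exact h2

end MP8d4425
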