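import Mathlib
import Pool.Agent.Lib.MP_8d4425_gt.PB.Var

set_option autoImplicit false

namespace MP8d4425

open scoped ContDiff

/-- Row VEL. -/
theorem vel_proof (hVgd : VgdStatement) (hVds : VdsStatement) (hVtn : VtnStatement)
    (hVin : VinStatement) (hVsy : VsyStatement) (hVfl : VflStatement) : VelStatement := by
  intro m n p U φ hm hI hB
  obtain ⟨hg, hginv, hsq⟩ := hVgd m n U φ hI
  obtain ⟨hY, hdvg⟩ := hVds m n U φ hI
  have hpos : ∀ x ∈ U, (0 : ℝ) < prd φ φ x := by
    intro x hx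
    rw [(hg x hx).2.1]
    exact_mod_cast hm
  have hpow : ∀ r : ℝ, ContDiffOn ℝ ∞ (fun y => (prd φ φ y) ^ r) U := by
    intro r
    exact ((hY φ hI.2.1).1).rpow_const_of_ne (fun x hx => (hpos x hx).ne')
  have htens : ContDiffOn ℝ ∞ (tens p φ) U := by
    apply hdvg
    intro j
    exact (hpow _).smul ((hY φ hI.2.1).2 j)
  have hbit : ContDiffOn ℝ ∞ (biten p φ) U := by
    apply hdvg
    intro j
    exact ((hpow _).smul ((hY (tens p φ) htens).2 j)).add
      (((contDiffOn_const.mul (hpow _)).mul (hY (tens p φ) htens).1).smul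
        ((hY φ hI.2.1).2 j))
  refine hVfl m n U (biten p φ) (fun x => Real.sqrt (gram φ x).det) hI.1 hbit.continuousOn
    hsq.continuousOn (fun x hx => Real.sqrt_pos.mpr (hg x hx).1) ?_
  intro D V hD hDU hV hV0
  -- the variation
  have hcrit := hB D (fun t x => φ x + t • V x) hD hDU ?_ ?_ ?_
  · obtain ⟨δ, W, hδ, hW, hDW, hWU, hsm, hder⟩ := hVtn m n p U D φ V hm hI hV hD hDU
    have hF : ContDiffOn ℝ ∞ (Function.uncurry fun (t : ℝ) (x : X m) =>
        ‖tensv p φ (fun y => φ y + t • V y) x‖ ^ 2 * Real.sqrt (gram φ x).det)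
        (Set.Ioo (-δ) δ ×ˢ W) := by
      have h1 : ContDiffOn ℝ ∞ (fun q : ℝ × X m =>
          ‖tensv p φ (fun y => φ y + q.1 • V y) q.2‖ ^ 2) (Set.Ioo (-δ) δ ×ˢ W) :=
        hsm.norm_sq ℝ
      have h2 : ContDiffOn ℝ ∞ (fun q : ℝ × X m => Real.sqrt (gram φ q.2).det)
          (Set.Ioo (-δ) δ ×ˢ W) :=
        hsq.comp contDiff_snd.contDiffOn (fun q hq => hWU hq.2)
      exact h1.mul h2
    have hF' : ∀ x ∈ W, HasDerivAt (fun t : ℝ =>
        ‖tensv p φ (fun y => φ y + t • V y) x‖ ^ 2 * Real.sqrt (gram φ x).det)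
        ((2 * inner ℝ (tens p φ x) (jcb p φ V x)) * Real.sqrt (gram φ x).det) 0 := by
      intro x hx
      have h1 := (hder x hx).norm_sq
      have h2 : tensv p φ (fun y => φ y + (0 : ℝ) • V y) x = tens p φ x := by
        have : (fun y => φ y + (0 : ℝ) • V y) = φ := by
          funext y
          simp
        rw [this, tens_eq]
      rw [h2] at h1
      exact h1.mul_const _
    have hint := hVin m (fun t x => ‖tensv p φ (fun y => φ y + t • V y) x‖ ^ 2 *
      Real.sqrt (gram φ x).det) (fun x => (2 * inner ℝ (tens p φ x) (jcb p φ V x)) *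
      Real.sqrt (gram φ x).det) δ W D hδ hW hD hDW hF hF'
    have hint2 := hint.const_mul (1 / 2 : ℝ)
    have huniq := hint2.unique hcrit
    have hsy := hVsy m n p U D φ (tens p φ) V hI htens hV hD hDU hV0 hm
    have hz : ∫ x in D, (2 * inner ℝ (tens p φ x) (jcb p φ V x)) * Real.sqrt (gram φ x).det = 0 := by
      linarith
    have hz2 : ∫ x in D, (2 * inner ℝ (tens p φ x) (jcb p φ V x)) * Real.sqrt (gram φ x).det =
        2 * ∫ x in D, inner ℝ (tens p φ x) (jcb p φ V x) * Real.sqrt (gram φ x).det := by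
      rw [← MeasureTheory.integral_const_mul]
      congr 1
      funext x
      ring
    rw [hz2, hsy] at hz
    have hz3 : ∫ x in D, inner ℝ (jcb p φ (tens p φ) x) (V x) * Real.sqrt (gram φ x).det = 0 := by
      linarith
    exact hz3
  · exact ((hI.2.1.comp contDiff_snd.contDiffOn fun q hq => hq.2).add
      (contDiff_fst.smul (hV.comp contDiff_snd)).contDiffOn)
  · intro x _
    simp
  · intro t x hx
    simp [hV0 x hx.2]

end MP8d4425
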