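import Pool.Agent.Lib.MP_8d4425_gt.PB.Var

set_option autoImplicit false

/-!
# Row VFL of the board pbh_modules: the fundamental lemma of the calculus of variations
-/

namespace MP8d4425

open MeasureTheory in
theorem vfl_proof : VflStatement := by
  intro m n U b r hU hb hr hrpos hint x0 hx0
  by_contra hne
  have hcont : ContinuousOn (fun x => inner ℝ (b x) (b x0)) U := hb.inner continuousOn_const
  have hpos0 : 0 < inner ℝ (b x0) (b x0) := by
    rw [real_inner_self_eq_norm_sq]
    have : 0 < ‖b x0‖ := norm_pos_iff.2 hne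
    positivity
  have hev : ∀ᶠ x in nhds x0, 0 < inner ℝ (b x) (b x0) :=
    (hcont.continuousAt (hU.mem_nhds hx0)).eventually (lt_mem_nhds hpos0)
  obtain ⟨ρ, hρ, hball⟩ := Metric.nhds_basis_closedBall.mem_iff.1
    (Filter.inter_mem (hU.mem_nhds hx0) hev)
  set D := Metric.closedBall x0 ρ with hD
  have hDU : D ⊆ U := fun x hx => (hball hx).1
  have hDpos : ∀ x ∈ D, 0 < inner ℝ (b x) (b x0) := fun x hx => (hball hx).2
  have hDc : IsCompact D := isCompact_closedBall x0 ρ
  let χ : ContDiffBump x0 := ⟨ρ / 2, ρ, by positivity, by linarith⟩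
  have hχ0 : ∀ x, x ∉ D → χ x = 0 := by
    intro x hx
    apply χ.zero_of_le_dist
    have : ρ < dist x x0 := by simpa [hD] using hx
    exact this.le
  have h := hint D (fun x => χ x • b x0) hDc hDU
    (χ.contDiff.smul contDiff_const) (fun x hx => by simp [hχ0 x hx])
  set g : X m → ℝ := fun x => inner ℝ (b x) (χ x • b x0) * r x with hg
  have hgc : ContinuousOn g D := by
    refine ContinuousOn.mul ?_ (hr.mono hDU)
    refine ContinuousOn.inner (hb.mono hDU) ?_
    exact (χ.continuous.smul continuous_const).continuousOn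
  have hgi : IntegrableOn g D volume := hgc.integrableOn_compact hDc
  have hgn : ∀ x ∈ D, 0 ≤ g x := by
    intro x hx
    simp only [hg, inner_smul_right]
    exact mul_nonneg (mul_nonneg χ.nonneg (hDpos x hx).le) (hrpos x (hDU hx)).le
  have hgpos : ∀ x ∈ Metric.ball x0 (ρ / 2), 0 < g x := by
    intro x hx
    have hx' : x ∈ Metric.closedBall x0 (ρ / 2) := Metric.ball_subset_closedBall hx
    have h1 : χ x = 1 := χ.one_of_mem_closedBall hx'
    have hxD : x ∈ D := Metric.closedBall_subset_closedBall (by linarith) hx'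
    simp only [hg, inner_smul_right, h1, one_mul]
    exact mul_pos (hDpos x hxD) (hrpos x (hDU hxD))
  have hnn : 0 ≤ᵐ[volume.restrict D] g := by
    rw [Filter.EventuallyLE, ae_restrict_iff' hDc.measurableSet]
    exact Filter.Eventually.of_forall hgn
  have hlt : 0 < ∫ x in D, g x := by
    rw [setIntegral_pos_iff_support_of_nonneg_ae hnn hgi]
    refine lt_of_lt_of_le (Metric.measure_ball_pos volume x0 (half_pos hρ))
      (measure_mono fun x hx => ⟨(hgpos x hx).ne', ?_⟩)
    exact Metric.closedBall_subset_closedBall (by linarith) (Metric.ball_subset_closedBall hx)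
  exact absurd h hlt.ne'

end MP8d4425
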