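import Mathlib
import Pool.Agent.Lib.MP_8d4425_gt.PB.Var
import Pool.Agent.Lib.MP_8d4425_gt.PB.Jac

set_option autoImplicit false

/-!
# Row VGD: the Gram matrix of an immersion, its determinant and its inverse
-/

namespace MP8d4425

open scoped ContDiff

theorem vgd_det {m k : ℕ} {U : Set (X m)} {A : X m → Matrix (Fin k) (Fin k) ℝ}
    (h : ∀ i j, ContDiffOn ℝ ∞ (fun x => A x i j) U) :
    ContDiffOn ℝ ∞ (fun x => (A x).det) U := by
  simp only [Matrix.det_apply']
  refine ContDiffOn.sum fun σ _ => ?_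
  exact contDiffOn_const.mul (contDiffOn_prod fun i _ => h _ _)

theorem vgd_adj {m k : ℕ} {U : Set (X m)} {A : X m → Matrix (Fin k) (Fin k) ℝ}
    (h : ∀ i j, ContDiffOn ℝ ∞ (fun x => A x i j) U) (i j : Fin k) :
    ContDiffOn ℝ ∞ (fun x => (A x).adjugate i j) U := by
  simp only [Matrix.adjugate_apply]
  refine vgd_det fun a b => ?_
  by_cases ha : a = j
  · subst ha
    simp only [Matrix.updateRow_self]
    exact contDiffOn_const
  · simp only [Matrix.updateRow_ne ha]
    exact h a b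

theorem vgd_gram {m n : ℕ} {U : Set (X m)} {φ : X m → X n} (hI : Immn U φ) (i j : Fin m) :
    ContDiffOn ℝ ∞ (fun x => gram φ x i j) U := by
  have hd : ContDiffOn ℝ ∞ (fderiv ℝ φ) U := hI.2.1.fderiv_of_isOpen hI.1 (by simp)
  have h1 : ∀ i : Fin m, ContDiffOn ℝ ∞ (fun x => fderiv ℝ φ x (cv i)) U :=
    fun i => hd.clm_apply contDiffOn_const
  exact (h1 i).inner ℝ (h1 j)

theorem vgd_symm {m n : ℕ} (φ : X m → X n) (x : X m) : (gram φ x).transpose = gram φ x := by
  ext i j
  exact (Jac.gram_symm φ x i j).symm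

theorem vgd_proof : VgdStatement := by
  intro m n U φ hI
  have hpos : ∀ x ∈ U, 0 < (gram φ x).det := fun x hx => Jac.det_pos_of_inj φ x (hI.2.2 x hx)
  refine ⟨fun x hx => ⟨hpos x hx, ?_, ?_⟩, ?_, ?_⟩
  · have hu : IsUnit (gram φ x).det := (hpos x hx).ne'.isUnit
    have h1 : prd φ φ x = ((gram φ x)⁻¹ * gram φ x).trace := by
      rw [prd, Matrix.trace]
      refine Finset.sum_congr rfl fun k _ => ?_
      rw [Matrix.diag_apply, Matrix.mul_apply]
      refine Finset.sum_congr rfl fun l _ => ?_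
      rw [gram, Matrix.of_apply, real_inner_comm]
    rw [h1, Matrix.nonsing_inv_mul _ hu, Matrix.trace_one, Fintype.card_fin]
  · intro i j
    have h2 : ((gram φ x)⁻¹).transpose = (gram φ x)⁻¹ := by
      rw [Matrix.transpose_nonsing_inv, vgd_symm]
    exact (congrFun (congrFun h2 i) j).symm
  · intro i j
    have h3 : ContDiffOn ℝ ∞ (fun x => ((gram φ x).det)⁻¹ * (gram φ x).adjugate i j) U :=
      ((vgd_det fun a b => vgd_gram hI a b).inv fun x hx => (hpos x hx).ne').mul
        (vgd_adj (fun a b => vgd_gram hI a b) i j)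
    refine h3.congr fun x _ => ?_
    rw [Matrix.inv_def, Ring.inverse_eq_inv', Matrix.smul_apply, smul_eq_mul]
  · exact (vgd_det fun a b => vgd_gram hI a b).sqrt fun x hx => (hpos x hx).ne'

end MP8d4425
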