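import Mathlib
import Pool.Agent.Lib.MP_8d4425_gt.PB.Var

set_option autoImplicit false

/-!
# Row VIB: integration by parts
-/

namespace MP8d4425

open scoped ContDiff Topology
open MeasureTheory

/-- The integral of a derivative of a smooth function with compact support vanishes. -/
theorem vib_zero {m : ℕ} (k : X m → ℝ) (hk : ContDiff ℝ ∞ k) (hs : HasCompactSupport k)
    (v : X m) : ∫ x, fderiv ℝ k x v = 0 := by
  have hc : Continuous (fun x => fderiv ℝ k x v) :=
    (hk.continuous_fderiv (by simp)).clm_apply continuous_const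
  have hs' : HasCompactSupport (fun x => fderiv ℝ k x v) := hs.fderiv_apply ℝ v
  have h := integral_mul_fderiv_eq_neg_fderiv_mul_of_integrable
    (μ := (volume : Measure (X m))) (f := fun _ => (1 : ℝ)) (g := k) (v := v)
    (by simp) (by simpa using hc.integrable_of_hasCompactSupport hs')
    (by simpa using hk.continuous.integrable_of_hasCompactSupport hs)
    (fun x _ => differentiableAt_const _)
    (fun x _ => (hk.differentiable (by simp)) x)
  simpa using h

/-- The same for a smooth function on `U` which vanishes outside of the compact set `D`. -/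
theorem vib_ext {m : ℕ} (U D : Set (X m)) (hU : IsOpen U) (hD : IsCompact D) (hDU : D ⊆ U)
    (h : X m → ℝ) (hh : ContDiffOn ℝ ∞ h U) (h0 : ∀ x ∈ U \ D, h x = 0) (v : X m) :
    ∫ x in D, fderiv ℝ h x v = 0 := by
  classical
  set k : X m → ℝ := U.indicator h with hkdef
  have k0 : ∀ x, x ∉ D → k x = 0 := by
    intro x hx
    by_cases hxU : x ∈ U
    · rw [hkdef, Set.indicator_of_mem hxU]
      exact h0 x ⟨hxU, hx⟩
    · rw [hkdef, Set.indicator_of_notMem hxU]
  have kev : ∀ x ∈ U, k =ᶠ[𝓝 x] h := by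
    intro x hx
    filter_upwards [hU.mem_nhds hx] with y hy
    exact Set.indicator_of_mem hy h
  have kev0 : ∀ x, x ∉ D → k =ᶠ[𝓝 x] fun _ => 0 := by
    intro x hx
    filter_upwards [hD.isClosed.isOpen_compl.mem_nhds hx] with y hy
    exact k0 y hy
  have hk : ContDiff ℝ ∞ k := by
    rw [contDiff_iff_contDiffAt]
    intro x
    by_cases hx : x ∈ U
    · exact ((hh x hx).contDiffAt (hU.mem_nhds hx)).congr_of_eventuallyEq (kev x hx)
    · exact contDiffAt_const.congr_of_eventuallyEq (kev0 x fun hD' => hx (hDU hD'))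
  have hs : HasCompactSupport k := HasCompactSupport.intro hD k0
  have e2 : ∀ x, x ∉ D → fderiv ℝ k x v = 0 := by
    intro x hx
    rw [(kev0 x hx).fderiv_eq]
    simp
  have e1 : ∫ x in D, fderiv ℝ h x v = ∫ x in D, fderiv ℝ k x v := by
    apply setIntegral_congr_fun hD.measurableSet
    intro x hx
    show fderiv ℝ h x v = fderiv ℝ k x v
    rw [(kev x (hDU hx)).fderiv_eq]
  rw [e1, setIntegral_eq_integral_of_forall_compl_eq_zero e2]
  exact vib_zero k hk hs v

/-- Integration by parts for vector valued functions. -/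
theorem vib_parts {m n : ℕ} (U D : Set (X m)) (hU : IsOpen U) (hD : IsCompact D) (hDU : D ⊆ U)
    (F Y : X m → X n) (hF : ContDiffOn ℝ ∞ F U) (hY : ContDiffOn ℝ ∞ Y U)
    (h0 : (∀ x ∈ U \ D, F x = 0) ∨ ∀ x ∈ U \ D, Y x = 0) (v : X m) :
    IntegrableOn (fun x => (inner ℝ (fderiv ℝ F x v) (Y x) : ℝ)) D ∧
    IntegrableOn (fun x => (inner ℝ (F x) (fderiv ℝ Y x v) : ℝ)) D ∧
    ∫ x in D, (inner ℝ (fderiv ℝ F x v) (Y x) : ℝ) =
      -∫ x in D, (inner ℝ (F x) (fderiv ℝ Y x v) : ℝ) := by
  have hF' : ContinuousOn (fun x => fderiv ℝ F x v) U :=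
    (hF.continuousOn_fderiv_of_isOpen hU (by simp)).clm_apply continuousOn_const
  have hY' : ContinuousOn (fun x => fderiv ℝ Y x v) U :=
    (hY.continuousOn_fderiv_of_isOpen hU (by simp)).clm_apply continuousOn_const
  have i1 : IntegrableOn (fun x => (inner ℝ (fderiv ℝ F x v) (Y x) : ℝ)) D :=
    ContinuousOn.integrableOn_compact hD ((hF'.inner (𝕜 := ℝ) hY.continuousOn).mono hDU)
  have i2 : IntegrableOn (fun x => (inner ℝ (F x) (fderiv ℝ Y x v) : ℝ)) D :=
    ContinuousOn.integrableOn_compact hD ((hF.continuousOn.inner (𝕜 := ℝ) hY').mono hDU)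
  refine ⟨i1, i2, ?_⟩
  have hh : ContDiffOn ℝ ∞ (fun x => (inner ℝ (F x) (Y x) : ℝ)) U := hF.inner ℝ hY
  have hz : ∀ x ∈ U \ D, (inner ℝ (F x) (Y x) : ℝ) = 0 := by
    intro x hx
    rcases h0 with h | h
    · rw [h x hx]; simp
    · rw [h x hx]; simp
  have e := vib_ext U D hU hD hDU _ hh hz v
  have e3 : ∫ x in D, fderiv ℝ (fun x => (inner ℝ (F x) (Y x) : ℝ)) x v =
      ∫ x in D, ((inner ℝ (fderiv ℝ F x v) (Y x) : ℝ) + inner ℝ (F x) (fderiv ℝ Y x v)) := by
    apply setIntegral_congr_fun hD.measurableSet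
    intro x hx
    have hx' := hDU hx
    have d1 : DifferentiableAt ℝ F x :=
      ((hF x hx').contDiffAt (hU.mem_nhds hx')).differentiableAt (by simp)
    have d2 : DifferentiableAt ℝ Y x :=
      ((hY x hx').contDiffAt (hU.mem_nhds hx')).differentiableAt (by simp)
    show fderiv ℝ (fun x => (inner ℝ (F x) (Y x) : ℝ)) x v = _
    rw [fderiv_inner_apply ℝ d1 d2]
    exact add_comm _ _
  rw [e3, integral_add i1 i2] at e
  linarith

theorem vib_proof (h1 : VgdStatement) : VibStatement := by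
  intro m n U D φ Y θ hI hθ hY hD hDU h0
  obtain ⟨g1, g2, g3⟩ := h1 m n U φ hI
  have hU := hI.1
  set s : X m → ℝ := fun y => Real.sqrt (gram φ y).det with hs
  set F : Fin m → X m → X n := fun i y => s y • ∑ j, (gram φ y)⁻¹ i j • θ y j with hFd
  have hF : ∀ i, ContDiffOn ℝ ∞ (F i) U := by
    intro i
    apply ContDiffOn.smul g3
    apply ContDiffOn.sum
    intro j _
    exact (g2 i j).smul (hθ j)
  have h0' : ∀ i, (∀ x ∈ U \ D, F i x = 0) ∨ ∀ x ∈ U \ D, Y x = 0 := by
    intro i
    rcases h0 with h | h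
    · left
      intro x hx
      simp only [hFd]
      rw [Finset.sum_eq_zero (fun j _ => by rw [h x hx j, smul_zero]), smul_zero]
    · exact Or.inr h
  have hp := fun i => vib_parts U D hU hD hDU (F i) Y (hF i) hY (h0' i) (cv i)
  have eL : ∫ x in D, inner ℝ (dvg φ θ x) (Y x) * Real.sqrt (gram φ x).det =
      ∫ x in D, ∑ i, (inner ℝ (fderiv ℝ (F i) x (cv i)) (Y x) : ℝ) := by
    apply setIntegral_congr_fun hD.measurableSet
    intro x hx
    have hpos : 0 < Real.sqrt (gram φ x).det := Real.sqrt_pos.2 (g1 x (hDU hx)).1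
    show inner ℝ (dvg φ θ x) (Y x) * Real.sqrt (gram φ x).det = _
    rw [dvg, real_inner_smul_left, sum_inner]
    field_simp
    rfl
  have eR : ∫ x in D, (∑ i, ∑ j, (gram φ x)⁻¹ i j * inner ℝ (θ x j) (fderiv ℝ Y x (cv i))) *
      Real.sqrt (gram φ x).det =
      ∫ x in D, ∑ i, (inner ℝ (F i x) (fderiv ℝ Y x (cv i)) : ℝ) := by
    apply setIntegral_congr_fun hD.measurableSet
    intro x hx
    show (∑ i, ∑ j, (gram φ x)⁻¹ i j * inner ℝ (θ x j) (fderiv ℝ Y x (cv i))) *
      Real.sqrt (gram φ x).det = ∑ i, (inner ℝ (F i x) (fderiv ℝ Y x (cv i)) : ℝ)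
    rw [Finset.sum_mul]
    apply Finset.sum_congr rfl
    intro i _
    simp only [hFd, hs]
    rw [real_inner_smul_left, sum_inner, mul_comm]
    congr 1
    apply Finset.sum_congr rfl
    intro j _
    rw [real_inner_smul_left]
  rw [eL, eR, integral_finsetSum _ (fun i _ => (hp i).1),
    integral_finsetSum _ (fun i _ => (hp i).2.1), ← Finset.sum_neg_distrib]
  exact Finset.sum_congr rfl fun i _ => (hp i).2.2

end MP8d4425
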