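import Pool.Agent.Lib.MP_8d4425_gt.PB.Var

set_option autoImplicit false

/-!
# Row VIN of the board pbh_modules: differentiation under the integral sign
-/

namespace MP8d4425

open MeasureTheory in
theorem vin_proof : VinStatement := by
  intro m F F' δ W D hδ hW hD hDW hF hF'
  have hopen : IsOpen (Set.Ioo (-δ) δ ×ˢ W) := isOpen_Ioo.prod hW
  set G : ℝ → X m → ℝ := fun t x => fderiv ℝ (Function.uncurry F) (t, x) (1, 0) with hG
  have hGc : ContinuousOn (Function.uncurry G) (Set.Ioo (-δ) δ ×ˢ W) := by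
    have h1 : ContinuousOn (fderiv ℝ (Function.uncurry F)) (Set.Ioo (-δ) δ ×ˢ W) :=
      hF.continuousOn_fderiv_of_isOpen hopen (by simp)
    exact h1.clm_apply continuousOn_const
  have hder : ∀ t ∈ Set.Ioo (-δ) δ, ∀ x ∈ W, HasDerivAt (fun t => F t x) (G t x) t := by
    intro t ht x hx
    have h1 : HasFDerivAt (Function.uncurry F) (fderiv ℝ (Function.uncurry F) (t, x)) (t, x) :=
      ((hF.differentiableOn (by simp)).differentiableAt (hopen.mem_nhds ⟨ht, hx⟩)).hasFDerivAt
    have h2 : HasDerivAt (fun t : ℝ => (t, x)) ((1 : ℝ), (0 : X m)) t :=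
      (hasDerivAt_id t).prodMk (hasDerivAt_const t x)
    exact h1.comp_hasDerivAt t h2
  have hcl : Set.Icc (-(δ / 2)) (δ / 2) ⊆ Set.Ioo (-δ) δ := fun t ht =>
    ⟨by linarith [ht.1], by linarith [ht.2]⟩
  obtain ⟨C, hC⟩ := (isCompact_Icc.prod hD).exists_bound_of_continuousOn
    (hGc.mono (Set.prod_mono hcl hDW))
  have h0 : (0 : ℝ) ∈ Set.Ioo (-δ) δ := ⟨by linarith, hδ⟩
  have hFc : ∀ t ∈ Set.Ioo (-δ) δ, ContinuousOn (F t) D := by
    intro t ht
    have h1 : ContinuousOn (fun x : X m => (t, x)) D := by fun_prop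
    exact hF.continuousOn.comp h1 fun x hx => ⟨ht, hDW hx⟩
  have hGc0 : ContinuousOn (G 0) D := by
    have h1 : ContinuousOn (fun x : X m => ((0 : ℝ), x)) D := by fun_prop
    exact hGc.comp h1 fun x hx => ⟨h0, hDW hx⟩
  have hs : Set.Icc (-(δ / 2)) (δ / 2) ∈ nhds (0 : ℝ) :=
    Icc_mem_nhds (by linarith) (by linarith)
  have hmeas : MeasurableSet D := hD.measurableSet
  have : IsFiniteMeasure (volume.restrict D) := by
    constructor
    rw [Measure.restrict_apply_univ]
    exact hD.measure_lt_top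
  have key := hasDerivAt_integral_of_dominated_loc_of_deriv_le (μ := volume.restrict D)
    (F := F) (F' := G) (x₀ := (0 : ℝ)) (bound := fun _ => C) hs
    (by
      filter_upwards [hs] with t ht
      exact (hFc t (hcl ht)).aestronglyMeasurable hmeas)
    ((hFc 0 h0).integrableOn_compact hD)
    (hGc0.aestronglyMeasurable hmeas)
    (by
      rw [ae_restrict_iff' hmeas]
      exact Filter.Eventually.of_forall fun x hx t ht => hC (t, x) ⟨ht, hx⟩)
    (integrable_const C)
    (by
      rw [ae_restrict_iff' hmeas]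
      exact Filter.Eventually.of_forall fun x hx t ht => hder t (hcl ht) x (hDW hx))
  have heq : ∫ x in D, G 0 x = ∫ x in D, F' x :=
    setIntegral_congr_fun hmeas fun x hx => (hder 0 h0 x (hDW hx)).unique (hF' x (hDW hx))
  rw [← heq]
  exact key.2

end MP8d4425
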