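import Mathlib
import Pool.Agent.Lib.MP_8d4425_gt.PB.Var

set_option autoImplicit false

/-!
# Row VSY: the linearised operator is self-adjoint
-/

namespace MP8d4425

open scoped ContDiff Topology
open MeasureTheory

/-- The integrand after integration by parts. -/
theorem vsy_point {m n : ℕ} (φ Y V : X m → X n) (x : X m) (a c : ℝ) :
    ∑ i, ∑ j, (gram φ x)⁻¹ i j * (inner ℝ (a • fderiv ℝ V x (cv j) +
      (c * prd φ V x) • fderiv ℝ φ x (cv j)) (fderiv ℝ Y x (cv i)) : ℝ) =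
    a * (∑ i, ∑ j, (gram φ x)⁻¹ i j *
      (inner ℝ (fderiv ℝ V x (cv j)) (fderiv ℝ Y x (cv i)) : ℝ)) +
      c * prd φ V x * prd φ Y x := by
  have e : prd φ Y x = ∑ i, ∑ j, (gram φ x)⁻¹ i j *
      (inner ℝ (fderiv ℝ φ x (cv j)) (fderiv ℝ Y x (cv i)) : ℝ) := by
    rw [prd]
    refine Finset.sum_congr rfl fun i _ => Finset.sum_congr rfl fun j _ => ?_
    rw [real_inner_comm]
  rw [e, Finset.mul_sum, Finset.mul_sum, ← Finset.sum_add_distrib]
  refine Finset.sum_congr rfl fun i _ => ?_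
  rw [Finset.mul_sum, Finset.mul_sum, ← Finset.sum_add_distrib]
  refine Finset.sum_congr rfl fun j _ => ?_
  rw [inner_add_left, real_inner_smul_left, real_inner_smul_left]
  ring

/-- Symmetry of the principal part. -/
theorem vsy_symm {m n : ℕ} (φ Y V : X m → X n) (x : X m)
    (hs : ∀ i j, (gram φ x)⁻¹ i j = (gram φ x)⁻¹ j i) :
    ∑ i, ∑ j, (gram φ x)⁻¹ i j * (inner ℝ (fderiv ℝ V x (cv j)) (fderiv ℝ Y x (cv i)) : ℝ) =
    ∑ i, ∑ j, (gram φ x)⁻¹ i j * (inner ℝ (fderiv ℝ Y x (cv j)) (fderiv ℝ V x (cv i)) : ℝ) := by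
  rw [Finset.sum_comm]
  refine Finset.sum_congr rfl fun j _ => Finset.sum_congr rfl fun i _ => ?_
  rw [hs i j, real_inner_comm]

theorem vsy_proof (h1 : VgdStatement) (h2 : VdsStatement) (h3 : VibStatement) :
    VsyStatement := by
  intro m n p U D φ Y V hI hY hV hD hDU hV0 hm
  obtain ⟨g1, g2, g3⟩ := h1 m n U φ hI
  obtain ⟨s1, _⟩ := h2 m n U φ hI
  have hU := hI.1
  have hφ := hI.2.1
  have hmpos : (0 : ℝ) < m := by exact_mod_cast hm
  -- the coefficients are constant on `U`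
  have ca : ∀ q : ℝ, ContDiffOn ℝ ∞ (fun y => (prd φ φ y) ^ q) U := by
    intro q
    apply (contDiffOn_const (c := (m : ℝ) ^ q)).congr
    intro y hy
    rw [(g1 y hy).2.1]
  have reg : ∀ Z : X m → X n, ContDiffOn ℝ ∞ Z U → ∀ j, ContDiffOn ℝ ∞ (fun y =>
      (prd φ φ y) ^ ((p - 2) / 2) • fderiv ℝ Z y (cv j) +
      ((p - 2) * (prd φ φ y) ^ ((p - 4) / 2) * prd φ Z y) • fderiv ℝ φ y (cv j)) U := by
    intro Z hZ j
    obtain ⟨z1, z2⟩ := s1 Z hZ
    obtain ⟨_, f2⟩ := s1 φ hφ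
    exact ((ca _).smul (z2 j)).add (((contDiffOn_const.mul (ca _)).mul z1).smul (f2 j))
  have hVU : ContDiffOn ℝ ∞ V U := hV.contDiffOn
  have hV' : ∀ x, x ∉ D → ∀ v, fderiv ℝ V x v = 0 := by
    intro x hx v
    have : V =ᶠ[𝓝 x] fun _ => 0 := by
      filter_upwards [hD.isClosed.isOpen_compl.mem_nhds hx] with y hy
      exact hV0 y hy
    rw [this.fderiv_eq]
    simp
  have hpV : ∀ x, x ∉ D → prd φ V x = 0 := by
    intro x hx
    rw [prd]
    refine Finset.sum_eq_zero fun i _ => Finset.sum_eq_zero fun j _ => ?_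
    rw [hV' x hx]
    simp
  -- integration by parts, twice
  have A := h3 m n U D φ Y (fun y j => (prd φ φ y) ^ ((p - 2) / 2) • fderiv ℝ V y (cv j) +
      ((p - 2) * (prd φ φ y) ^ ((p - 4) / 2) * prd φ V y) • fderiv ℝ φ y (cv j)) hI
    (reg V hVU) hY hD hDU (Or.inl fun x hx j => by
      rw [hV' x hx.2, hpV x hx.2]; simp)
  have B := h3 m n U D φ V (fun y j => (prd φ φ y) ^ ((p - 2) / 2) • fderiv ℝ Y y (cv j) +
      ((p - 2) * (prd φ φ y) ^ ((p - 4) / 2) * prd φ Y y) • fderiv ℝ φ y (cv j)) hI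
    (reg Y hY) hVU hD hDU (Or.inr fun x hx => hV0 x hx.2)
  have eA : ∫ x in D, inner ℝ (Y x) (jcb p φ V x) * Real.sqrt (gram φ x).det =
      ∫ x in D, inner ℝ (dvg φ (fun y j => (prd φ φ y) ^ ((p - 2) / 2) • fderiv ℝ V y (cv j) +
      ((p - 2) * (prd φ φ y) ^ ((p - 4) / 2) * prd φ V y) • fderiv ℝ φ y (cv j)) x) (Y x) *
        Real.sqrt (gram φ x).det := by
    apply setIntegral_congr_fun hD.measurableSet
    intro x hx
    show inner ℝ (Y x) (jcb p φ V x) * Real.sqrt (gram φ x).det = _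
    rw [real_inner_comm]
    rfl
  rw [eA, A]
  refine Eq.trans ?_ B.symm
  congr 1
  apply setIntegral_congr_fun hD.measurableSet
  intro x hx
  have hx' := hDU hx
  show (∑ i, ∑ j, (gram φ x)⁻¹ i j * (inner ℝ _ _ : ℝ)) * _ =
    (∑ i, ∑ j, (gram φ x)⁻¹ i j * (inner ℝ _ _ : ℝ)) * _
  rw [vsy_point, vsy_point, vsy_symm φ Y V x (g1 x hx').2.2]
  ring

end MP8d4425
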