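import Mathlib
import Pool.Agent.Lib.MP_8d4425_gt.PB.Var

set_option autoImplicit false

/-!
# Row VTN: the first variation of the p-tension field
-/

namespace MP8d4425

open scoped ContDiff

/-- The quadratic polynomial `|dφ + t dV|²`. -/
noncomputable def vtnA {m n : ℕ} (φ V : X m → X n) (t : ℝ) (y : X m) : ℝ :=
  prd φ φ y + 2 * t * prd φ V y + t ^ 2 * prdv φ V V y

/-- The components of the vector field whose divergence is the p-tension field. -/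
noncomputable def vtnT {m n : ℕ} (p : ℝ) (φ V : X m → X n) (i : Fin m) (t : ℝ) (y : X m) :
    X n :=
  Real.sqrt (gram φ y).det • ∑ j, (gram φ y)⁻¹ i j •
    ((vtnA φ V t y) ^ ((p - 2) / 2) • (fderiv ℝ φ y (cv j) + t • fderiv ℝ V y (cv j)))

/-- The same for the linearised operator. -/
noncomputable def vtnD {m n : ℕ} (p : ℝ) (φ V : X m → X n) (i : Fin m) (y : X m) : X n :=
  Real.sqrt (gram φ y).det • ∑ j, (gram φ y)⁻¹ i j •
    ((prd φ φ y) ^ ((p - 2) / 2) • fderiv ℝ V y (cv j) +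
    ((p - 2) * (prd φ φ y) ^ ((p - 4) / 2) * prd φ V y) • fderiv ℝ φ y (cv j))

theorem vtn_fd {m n : ℕ} {U : Set (X m)} {φ V : X m → X n} (hI : Immn U φ)
    (hV : ContDiff ℝ ∞ V) (t : ℝ) {x : X m} (hx : x ∈ U) (v : X m) :
    fderiv ℝ (fun y => φ y + t • V y) x v = fderiv ℝ φ x v + t • fderiv ℝ V x v := by
  have h1 : DifferentiableAt ℝ φ x :=
    (hI.2.1.contDiffAt (hI.1.mem_nhds hx)).differentiableAt (by simp)
  have h2 : DifferentiableAt ℝ V x := (hV.differentiable (by simp)) x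
  have h3 : fderiv ℝ (fun y => φ y + t • V y) x = fderiv ℝ φ x + t • fderiv ℝ V x := by
    have e1 : HasFDerivAt (fun y => φ y + t • V y) (fderiv ℝ φ x + t • fderiv ℝ V x) x :=
      h1.hasFDerivAt.fun_add (h2.hasFDerivAt.fun_const_smul t)
    exact e1.fderiv
  rw [h3]
  rfl

theorem vtn_a {m n : ℕ} {U : Set (X m)} {φ V : X m → X n} (hI : Immn U φ)
    (hs : ∀ x ∈ U, ∀ i j, (gram φ x)⁻¹ i j = (gram φ x)⁻¹ j i)
    (hV : ContDiff ℝ ∞ V) (t : ℝ) {x : X m} (hx : x ∈ U) :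
    prdv φ (fun y => φ y + t • V y) (fun y => φ y + t • V y) x = vtnA φ V t x := by
  have h1 : prdv φ (fun y => φ y + t • V y) (fun y => φ y + t • V y) x =
      ∑ k, ∑ l, (gram φ x)⁻¹ k l * (inner ℝ (fderiv ℝ φ x (cv k)) (fderiv ℝ φ x (cv l)) +
        t * inner ℝ (fderiv ℝ φ x (cv k)) (fderiv ℝ V x (cv l)) +
        t * inner ℝ (fderiv ℝ V x (cv k)) (fderiv ℝ φ x (cv l)) +
        t ^ 2 * inner ℝ (fderiv ℝ V x (cv k)) (fderiv ℝ V x (cv l))) := by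
    unfold prdv
    refine Finset.sum_congr rfl fun k _ => Finset.sum_congr rfl fun l _ => ?_
    rw [vtn_fd hI hV t hx, vtn_fd hI hV t hx, inner_add_left, inner_add_right, inner_add_right,
      inner_smul_left, inner_smul_left, inner_smul_right, inner_smul_right]
    simp only [RCLike.conj_to_real]
    ring
  have h2 : ∑ k, ∑ l, (gram φ x)⁻¹ k l *
      inner ℝ (fderiv ℝ φ x (cv k)) (fderiv ℝ V x (cv l)) = prd φ V x := by
    unfold prd
    rw [Finset.sum_comm]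
    refine Finset.sum_congr rfl fun k _ => Finset.sum_congr rfl fun l _ => ?_
    rw [hs x hx l k, real_inner_comm]
  have h3 : ∀ k l, (gram φ x)⁻¹ k l * (inner ℝ (fderiv ℝ φ x (cv k)) (fderiv ℝ φ x (cv l)) +
        t * inner ℝ (fderiv ℝ φ x (cv k)) (fderiv ℝ V x (cv l)) +
        t * inner ℝ (fderiv ℝ V x (cv k)) (fderiv ℝ φ x (cv l)) +
        t ^ 2 * inner ℝ (fderiv ℝ V x (cv k)) (fderiv ℝ V x (cv l))) =
      (gram φ x)⁻¹ k l * inner ℝ (fderiv ℝ φ x (cv k)) (fderiv ℝ φ x (cv l)) +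
        t * ((gram φ x)⁻¹ k l * inner ℝ (fderiv ℝ φ x (cv k)) (fderiv ℝ V x (cv l))) +
        t * ((gram φ x)⁻¹ k l * inner ℝ (fderiv ℝ V x (cv k)) (fderiv ℝ φ x (cv l))) +
        t ^ 2 * ((gram φ x)⁻¹ k l * inner ℝ (fderiv ℝ V x (cv k)) (fderiv ℝ V x (cv l))) := by
    intro k l
    ring
  rw [h1]
  simp only [h3, Finset.sum_add_distrib, ← Finset.mul_sum]
  rw [h2]
  unfold vtnA prd prdv
  ring

theorem vtn_tens {m n : ℕ} (p : ℝ) {U : Set (X m)} {φ V : X m → X n} (hI : Immn U φ)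
    (hs : ∀ x ∈ U, ∀ i j, (gram φ x)⁻¹ i j = (gram φ x)⁻¹ j i)
    (hV : ContDiff ℝ ∞ V) (t : ℝ) {x : X m} (hx : x ∈ U) :
    tensv p φ (fun y => φ y + t • V y) x =
      (Real.sqrt (gram φ x).det)⁻¹ • ∑ i, fderiv ℝ (vtnT p φ V i t) x (cv i) := by
  unfold tensv dvg
  congr 1
  refine Finset.sum_congr rfl fun i _ => ?_
  have h1 : (fun y => Real.sqrt (gram φ y).det • ∑ j, (gram φ y)⁻¹ i j •
      ((prdv φ (fun y => φ y + t • V y) (fun y => φ y + t • V y) y) ^ ((p - 2) / 2) •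
        fderiv ℝ (fun y => φ y + t • V y) y (cv j))) =ᶠ[nhds x] vtnT p φ V i t := by
    filter_upwards [hI.1.mem_nhds hx] with y hy
    unfold vtnT
    rw [vtn_a hI hs hV t hy]
    congr 1
    refine Finset.sum_congr rfl fun j _ => ?_
    rw [vtn_fd hI hV t hy]
  rw [h1.fderiv_eq]

theorem vtn_deriv {m n : ℕ} (p : ℝ) {U : Set (X m)} {φ V : X m → X n} (hm : 0 < m)
    (h0 : ∀ x ∈ U, prd φ φ x = m) (i : Fin m) {y : X m} (hy : y ∈ U) :
    HasDerivAt (fun t => vtnT p φ V i t y) (vtnD p φ V i y) 0 := by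
  have hpos : (0 : ℝ) < prd φ φ y := by
    rw [h0 y hy]
    exact_mod_cast hm
  have hA0 : vtnA φ V 0 y = prd φ φ y := by
    unfold vtnA
    ring
  have hA : HasDerivAt (fun t => vtnA φ V t y) (2 * prd φ V y) 0 := by
    unfold vtnA
    have e1 : HasDerivAt (fun t : ℝ => 2 * t * prd φ V y) (2 * 1 * prd φ V y) 0 :=
      ((hasDerivAt_id (0 : ℝ)).const_mul 2).mul_const _
    have e2 : HasDerivAt (fun t : ℝ => t ^ 2 * prdv φ V V y)
        (((2 : ℕ) * (0 : ℝ) ^ (2 - 1)) * prdv φ V V y) 0 :=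
      (hasDerivAt_pow 2 (0 : ℝ)).mul_const _
    have e3 := (e1.const_add (prd φ φ y)).add e2
    have e4 : 2 * 1 * prd φ V y + ((2 : ℕ) * (0 : ℝ) ^ (2 - 1)) * prdv φ V V y =
        2 * prd φ V y := by
      norm_num
    rw [e4] at e3
    exact e3
  have hB : HasDerivAt (fun t => (vtnA φ V t y) ^ ((p - 2) / 2))
      ((p - 2) * (prd φ φ y) ^ ((p - 4) / 2) * prd φ V y) 0 := by
    have e1 := hA.rpow_const (p := (p - 2) / 2) (Or.inl (by rw [hA0]; exact hpos.ne'))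
    rw [hA0] at e1
    have e2 : 2 * prd φ V y * ((p - 2) / 2) * prd φ φ y ^ ((p - 2) / 2 - 1) =
        (p - 2) * (prd φ φ y) ^ ((p - 4) / 2) * prd φ V y := by
      have e3 : (p - 2) / 2 - 1 = (p - 4) / 2 := by ring
      rw [e3]
      ring
    rw [e2] at e1
    exact e1
  have hj : ∀ j, HasDerivAt (fun t : ℝ => (vtnA φ V t y) ^ ((p - 2) / 2) •
      (fderiv ℝ φ y (cv j) + t • fderiv ℝ V y (cv j)))
      ((prd φ φ y) ^ ((p - 2) / 2) • fderiv ℝ V y (cv j) +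
        ((p - 2) * (prd φ φ y) ^ ((p - 4) / 2) * prd φ V y) • fderiv ℝ φ y (cv j)) 0 := by
    intro j
    have e1 : HasDerivAt (fun t : ℝ => fderiv ℝ φ y (cv j) + t • fderiv ℝ V y (cv j))
        ((1 : ℝ) • fderiv ℝ V y (cv j)) 0 :=
      ((hasDerivAt_id (0 : ℝ)).smul_const (fderiv ℝ V y (cv j))).const_add _
    have e2 := hB.smul e1
    rw [hA0, zero_smul, add_zero, one_smul] at e2
    exact e2
  unfold vtnT vtnD
  refine HasDerivAt.fun_const_smul _ ?_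
  refine HasDerivAt.fun_sum fun j _ => ?_
  exact (hj j).fun_const_smul _

theorem vtn_proof (h1 : VgdStatement) (h2 : VdsStatement) (h3 : VcmStatement) :
    VtnStatement := by
  intro m n p U D φ V hm hI hV hD hDU
  obtain ⟨g1, g2, g3⟩ := h1 m n U φ hI
  obtain ⟨s1, -⟩ := h2 m n U φ hI
  have hs : ∀ x ∈ U, ∀ i j, (gram φ x)⁻¹ i j = (gram φ x)⁻¹ j i := fun x hx => (g1 x hx).2.2
  have h0 : ∀ x ∈ U, prd φ φ x = m := fun x hx => (g1 x hx).2.1
  have hVU : ContDiffOn ℝ ∞ V U := hV.contDiffOn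
  have c0 := (s1 φ hI.2.1).1
  have c1 := (s1 V hVU).1
  have cφ := (s1 φ hI.2.1).2
  have cV := (s1 V hVU).2
  have c2 : ContDiffOn ℝ ∞ (prdv φ V V) U := by
    unfold prdv
    refine ContDiffOn.sum fun k _ => ContDiffOn.sum fun l _ => ?_
    exact (g2 k l).mul ((cV k).inner ℝ (cV l))
  -- composition with the second projection
  have pr2 : ∀ {E : Type} [NormedAddCommGroup E] [NormedSpace ℝ E] (f : X m → E),
      ContDiffOn ℝ ∞ f U → ∀ S : Set (ℝ × X m), (∀ q ∈ S, q.2 ∈ U) →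
      ContDiffOn ℝ ∞ (fun q : ℝ × X m => f q.2) S := by
    intro E _ _ f hf S hS
    exact hf.comp contDiff_snd.contDiffOn hS
  have fst : ∀ S : Set (ℝ × X m), ContDiffOn ℝ ∞ (fun q : ℝ × X m => q.1) S := fun S =>
    contDiff_fst.contDiffOn
  have cA : ∀ S : Set (ℝ × X m), (∀ q ∈ S, q.2 ∈ U) →
      ContDiffOn ℝ ∞ (fun q : ℝ × X m => vtnA φ V q.1 q.2) S := by
    intro S hS
    unfold vtnA
    exact ((pr2 _ c0 S hS).add ((contDiffOn_const.mul (fst S)).mul (pr2 _ c1 S hS))).add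
      (((fst S).pow 2).mul (pr2 _ c2 S hS))
  -- positivity near `{0} × D`
  have hU2 : IsOpen ((Set.univ : Set ℝ) ×ˢ U) := isOpen_univ.prod hI.1
  have hopen : IsOpen (((Set.univ : Set ℝ) ×ˢ U) ∩
      (fun q : ℝ × X m => vtnA φ V q.1 q.2) ⁻¹' Set.Ioi 0) :=
    (cA _ fun q hq => hq.2).continuousOn.isOpen_inter_preimage hU2 isOpen_Ioi
  obtain ⟨u, W, hu, hW, hu0, hDW, huW⟩ := generalized_tube_lemma
    (isCompact_singleton (x := (0 : ℝ))) hD hopen (by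
      rintro ⟨t, y⟩ ⟨ht, hy⟩
      obtain rfl : t = 0 := ht
      have hyU : y ∈ U := hDU hy
      refine ⟨⟨trivial, hyU⟩, ?_⟩
      change 0 < vtnA φ V 0 y
      have e : vtnA φ V 0 y = m := by
        unfold vtnA
        rw [h0 y hyU]
        ring
      rw [e]
      exact_mod_cast hm)
  have hu0' : (0 : ℝ) ∈ u := hu0 rfl
  obtain ⟨δ, hδ, hball⟩ := Metric.isOpen_iff.1 hu 0 hu0'
  have hIoo : Set.Ioo (-δ) δ ⊆ u := by
    intro t ht
    apply hball
    rw [Metric.mem_ball, dist_zero_right, Real.norm_eq_abs, abs_lt]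
    exact ht
  have hWU : W ⊆ U := by
    intro y hy
    exact (huW (⟨hu0', hy⟩ : ((0 : ℝ), y) ∈ u ×ˢ W)).1.2
  have hS : ∀ q ∈ Set.Ioo (-δ) δ ×ˢ W, q.2 ∈ U := fun q hq => hWU hq.2
  have hpos : ∀ q ∈ Set.Ioo (-δ) δ ×ˢ W, vtnA φ V q.1 q.2 ≠ 0 := by
    rintro q ⟨hq1, hq2⟩
    have := (huW (⟨hIoo hq1, hq2⟩ : q ∈ u ×ˢ W)).2
    exact ne_of_gt this
  have cT : ∀ i, ContDiffOn ℝ ∞ (Function.uncurry (vtnT p φ V i)) (Set.Ioo (-δ) δ ×ˢ W) := by
    intro i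
    unfold Function.uncurry vtnT
    refine (pr2 _ g3 _ hS).fun_smul (ContDiffOn.sum fun j _ => ?_)
    refine (pr2 _ (g2 i j) _ hS).fun_smul (ContDiffOn.fun_smul ?_ ?_)
    · exact (cA _ hS).rpow_const_of_ne hpos
    · exact (pr2 _ (cφ j) _ hS).add ((fst _).fun_smul (pr2 _ (cV j) _ hS))
  have key := fun i => h3 m (X n) (vtnT p φ V i) δ W hδ hW (cT i) (cv i)
  refine ⟨δ, W, hδ, hW, hDW, hWU, ?_, ?_⟩
  · have e1 : ContDiffOn ℝ ∞ (fun q : ℝ × X m => (Real.sqrt (gram φ q.2).det)⁻¹ •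
        ∑ i, fderiv ℝ (vtnT p φ V i q.1) q.2 (cv i)) (Set.Ioo (-δ) δ ×ˢ W) := by
      refine ContDiffOn.fun_smul ?_ (ContDiffOn.sum fun i _ => (key i).1)
      refine (pr2 _ g3 _ hS).fun_inv fun q hq => ?_
      exact (Real.sqrt_pos.2 (g1 _ (hS q hq)).1).ne'
    refine e1.congr fun q hq => ?_
    exact vtn_tens p hI hs hV q.1 (hS q hq)
  · intro x hx
    have e1 : (fun t : ℝ => tensv p φ (fun y => φ y + t • V y) x) =
        fun t : ℝ => (Real.sqrt (gram φ x).det)⁻¹ •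
          ∑ i, fderiv ℝ (vtnT p φ V i t) x (cv i) := by
      funext t
      exact vtn_tens p hI hs hV t (hWU hx)
    rw [e1]
    have e2 : jcb p φ V x = (Real.sqrt (gram φ x).det)⁻¹ •
        ∑ i, fderiv ℝ (vtnD p φ V i) x (cv i) := rfl
    rw [e2]
    refine HasDerivAt.fun_const_smul _ (HasDerivAt.fun_sum fun i _ => ?_)
    exact (key i).2 (vtnD p φ V i) (fun y hy => vtn_deriv p hm h0 i (hWU hy)) x hx

end MP8d4425
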